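import Pool.Agent.E8helper28.LN.Gvn2

set_option autoImplicit false

/-!
# Linear patterns of complexity two with arbitrary weights (helper28): averages over a line of shifts
-/

namespace Pool.Agent.E8helper28.LN

open Finset
open Pool.Agent.E8helper81.GB (xt xt_out xt_in xt_abs lamz_le_inv)
open Pool.Agent.E8helper66.GB (FF DD S_U3)
open Pool.Agent.H373R2.T7 (lamz pz Vz Vz_pos lamz_nonneg mem_pz Vz_inv_small)

/-- the difference of `Λ` and its sieve model -/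
noncomputable def dz (z : ℕ) (x : ℕ) : ℝ := ArithmeticFunction.vonMangoldt x - lamz z x

/-- the uniform bound for the three forms -/
theorem T4_small (hU3 : S_U3) (U : ℕ) : ∃ B : ℕ, ∀ K : ℕ, ∃ N₀ : ℕ, ∀ M : ℕ, N₀ ≤ M → ∀ z : ℕ, Real.log M ^ B ≤ z →
    (z : ℝ) ≤ Real.log M ^ K → ∀ (u v c r s : ℤ), u ≠ 0 → v ≠ 0 → IsCoprime r s → |r| + |s| ≤ 4 →
    ∀ (g k e : ℤ → ℝ), (∀ x, |g x| ≤ Real.log M ^ 2) → (∀ x, |k x| ≤ Real.log M ^ 2) → (∀ x, |e x| ≤ 1) →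
    (∀ x : ℤ, x ∉ Icc (-(M : ℤ)) M → g x = 0) → (∀ x : ℤ, x ∉ Icc (-(M : ℤ)) M → k x = 0) →
    (s ≠ 0 → |T4 M u v c r s (xt M (dz z)) g k e| ≤ (M : ℝ) ^ 2 / Real.log M ^ U) ∧
    (r ≠ 0 → |T4 M u v c r s g (xt M (dz z)) k e| ≤ (M : ℝ) ^ 2 / Real.log M ^ U) ∧
    (u * s - v * r ≠ 0 → |T4 M u v c r s g k (xt M (dz z)) e| ≤ (M : ℝ) ^ 2 / Real.log M ^ U) := by
  obtain ⟨B, hB⟩ := hU3 (2 * U + 9)
  refine ⟨B, fun K => ?_⟩
  obtain ⟨N₀, h0⟩ := hB K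
  have hlim : Filter.Tendsto (fun N : ℕ => Real.log (N : ℝ)) Filter.atTop Filter.atTop :=
    Real.tendsto_log_atTop.comp (tendsto_natCast_atTop_atTop (R := ℝ))
  obtain ⟨N₂, hN₂⟩ := Filter.eventually_atTop.1 (hlim.eventually_ge_atTop 27)
  refine ⟨max N₀ (max N₂ 1), fun M hM z hz1 hz2 u v c r s hu hv hrs hrs4 g k e hg hk he hg0 hk0 => ?_⟩
  have b0 : N₀ ≤ M := (le_max_left _ _).trans hM
  have b2 : N₂ ≤ M := ((le_max_left _ _).trans (le_max_right _ _)).trans hM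
  have b3 : 1 ≤ M := ((le_max_right _ _).trans (le_max_right _ _)).trans hM
  have hL := hN₂ M b2
  set L := Real.log (M : ℝ) with hLd
  have hM1 : (1 : ℝ) ≤ M := by exact_mod_cast b3
  have hL0 : 0 < L := by linarith
  have hV := h0 M b0 z hz1 hz2
  have key := gvn M M le_rfl u v c r s hu hv hrs (dz z) ((M : ℝ) ^ 2 / L ^ (2 * U + 9)) (L ^ 2) (by positivity)
    (fun κ θ hκ => hV κ θ hκ) g k e hg hk he hg0 hk0
  have hbd : (2 * ((|r| + |s|) * M : ℤ) + 1 : ℝ) * ((M : ℝ) ^ 2 / L ^ (2 * U + 9) * ((2 * M + 1) * (L ^ 2) ^ 4)) ≤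
      ((M : ℝ) ^ 2 / L ^ U) ^ 2 := by
    have e1 : (2 * ((|r| + |s|) * M : ℤ) + 1 : ℝ) ≤ 9 * M := by
      have : (|r| + |s|) * (M : ℤ) ≤ 4 * M := mul_le_mul_of_nonneg_right hrs4 (Nat.cast_nonneg _)
      have h2 : (((|r| + |s|) * M : ℤ) : ℝ) ≤ 4 * M := by exact_mod_cast this
      linarith
    have e2 : (2 * (M : ℝ) + 1) ≤ 3 * M := by linarith
    calc (2 * ((|r| + |s|) * M : ℤ) + 1 : ℝ) * ((M : ℝ) ^ 2 / L ^ (2 * U + 9) * ((2 * M + 1) * (L ^ 2) ^ 4))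
        ≤ (9 * M) * ((M : ℝ) ^ 2 / L ^ (2 * U + 9) * ((3 * M) * (L ^ 2) ^ 4)) := by gcongr
      _ = (27 / L) * (M ^ 4 / L ^ (2 * U)) := by
        rw [pow_add L (2 * U) 9]
        field_simp
        ring
      _ ≤ 1 * (M ^ 4 / L ^ (2 * U)) := by
        apply mul_le_mul_of_nonneg_right _ (by positivity)
        rw [div_le_one hL0]; linarith
      _ = _ := by
        rw [one_mul, div_pow, ← pow_mul, ← pow_mul]
        congr 2
        ring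
  have hpos : 0 ≤ (M : ℝ) ^ 2 / L ^ U := by positivity
  refine ⟨fun h => ?_, fun h => ?_, fun h => ?_⟩
  · exact abs_le_of_sq_le_sq ((key.1 h).trans hbd) hpos
  · exact abs_le_of_sq_le_sq ((key.2.1 h).trans hbd) hpos
  · exact abs_le_of_sq_le_sq ((key.2.2 h).trans hbd) hpos

/-- the sign weights -/
noncomputable def sg (N : ℕ) (ε : ℕ → ℝ) (d : ℤ) : ℝ := if 2 ∣ d ∧ 2 ≤ d ∧ d ≤ 2 * N then ε (d / 2).toNat else 0

lemma sg_abs (N : ℕ) (ε : ℕ → ℝ) (hε : ∀ h, |ε h| ≤ 1) (d : ℤ) : |sg N ε d| ≤ 1 := by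
  unfold sg
  split_ifs
  · exact hε _
  · simp

lemma sg_sum (N M : ℕ) (ε : ℕ → ℝ) (Φ : ℤ → ℝ) (t : ℤ) (h1 : -(M : ℤ) ≤ t + 2) (h2 : t + 2 * N ≤ M) :
    ∑ x ∈ Icc (-(M : ℤ)) M, Φ x * sg N ε (x - t) = ∑ h ∈ Icc 1 N, Φ (t + 2 * h) * ε h := by
  have e1 : ∑ x ∈ Icc (-(M : ℤ)) M, Φ x * sg N ε (x - t) =
      ∑ x ∈ (Icc (-(M : ℤ)) M).filter (fun x => 2 ∣ (x - t) ∧ 2 ≤ (x - t) ∧ (x - t) ≤ 2 * N), Φ x * ε ((x - t) / 2).toNat := by
    rw [sum_filter]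
    refine sum_congr rfl fun x _ => ?_
    unfold sg
    rw [mul_ite, mul_zero]
  rw [e1]
  symm
  refine sum_nbij' (fun h => t + 2 * h) (fun x => ((x - t) / 2).toNat) ?_ ?_ ?_ ?_ ?_
  · intro h hh
    rw [mem_Icc] at hh
    rw [mem_filter, mem_Icc]
    omega
  · intro x hx
    rw [mem_filter, mem_Icc] at hx
    rw [mem_Icc]
    omega
  · intro h hh
    omega
  · intro x hx
    rw [mem_filter, mem_Icc] at hx
    omega
  · intro h hh
    have : ((t + 2 * (h : ℤ) - t) / 2).toNat = h := by omega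
    rw [this]

lemma xt_nat (M : ℕ) (f : ℕ → ℝ) (x : ℕ) (h1 : 1 ≤ x) (h2 : x ≤ M) (y : ℤ) (hy : y = x) : xt M f y = f x := by
  rw [hy, xt_in M f x h1 h2]

/-- restriction to the support -/
lemma supp_sum (N M : ℕ) (m : ℕ → ℝ) (Φ : ℤ → ℝ) (t : ℤ) (h1 : -(M : ℤ) ≤ t + 1) (h2 : t + N ≤ M) :
    ∑ y ∈ Icc (-(M : ℤ)) M, xt N m (y - t) * Φ y = ∑ n ∈ Icc 1 N, m n * Φ (t + n) := by
  have e1 : ∑ y ∈ Icc (-(M : ℤ)) M, xt N m (y - t) * Φ y = ∑ y ∈ Icc (t + 1) (t + N), xt N m (y - t) * Φ y := by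
    symm
    refine sum_subset ?_ ?_
    · intro y hy
      rw [mem_Icc] at hy ⊢
      omega
    · intro y _ hy
      rw [mem_Icc] at hy
      rw [xt_out N m _ (by omega), zero_mul]
  rw [e1]
  symm
  refine sum_nbij' (fun n => t + n) (fun y => (y - t).toNat) ?_ ?_ ?_ ?_ ?_
  · intro n hn; simp only [mem_Icc] at hn ⊢; omega
  · intro y hy; simp only [mem_Icc] at hy ⊢; omega
  · intro n hn; omega
  · intro y hy; simp only [mem_Icc] at hy ⊢; omega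
  · intro n hn
    rw [mem_Icc] at hn
    rw [show t + (n : ℤ) - t = n by ring, xt_in N m n hn.1 hn.2]

/-- the pattern `n, n + 2 h, n + 6 h` -/
lemma form13 (N : ℕ) (m f k : ℕ → ℝ) (ε : ℕ → ℝ) :
    T4 (7 * N) 3 (-2) 0 1 (-1) (xt (7 * N) f) (xt N m) (xt (7 * N) k) (sg N ε) =
      ∑ h ∈ Icc 1 N, ε h * ∑ n ∈ Icc 1 N, m n * (f (n + 2 * h) * k (n + 6 * h)) := by
  unfold T4
  rw [sum_comm]
  have e1 : ∀ y ∈ Icc (-((7 * N : ℕ) : ℤ)) ((7 * N : ℕ) : ℤ), ∑ x ∈ Icc (-((7 * N : ℕ) : ℤ)) ((7 * N : ℕ) : ℤ),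
      xt (7 * N) f x * xt N m y * xt (7 * N) k (3 * x + (-2) * y + 0) * sg N ε (1 * x + (-1) * y) =
      xt N m (y - 0) * ∑ x ∈ Icc (-((7 * N : ℕ) : ℤ)) ((7 * N : ℕ) : ℤ),
      (xt (7 * N) f x * xt (7 * N) k (3 * x + (-2) * y + 0)) * sg N ε (x - y) := by
    intro y _
    rw [mul_sum]
    refine sum_congr rfl fun x _ => ?_
    rw [show 1 * x + -1 * y = x - y by ring, sub_zero]
    ring
  rw [sum_congr rfl e1, supp_sum N (7 * N) m (fun y => ∑ x ∈ Icc (-((7 * N : ℕ) : ℤ)) ((7 * N : ℕ) : ℤ),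
      (xt (7 * N) f x * xt (7 * N) k (3 * x + (-2) * y + 0)) * sg N ε (x - y)) 0 (by omega) (by push_cast; omega)]
  have e2 : ∀ n ∈ Icc 1 N, m n * ∑ x ∈ Icc (-((7 * N : ℕ) : ℤ)) ((7 * N : ℕ) : ℤ),
      (xt (7 * N) f x * xt (7 * N) k (3 * x + (-2) * (0 + (n : ℤ)) + 0)) * sg N ε (x - (0 + (n : ℤ))) =
      ∑ h ∈ Icc 1 N, ε h * (m n * (f (n + 2 * h) * k (n + 6 * h))) := by
    intro n hn
    rw [mem_Icc] at hn
    rw [sg_sum N (7 * N) ε (fun x => xt (7 * N) f x * xt (7 * N) k (3 * x + (-2) * (0 + (n : ℤ)) + 0)) (0 + (n : ℤ))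
      (by omega) (by push_cast; omega), mul_sum]
    refine sum_congr rfl fun h hh => ?_
    rw [mem_Icc] at hh
    rw [xt_nat (7 * N) f (n + 2 * h) (by omega) (by omega) (0 + (n : ℤ) + 2 * h) (by push_cast; ring),
      xt_nat (7 * N) k (n + 6 * h) (by omega) (by omega) (3 * (0 + (n : ℤ) + 2 * h) + (-2) * (0 + (n : ℤ)) + 0) (by push_cast; ring)]
    ring
  rw [sum_congr rfl e2, sum_comm]
  refine sum_congr rfl fun h _ => ?_
  rw [mul_sum]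

/-- the pattern `n, n + 4 h, n + 6 h` -/
lemma form23 (N : ℕ) (m f k : ℕ → ℝ) (ε : ℕ → ℝ) :
    T4 (7 * N) (-2) 3 0 1 (-1) (xt (7 * N) k) (xt (7 * N) f) (xt N m) (sg N ε) =
      ∑ h ∈ Icc 1 N, ε h * ∑ n ∈ Icc 1 N, m n * (f (n + 4 * h) * k (n + 6 * h)) := by
  by_cases hN : N = 0
  · subst hN
    simp [T4, xt, sg]
  unfold T4
  rw [sum_comm]
  have e1 : ∀ y ∈ Icc (-((7 * N : ℕ) : ℤ)) ((7 * N : ℕ) : ℤ), ∑ x ∈ Icc (-((7 * N : ℕ) : ℤ)) ((7 * N : ℕ) : ℤ),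
      xt (7 * N) k x * xt (7 * N) f y * xt N m ((-2) * x + 3 * y + 0) * sg N ε (1 * x + (-1) * y) =
      ∑ h ∈ Icc 1 N, xt (7 * N) k (y + 2 * h) * xt (7 * N) f y * xt N m (y - 4 * h) * ε h := by
    intro y hy
    rw [mem_Icc] at hy
    by_cases hy2 : 1 ≤ y ∧ y ≤ 5 * N
    · have := sg_sum N (7 * N) ε (fun x => xt (7 * N) k x * xt (7 * N) f y * xt N m ((-2) * x + 3 * y + 0)) y
        (by omega) (by push_cast; omega)
      rw [sum_congr rfl fun x _ => show xt (7 * N) k x * xt (7 * N) f y * xt N m ((-2) * x + 3 * y + 0) * sg N ε (1 * x + (-1) * y) =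
        (fun x => xt (7 * N) k x * xt (7 * N) f y * xt N m ((-2) * x + 3 * y + 0)) x * sg N ε (x - y) by
          rw [show 1 * x + -1 * y = x - y by ring], this]
      refine sum_congr rfl fun h _ => ?_
      rw [show (-2) * (y + 2 * (h : ℤ)) + 3 * y + 0 = y - 4 * h by ring]
    · have z1 : ∑ h ∈ Icc 1 N, xt (7 * N) k (y + 2 * h) * xt (7 * N) f y * xt N m (y - 4 * h) * ε h = 0 := by
        refine sum_eq_zero fun h hh => ?_
        rw [mem_Icc] at hh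
        rw [xt_out N m (y - 4 * h) (by omega)]
        ring
      rw [z1]
      refine sum_eq_zero fun x hx => ?_
      rw [mem_Icc] at hx
      by_cases h3 : sg N ε (1 * x + (-1) * y) = 0
      · rw [h3, mul_zero]
      · have h4 : 2 ≤ x - y ∧ x - y ≤ 2 * N := by
          by_contra hcon
          apply h3
          unfold sg
          rw [if_neg]
          intro h5
          apply hcon
          constructor <;> linarith [h5.2.1, h5.2.2]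
        rw [xt_out N m ((-2) * x + 3 * y + 0) (by omega)]
        ring
  rw [sum_congr rfl e1, sum_comm]
  refine sum_congr rfl fun h hh => ?_
  rw [mem_Icc] at hh
  have e2 := supp_sum N (7 * N) m (fun y => xt (7 * N) k (y + 2 * h) * xt (7 * N) f y * ε h) (4 * h) (by push_cast; omega)
    (by push_cast; omega)
  rw [sum_congr rfl fun y _ => show xt (7 * N) k (y + 2 * h) * xt (7 * N) f y * xt N m (y - 4 * h) * ε h =
    xt N m (y - 4 * h) * (fun y => xt (7 * N) k (y + 2 * h) * xt (7 * N) f y * ε h) y by simp only; ring, e2, mul_sum]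
  refine sum_congr rfl fun n hn => ?_
  rw [mem_Icc] at hn
  rw [xt_nat (7 * N) k (n + 6 * h) (by omega) (by omega) (4 * (h : ℤ) + n + 2 * h) (by push_cast; ring),
    xt_nat (7 * N) f (n + 4 * h) (by omega) (by omega) (4 * (h : ℤ) + n) (by push_cast; ring)]
  ring

end Pool.Agent.E8helper28.LN
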