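import Pool.Agent.E8helper28.LN.Avg

set_option autoImplicit false

/-!
# Linear patterns of complexity two with arbitrary weights (helper28): averages over a line of shifts
-/

namespace Pool.Agent.E8helper28.LN

open Finset
open Pool.Agent.E8helper81.GB (xt xt_out xt_in xt_abs lamz_le_inv)
open Pool.Agent.E8helper66.GB (FF DD S_U3)
open Pool.Agent.H373R2.T7 (lamz pz Vz Vz_pos lamz_nonneg mem_pz Vz_inv_small)

/-- `Λ` as a function -/
noncomputable def La (x : ℕ) : ℝ := ArithmeticFunction.vonMangoldt x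

/-- the two patterns `n, n + a h, n + 6 h`, `a = 2, 4` -/
theorem avg (hU3 : S_U3) (U : ℕ) : ∃ B : ℕ, ∀ K : ℕ, ∃ N₀ : ℕ, ∀ N : ℕ, N₀ ≤ N → ∀ z : ℕ, Real.log N ^ B ≤ z →
    (z : ℝ) ≤ Real.log N ^ K → ∀ (m : ℕ → ℝ), (∀ n ∈ Icc 1 N, |m n| ≤ Real.log N ^ 2) → ∀ a : ℕ, a = 2 ∨ a = 4 →
    ∑ h ∈ Icc 1 N, |∑ n ∈ Icc 1 N, m n * (La (n + a * h) * La (n + 6 * h) -
      lamz z (n + a * h) * lamz z (n + 6 * h))| ≤ (N : ℝ) ^ 2 / Real.log N ^ U := by
  obtain ⟨B, hB⟩ := T4_small hU3 (U + 1)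
  refine ⟨B + 1, fun K => ?_⟩
  obtain ⟨N₀, h0⟩ := hB K
  obtain ⟨N₁, h1⟩ := Vz_inv_small K
  have hlim : Filter.Tendsto (fun N : ℕ => Real.log (N : ℝ)) Filter.atTop Filter.atTop :=
    Real.tendsto_log_atTop.comp (tendsto_natCast_atTop_atTop (R := ℝ))
  obtain ⟨N₂, hN₂⟩ := Filter.eventually_atTop.1 (hlim.eventually_ge_atTop ((2 : ℝ) ^ B + 98))
  refine ⟨max (max N₀ N₁) (max N₂ 7), fun N hN z hz1 hz2 m hm a ha => ?_⟩
  have b0 : N₀ ≤ N := ((le_max_left _ _).trans (le_max_left _ _)).trans hN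
  have b1 : N₁ ≤ N := ((le_max_right _ _).trans (le_max_left _ _)).trans hN
  have b2 : N₂ ≤ N := ((le_max_left _ _).trans (le_max_right _ _)).trans hN
  have b3 : 7 ≤ N := ((le_max_right _ _).trans (le_max_right _ _)).trans hN
  have hL := hN₂ N b2
  have hNr : (7 : ℝ) ≤ N := by exact_mod_cast b3
  have hN0 : (0 : ℝ) < N := by linarith
  set L := Real.log (N : ℝ) with hLd
  have hB2 : (0 : ℝ) < 2 ^ B := by positivity
  have hL98 : 98 ≤ L := by linarith
  set L' := Real.log ((7 * N : ℕ) : ℝ) with hL'd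
  have hL'1 : L ≤ L' := by
    rw [hLd, hL'd]
    apply Real.log_le_log hN0
    push_cast
    linarith
  have hL'2 : L' ≤ 2 * L := by
    rw [hL'd]
    push_cast
    rw [Real.log_mul (by norm_num) hN0.ne']
    have : Real.log 7 ≤ Real.log N := Real.log_le_log (by norm_num) hNr
    linarith
  have hL'0 : 0 < L' := by linarith
  have hz1' : L' ^ B ≤ z := by
    calc L' ^ B ≤ (2 * L) ^ B := pow_le_pow_left₀ hL'0.le hL'2 B
      _ = 2 ^ B * L ^ B := by rw [mul_pow]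
      _ ≤ L * L ^ B := by
        have : 0 ≤ L ^ B := by positivity
        nlinarith
      _ = L ^ (B + 1) := by ring
      _ ≤ z := hz1
  have hz2' : (z : ℝ) ≤ L' ^ K := hz2.trans (pow_le_pow_left₀ (by linarith) hL'1 K)
  have hz0 : 1 ≤ z := by
    have h1 : (1 : ℝ) ≤ L ^ (B + 1) := one_le_pow₀ (by linarith)
    exact_mod_cast h1.trans hz1
  have hVz := h1 N b1 z hz0 hz2
  rw [← hLd] at hVz
  have key := h0 (7 * N) (by omega) z hz1' hz2'
  rw [← hL'd] at key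
  -- the bounds for the weights
  have wm : ∀ x, |xt N m x| ≤ L' ^ 2 := by
    intro x
    refine (xt_abs N m (L ^ 2) (by positivity) hm x).trans ?_
    exact pow_le_pow_left₀ (by linarith) hL'1 2
  have hLL : L' ≤ L' ^ 2 := by nlinarith
  have wL : ∀ x, |xt (7 * N) La x| ≤ L' ^ 2 := by
    intro x
    refine (xt_abs (7 * N) La L' hL'0.le ?_ x).trans hLL
    intro n hn
    rw [mem_Icc] at hn
    unfold La
    rw [abs_of_nonneg ArithmeticFunction.vonMangoldt_nonneg]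
    refine ArithmeticFunction.vonMangoldt_le_log.trans ?_
    exact Real.log_le_log (by exact_mod_cast hn.1) (by exact_mod_cast hn.2)
  have wl : ∀ x, |xt (7 * N) (lamz z) x| ≤ L' ^ 2 := by
    intro x
    refine (xt_abs (7 * N) (lamz z) L' hL'0.le ?_ x).trans hLL
    intro n _
    rw [abs_of_nonneg (lamz_nonneg z n)]
    exact (lamz_le_inv z n).trans (hVz.trans hL'1)
  have zm : ∀ x : ℤ, x ∉ Icc (-((7 * N : ℕ) : ℤ)) ((7 * N : ℕ) : ℤ) → xt N m x = 0 := by
    intro x hx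
    rw [mem_Icc] at hx
    push_cast at hx
    exact xt_out N m x (by omega)
  have zf : ∀ (f : ℕ → ℝ) (x : ℤ), x ∉ Icc (-((7 * N : ℕ) : ℤ)) ((7 * N : ℕ) : ℤ) → xt (7 * N) f x = 0 := by
    intro f x hx
    rw [mem_Icc] at hx
    exact xt_out (7 * N) f x (by omega)
  have hcop : IsCoprime (1 : ℤ) (-1) := isCoprime_one_left
  have hfin : ((7 * N : ℕ) : ℝ) ^ 2 / L' ^ (U + 1) ≤ (1 / 2) * ((N : ℝ) ^ 2 / L ^ U) := by
    push_cast
    calc (7 * (N : ℝ)) ^ 2 / L' ^ (U + 1) ≤ (7 * (N : ℝ)) ^ 2 / L ^ (U + 1) := by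
          apply div_le_div_of_nonneg_left (by positivity) (by positivity)
          exact pow_le_pow_left₀ (by linarith) hL'1 _
      _ = (49 / L) * (N ^ 2 / L ^ U) := by rw [pow_succ]; field_simp; ring
      _ ≤ (1 / 2) * ((N : ℝ) ^ 2 / L ^ U) := by
          apply mul_le_mul_of_nonneg_right _ (by positivity)
          rw [div_le_div_iff₀ (by linarith) (by norm_num)]
          linarith
  -- signs
  have hsign : ∀ J : ℕ → ℝ, ∃ ε : ℕ → ℝ, (∀ h, |ε h| ≤ 1) ∧ ∀ h, |J h| = ε h * J h := by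
    intro J
    refine ⟨fun h => if 0 ≤ J h then 1 else -1, ?_, ?_⟩
    · intro h
      simp only
      split_ifs <;> simp
    · intro h
      simp only
      split_ifs with h1
      · rw [abs_of_nonneg h1, one_mul]
      · rw [abs_of_neg (not_le.1 h1)]; ring
  obtain ⟨ε, hε1, hε2⟩ := hsign (fun h => ∑ n ∈ Icc 1 N, m n * (La (n + a * h) * La (n + 6 * h) -
      lamz z (n + a * h) * lamz z (n + 6 * h)))
  rw [sum_congr rfl fun h _ => hε2 h]
  have hsplit : ∑ h ∈ Icc 1 N, ε h * ∑ n ∈ Icc 1 N, m n * (La (n + a * h) * La (n + 6 * h) -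
      lamz z (n + a * h) * lamz z (n + 6 * h)) =
      (∑ h ∈ Icc 1 N, ε h * ∑ n ∈ Icc 1 N, m n * (dz z (n + a * h) * La (n + 6 * h))) +
      ∑ h ∈ Icc 1 N, ε h * ∑ n ∈ Icc 1 N, m n * (lamz z (n + a * h) * dz z (n + 6 * h)) := by
    rw [← sum_add_distrib]
    refine sum_congr rfl fun h _ => ?_
    rw [← mul_add, ← sum_add_distrib]
    congr 1
    refine sum_congr rfl fun n _ => ?_
    unfold dz La
    ring
  rw [hsplit]
  rcases ha with rfl | rfl
  · rw [← form13 N m (dz z) La ε, ← form13 N m (lamz z) (dz z) ε]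
    have t1 := (key 3 (-2) 0 1 (-1) (by norm_num) (by norm_num) hcop (by norm_num) (xt N m) (xt (7 * N) La) (sg N ε)
      wm wL (sg_abs N ε hε1) zm (zf La)).1 (by norm_num)
    have t2 := (key 3 (-2) 0 1 (-1) (by norm_num) (by norm_num) hcop (by norm_num) (xt (7 * N) (lamz z)) (xt N m) (sg N ε)
      wl wm (sg_abs N ε hε1) (zf (lamz z)) zm).2.2 (by norm_num)
    have t3 := le_abs_self (T4 (7 * N) 3 (-2) 0 1 (-1) (xt (7 * N) (dz z)) (xt N m) (xt (7 * N) La) (sg N ε))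
    have t4 := le_abs_self (T4 (7 * N) 3 (-2) 0 1 (-1) (xt (7 * N) (lamz z)) (xt N m) (xt (7 * N) (dz z)) (sg N ε))
    linarith
  · rw [← form23 N m (dz z) La ε, ← form23 N m (lamz z) (dz z) ε]
    have t1 := (key (-2) 3 0 1 (-1) (by norm_num) (by norm_num) hcop (by norm_num) (xt (7 * N) La) (xt N m) (sg N ε)
      wL wm (sg_abs N ε hε1) (zf La) zm).2.1 (by norm_num)
    have t2 := (key (-2) 3 0 1 (-1) (by norm_num) (by norm_num) hcop (by norm_num) (xt (7 * N) (lamz z)) (xt N m) (sg N ε)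
      wl wm (sg_abs N ε hε1) (zf (lamz z)) zm).1 (by norm_num)
    have t3 := le_abs_self (T4 (7 * N) (-2) 3 0 1 (-1) (xt (7 * N) La) (xt (7 * N) (dz z)) (xt N m) (sg N ε))
    have t4 := le_abs_self (T4 (7 * N) (-2) 3 0 1 (-1) (xt (7 * N) (dz z)) (xt (7 * N) (lamz z)) (xt N m) (sg N ε))
    linarith

end Pool.Agent.E8helper28.LN
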