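import Pool.Agent.E8helper28.LN.Avg2
import Pool.Agent.H373R2.T7.BilLam

set_option autoImplicit false

/-!
# The forms `n, 2 n + t, 4 n + 3 t` with arbitrary weights at `n` (helper28)
-/

namespace Pool.Agent.E8helper28.LN

open Finset
open Pool.Agent.E8helper81.GB (xt xt_out xt_in xt_abs lamz_le_inv)
open Pool.Agent.E8helper66.GB (FF DD S_U3)
open Pool.Agent.H373R2.T7 (lamz pz Vz Vz_pos lamz_nonneg mem_pz Vz_inv_small lamI lamzI)

/-- a weight on `(N, 2 N]` -/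
noncomputable def gN (N : ℕ) (m : ℕ → ℝ) (x : ℤ) : ℝ := if (N : ℤ) < x ∧ x ≤ 2 * N then m x.toNat else 0

/-- a weight on `[-N, N]` -/
noncomputable def eN (N : ℕ) (ε : ℤ → ℝ) (d : ℤ) : ℝ := if d ∈ Icc (-(N : ℤ)) N then ε d else 0

lemma gN_sum (N : ℕ) (m : ℕ → ℝ) (Φ : ℤ → ℝ) :
    ∑ y ∈ Icc (-((11 * N : ℕ) : ℤ)) ((11 * N : ℕ) : ℤ), gN N m y * Φ y = ∑ n ∈ Ioc N (2 * N), m n * Φ n := by
  have e1 : ∑ y ∈ Icc (-((11 * N : ℕ) : ℤ)) ((11 * N : ℕ) : ℤ), gN N m y * Φ y = ∑ y ∈ Ioc (N : ℤ) (2 * N), gN N m y * Φ y := by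
    symm
    refine sum_subset ?_ ?_
    · intro y hy
      rw [mem_Ioc] at hy
      rw [mem_Icc]
      push_cast
      omega
    · intro y _ hy
      rw [mem_Ioc] at hy
      unfold gN
      rw [if_neg hy, zero_mul]
  rw [e1]
  symm
  refine sum_nbij' (fun n => (n : ℤ)) (fun y => y.toNat) ?_ ?_ ?_ ?_ ?_
  · intro n hn; simp only [mem_Ioc] at hn ⊢; omega
  · intro y hy; simp only [mem_Ioc] at hy ⊢; omega
  · intro n hn; simp
  · intro y hy; simp only [mem_Ioc] at hy; omega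
  · intro n hn
    rw [mem_Ioc] at hn
    unfold gN
    rw [if_pos (by omega), Int.toNat_natCast]

lemma eN_sum (N : ℕ) (ε : ℤ → ℝ) (Φ : ℤ → ℝ) (n : ℕ) (hn : n ∈ Ioc N (2 * N)) :
    ∑ x ∈ Icc (-((11 * N : ℕ) : ℤ)) ((11 * N : ℕ) : ℤ), Φ x * eN N ε (x - 2 * n) =
      ∑ t ∈ Icc (-(N : ℤ)) N, Φ (2 * n + t) * ε t := by
  rw [mem_Ioc] at hn
  have e1 : ∑ x ∈ Icc (-((11 * N : ℕ) : ℤ)) ((11 * N : ℕ) : ℤ), Φ x * eN N ε (x - 2 * n) =
      ∑ x ∈ Icc (2 * (n : ℤ) - N) (2 * n + N), Φ x * eN N ε (x - 2 * n) := by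
    symm
    refine sum_subset ?_ ?_
    · intro x hx
      rw [mem_Icc] at hx ⊢
      push_cast
      omega
    · intro x _ hx
      rw [mem_Icc] at hx
      unfold eN
      rw [if_neg (by rw [mem_Icc]; omega), mul_zero]
  rw [e1]
  symm
  refine sum_nbij' (fun t => 2 * (n : ℤ) + t) (fun x => x - 2 * n) ?_ ?_ ?_ ?_ ?_
  · intro t ht; simp only [mem_Icc] at ht ⊢; omega
  · intro x hx; simp only [mem_Icc] at hx ⊢; omega
  · intro t _; ring
  · intro x _; ring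
  · intro t ht
    unfold eN
    rw [if_pos (by rw [mem_Icc] at ht ⊢; omega), show 2 * (n : ℤ) + t - 2 * n = t by ring]

lemma formCh (N : ℕ) (m f k : ℕ → ℝ) (ε : ℤ → ℝ) :
    T4 (11 * N) 3 (-2) 0 1 (-2) (xt (11 * N) f) (gN N m) (xt (11 * N) k) (eN N ε) =
      ∑ t ∈ Icc (-(N : ℤ)) N, ε t * ∑ n ∈ Ioc N (2 * N), m n * (xt (11 * N) f (2 * n + t) * xt (11 * N) k (4 * n + 3 * t)) := by
  unfold T4
  rw [sum_comm]
  have e1 : ∀ y ∈ Icc (-((11 * N : ℕ) : ℤ)) ((11 * N : ℕ) : ℤ), ∑ x ∈ Icc (-((11 * N : ℕ) : ℤ)) ((11 * N : ℕ) : ℤ),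
      xt (11 * N) f x * gN N m y * xt (11 * N) k (3 * x + (-2) * y + 0) * eN N ε (1 * x + (-2) * y) =
      gN N m y * (fun y => ∑ x ∈ Icc (-((11 * N : ℕ) : ℤ)) ((11 * N : ℕ) : ℤ),
      (xt (11 * N) f x * xt (11 * N) k (3 * x + (-2) * y + 0)) * eN N ε (x - 2 * y)) y := by
    intro y _
    simp only
    rw [mul_sum]
    refine sum_congr rfl fun x _ => ?_
    rw [show 1 * x + -2 * y = x - 2 * y by ring]
    ring
  rw [sum_congr rfl e1, gN_sum]
  have e2 : ∀ n ∈ Ioc N (2 * N), m n * (fun y : ℤ => ∑ x ∈ Icc (-((11 * N : ℕ) : ℤ)) ((11 * N : ℕ) : ℤ),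
      (xt (11 * N) f x * xt (11 * N) k (3 * x + (-2) * y + 0)) * eN N ε (x - 2 * y)) (n : ℤ) =
      ∑ t ∈ Icc (-(N : ℤ)) N, ε t * (m n * (xt (11 * N) f (2 * n + t) * xt (11 * N) k (4 * n + 3 * t))) := by
    intro n hn
    simp only
    rw [eN_sum N ε (fun x => xt (11 * N) f x * xt (11 * N) k (3 * x + (-2) * (n : ℤ) + 0)) n hn, mul_sum]
    refine sum_congr rfl fun t _ => ?_
    rw [show 3 * (2 * (n : ℤ) + t) + (-2) * (n : ℤ) + 0 = 4 * n + 3 * t by ring]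
    ring
  rw [sum_congr rfl e2, sum_comm]
  refine sum_congr rfl fun t _ => ?_
  rw [mul_sum]

/-- the average over the shifts `t` -/
theorem avgCh (hU3 : S_U3) (U : ℕ) : ∃ B : ℕ, ∀ K : ℕ, ∃ N₀ : ℕ, ∀ N : ℕ, N₀ ≤ N → ∀ z : ℕ, Real.log N ^ B ≤ z →
    (z : ℝ) ≤ Real.log N ^ K → ∀ (m : ℕ → ℝ), (∀ n, |m n| ≤ Real.log N ^ 2) →
    ∑ t ∈ Icc (-(N : ℤ)) N, |∑ n ∈ Ioc N (2 * N), m n * (lamI (2 * n + t) * lamI (4 * n + 3 * t) -
      lamzI z (2 * n + t) * lamzI z (4 * n + 3 * t))| ≤ (N : ℝ) ^ 2 / Real.log N ^ U := by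
  obtain ⟨B, hB⟩ := T4_small hU3 (U + 1)
  refine ⟨B + 1, fun K => ?_⟩
  obtain ⟨N₀, h0⟩ := hB K
  obtain ⟨N₁, h1⟩ := Vz_inv_small K
  have hlim : Filter.Tendsto (fun N : ℕ => Real.log (N : ℝ)) Filter.atTop Filter.atTop :=
    Real.tendsto_log_atTop.comp (tendsto_natCast_atTop_atTop (R := ℝ))
  obtain ⟨N₂, hN₂⟩ := Filter.eventually_atTop.1 (hlim.eventually_ge_atTop ((2 : ℝ) ^ B + 242))
  refine ⟨max (max N₀ N₁) (max N₂ 11), fun N hN z hz1 hz2 m hm => ?_⟩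
  have b0 : N₀ ≤ N := ((le_max_left _ _).trans (le_max_left _ _)).trans hN
  have b1 : N₁ ≤ N := ((le_max_right _ _).trans (le_max_left _ _)).trans hN
  have b2 : N₂ ≤ N := ((le_max_left _ _).trans (le_max_right _ _)).trans hN
  have b3 : 11 ≤ N := ((le_max_right _ _).trans (le_max_right _ _)).trans hN
  have hL := hN₂ N b2
  have hNr : (11 : ℝ) ≤ N := by exact_mod_cast b3
  have hN0 : (0 : ℝ) < N := by linarith
  set L := Real.log (N : ℝ) with hLd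
  have hB2 : (0 : ℝ) < 2 ^ B := by positivity
  have hL98 : 242 ≤ L := by linarith
  set L' := Real.log ((11 * N : ℕ) : ℝ) with hL'd
  have hL'1 : L ≤ L' := by
    rw [hLd, hL'd]
    apply Real.log_le_log hN0
    push_cast
    linarith
  have hL'2 : L' ≤ 2 * L := by
    rw [hL'd]
    push_cast
    rw [Real.log_mul (by norm_num) hN0.ne']
    have : Real.log 11 ≤ Real.log N := Real.log_le_log (by norm_num) hNr
    linarith
  have hL'0 : 0 < L' := by linarith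
  have hz1' : L' ^ B ≤ z := by
    calc L' ^ B ≤ (2 * L) ^ B := pow_le_pow_left₀ hL'0.le hL'2 B
      _ = 2 ^ B * L ^ B := by rw [mul_pow]
      _ ≤ L * L ^ B := by
        have : 0 ≤ L ^ B := by positivity
        nlinarith
      _ = L ^ (B + 1) := by ring
      _ ≤ z := hz1
  have hz2' : (z : ℝ) ≤ L' ^ K := hz2.trans (pow_le_pow_left₀ (by linarith) hL'1 K)
  have hz0 : 1 ≤ z := by
    have h1 : (1 : ℝ) ≤ L ^ (B + 1) := one_le_pow₀ (by linarith)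
    exact_mod_cast h1.trans hz1
  have hVz := h1 N b1 z hz0 hz2
  rw [← hLd] at hVz
  have key := h0 (11 * N) (by omega) z hz1' hz2'
  rw [← hL'd] at key
  have wm : ∀ x, |gN N m x| ≤ L' ^ 2 := by
    intro x
    unfold gN
    split_ifs
    · exact (hm _).trans (pow_le_pow_left₀ (by linarith) hL'1 2)
    · simp; positivity
  have hLL : L' ≤ L' ^ 2 := by nlinarith
  have wL : ∀ x, |xt (11 * N) La x| ≤ L' ^ 2 := by
    intro x
    refine (xt_abs (11 * N) La L' hL'0.le ?_ x).trans hLL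
    intro n hn
    rw [mem_Icc] at hn
    unfold La
    rw [abs_of_nonneg ArithmeticFunction.vonMangoldt_nonneg]
    refine ArithmeticFunction.vonMangoldt_le_log.trans ?_
    exact Real.log_le_log (by exact_mod_cast hn.1) (by exact_mod_cast hn.2)
  have wl : ∀ x, |xt (11 * N) (lamz z) x| ≤ L' ^ 2 := by
    intro x
    refine (xt_abs (11 * N) (lamz z) L' hL'0.le ?_ x).trans hLL
    intro n _
    rw [abs_of_nonneg (lamz_nonneg z n)]
    exact (lamz_le_inv z n).trans (hVz.trans hL'1)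
  have zm : ∀ x : ℤ, x ∉ Icc (-((11 * N : ℕ) : ℤ)) ((11 * N : ℕ) : ℤ) → gN N m x = 0 := by
    intro x hx
    rw [mem_Icc] at hx
    push_cast at hx
    unfold gN
    rw [if_neg (by omega)]
  have zf : ∀ (f : ℕ → ℝ) (x : ℤ), x ∉ Icc (-((11 * N : ℕ) : ℤ)) ((11 * N : ℕ) : ℤ) → xt (11 * N) f x = 0 := by
    intro f x hx
    rw [mem_Icc] at hx
    exact xt_out (11 * N) f x (by omega)
  have hcop : IsCoprime (1 : ℤ) (-2) := isCoprime_one_left
  have hfin : ((11 * N : ℕ) : ℝ) ^ 2 / L' ^ (U + 1) ≤ (1 / 2) * ((N : ℝ) ^ 2 / L ^ U) := by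
    push_cast
    calc (11 * (N : ℝ)) ^ 2 / L' ^ (U + 1) ≤ (11 * (N : ℝ)) ^ 2 / L ^ (U + 1) := by
          apply div_le_div_of_nonneg_left (by positivity) (by positivity)
          exact pow_le_pow_left₀ (by linarith) hL'1 _
      _ = (121 / L) * (N ^ 2 / L ^ U) := by rw [pow_succ]; field_simp; ring
      _ ≤ (1 / 2) * ((N : ℝ) ^ 2 / L ^ U) := by
          apply mul_le_mul_of_nonneg_right _ (by positivity)
          rw [div_le_div_iff₀ (by linarith) (by norm_num)]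
          linarith
  have hsign : ∀ J : ℤ → ℝ, ∃ ε : ℤ → ℝ, (∀ h, |ε h| ≤ 1) ∧ ∀ h, |J h| = ε h * J h := by
    intro J
    refine ⟨fun h => if 0 ≤ J h then 1 else -1, ?_, ?_⟩
    · intro h
      simp only
      split_ifs <;> simp
    · intro h
      simp only
      split_ifs with h1
      · rw [abs_of_nonneg h1, one_mul]
      · rw [abs_of_neg (not_le.1 h1)]; ring
  -- from the integers to the extensions by zero
  have hext : ∀ t ∈ Icc (-(N : ℤ)) N, ∑ n ∈ Ioc N (2 * N), m n * (lamI (2 * n + t) * lamI (4 * n + 3 * t) -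
      lamzI z (2 * n + t) * lamzI z (4 * n + 3 * t)) =
      ∑ n ∈ Ioc N (2 * N), m n * (xt (11 * N) (dz z) (2 * n + t) * xt (11 * N) La (4 * n + 3 * t)) +
      ∑ n ∈ Ioc N (2 * N), m n * (xt (11 * N) (lamz z) (2 * n + t) * xt (11 * N) (dz z) (4 * n + 3 * t)) := by
    intro t ht
    rw [mem_Icc] at ht
    rw [← sum_add_distrib]
    refine sum_congr rfl fun n hn => ?_
    rw [mem_Ioc] at hn
    have c1 : 1 ≤ 2 * (n : ℤ) + t ∧ 2 * (n : ℤ) + t ≤ ((11 * N : ℕ) : ℤ) := by push_cast; omega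
    have c2 : 1 ≤ 4 * (n : ℤ) + 3 * t ∧ 4 * (n : ℤ) + 3 * t ≤ ((11 * N : ℕ) : ℤ) := by push_cast; omega
    unfold lamI lamzI xt
    rw [if_pos c1.1, if_pos c2.1, if_pos c1.1, if_pos c2.1, if_pos c1, if_pos c2, if_pos c1, if_pos c2]
    unfold dz La
    ring
  rw [sum_congr rfl fun t ht => by rw [hext t ht]]
  obtain ⟨ε, hε1, hε2⟩ := hsign (fun t => ∑ n ∈ Ioc N (2 * N), m n * (xt (11 * N) (dz z) (2 * n + t) * xt (11 * N) La (4 * n + 3 * t)) +
      ∑ n ∈ Ioc N (2 * N), m n * (xt (11 * N) (lamz z) (2 * n + t) * xt (11 * N) (dz z) (4 * n + 3 * t)))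
  rw [sum_congr rfl fun t _ => hε2 t]
  simp only [mul_add]
  rw [sum_add_distrib, ← formCh N m (dz z) La ε, ← formCh N m (lamz z) (dz z) ε]
  have wε : ∀ x, |eN N ε x| ≤ 1 := by
    intro x
    unfold eN
    split_ifs
    · exact hε1 x
    · simp
  have t1 := (key 3 (-2) 0 1 (-2) (by norm_num) (by norm_num) hcop (by norm_num) (gN N m) (xt (11 * N) La) (eN N ε)
    wm wL wε zm (zf La)).1 (by norm_num)
  have t2 := (key 3 (-2) 0 1 (-2) (by norm_num) (by norm_num) hcop (by norm_num) (xt (11 * N) (lamz z)) (gN N m) (eN N ε)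
    wl wm wε (zf (lamz z)) zm).2.2 (by norm_num)
  have t3 := le_abs_self (T4 (11 * N) 3 (-2) 0 1 (-2) (xt (11 * N) (dz z)) (gN N m) (xt (11 * N) La) (eN N ε))
  have t4 := le_abs_self (T4 (11 * N) 3 (-2) 0 1 (-2) (xt (11 * N) (lamz z)) (gN N m) (xt (11 * N) (dz z)) (eN N ε))
  linarith

end Pool.Agent.E8helper28.LN
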