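import Pool.Agent.E8helper28.LN.Main

set_option autoImplicit false
set_option maxHeartbeats 4000000

/-!
# The forms `n, 2 n + t, 4 n + 3 t`: prime powers and the local densities (helper28)
-/

namespace Pool.Agent.E8helper28.LN

open Finset Pool.Agent.H373R2.T7 Pool.Agent.H560R3.GB

/-- the contribution of proper prime powers in a list of distinct integers -/
lemma pp_inj (S : Finset ℕ) (X : ℕ) (φ : ℕ → ℤ) (hφ : ∀ n ∈ S, ∀ m ∈ S, φ n = φ m → n = m) (hX : 1 ≤ X)
    (h : ∀ n ∈ S, φ n ≤ X) : ∑ n ∈ S, (lamI (φ n) - lamP (φ n)) ≤ 2 * √(X : ℝ) * Real.log X := by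
  classical
  have h0 := Chebyshev.psi_sub_theta_le (x := (X : ℝ)) (by exact_mod_cast hX)
  rw [Chebyshev.psi_sub_theta_eq_sum_not_prime, Nat.floor_natCast] at h0
  refine le_trans ?_ h0
  have h1 : ∀ n ∈ S, lamI (φ n) - lamP (φ n) =
      if 1 ≤ φ n ∧ ¬ (φ n).toNat.Prime then ArithmeticFunction.vonMangoldt (φ n).toNat else 0 := by
    intro n _
    unfold lamI lamP
    by_cases h2 : 1 ≤ φ n
    · by_cases h3 : ((φ n).toNat).Prime
      · rw [if_pos h2, if_pos h3, if_neg (fun h => h.2 h3), ArithmeticFunction.vonMangoldt_apply_prime h3, sub_self]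
      · rw [if_pos h2, if_neg h3, if_pos ⟨h2, h3⟩, sub_zero]
    · have h3 : ¬ ((φ n).toNat).Prime := by
        have : (φ n).toNat = 0 := by omega
        rw [this]; exact Nat.not_prime_zero
      rw [if_neg h2, if_neg h3, if_neg (fun h => h2 h.1), sub_self]
  rw [sum_congr rfl h1, ← sum_filter]
  have h2 : ∑ n ∈ S.filter (fun n : ℕ => 1 ≤ φ n ∧ ¬ (φ n).toNat.Prime), ArithmeticFunction.vonMangoldt (φ n).toNat =
      ∑ j ∈ (S.filter (fun n : ℕ => 1 ≤ φ n ∧ ¬ (φ n).toNat.Prime)).image (fun n : ℕ => (φ n).toNat),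
      ArithmeticFunction.vonMangoldt j := by
    rw [sum_image]
    intro n hn m hm hnm
    rw [mem_coe, mem_filter] at hn hm
    simp only at hnm
    refine hφ n hn.1 m hm.1 ?_
    omega
  rw [h2]
  apply sum_le_sum_of_subset_of_nonneg
  · intro j hj
    rw [mem_image] at hj
    obtain ⟨n, hn, rfl⟩ := hj
    rw [mem_filter] at hn
    have h3 := h n hn.1
    rw [mem_filter, mem_Ioc]
    exact ⟨⟨by omega, by omega⟩, hn.2.2⟩
  · intro j _ _
    exact ArithmeticFunction.vonMangoldt_nonneg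

/-- the odd primorial -/
def Po (z : ℕ) : ℕ := ∏ p ∈ (pz z).filter (fun p => p ≠ 2), p

lemma Po_odd (z : ℕ) : Odd (Po z) := by
  unfold Po
  refine Finset.prod_induction (fun p => p) Odd (fun a b ha hb => ha.mul hb) odd_one ?_
  intro p hp
  rw [mem_filter, mem_pz] at hp
  exact hp.1.2.odd_of_ne_two hp.2

/-- an inverse of eight modulo the odd primorial -/
lemma inv8 (z : ℕ) : ∃ c : ℤ, ∀ p ∈ pz z, p ≠ 2 → (p : ℤ) ∣ 8 * c - 1 := by
  obtain ⟨k, hk⟩ := Po_odd z
  have h1 : ∃ c : ℤ, 8 * c = 1 - (Po z : ℤ) ^ 2 := by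
    rcases Nat.even_or_odd' k with ⟨j, hj | hj⟩
    · refine ⟨-(2 * j ^ 2 + j), ?_⟩
      rw [hk, hj]
      push_cast
      ring
    · refine ⟨-(2 * j ^ 2 + 3 * j + 1), ?_⟩
      rw [hk, hj]
      push_cast
      ring
  obtain ⟨c, hc⟩ := h1
  refine ⟨c, fun p hp hp2 => ?_⟩
  have h2 : (p : ℤ) ∣ (Po z : ℤ) := by
    have : p ∣ Po z := dvd_prod_of_mem _ (mem_filter.2 ⟨hp, hp2⟩)
    exact_mod_cast this
  have h3 : 8 * c - 1 = -((Po z : ℤ) ^ 2) := by linarith
  rw [h3, dvd_neg]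
  exact dvd_pow h2 (by norm_num)

/-- the values of `ν(p)` for the shifts `4 H, 6 H` -/
lemma nu_int (p : ℕ) (hp : p.Prime) (H : ℤ) :
    nuP (![4 * H, 6 * H] : Fin 2 → ℤ) p = if p = 2 then 1 else if p = 3 then (if (3 : ℤ) ∣ H then 1 else 2) else
      (if (p : ℤ) ∣ H then 1 else 3) := by
  have hp0 := hp.pos
  rw [nuP_two p hp0]
  have e0 : (![4 * H, 6 * H] : Fin 2 → ℤ) 0 = 4 * H := rfl
  have e1 : (![4 * H, 6 * H] : Fin 2 → ℤ) 1 = 6 * H := rfl
  rw [e0, e1]
  have hpr : Prime (p : ℤ) := Nat.prime_iff_prime_int.1 hp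
  have c1 : ng p 0 = ng p (4 * H) ↔ (p : ℤ) ∣ 4 * H := by
    rw [ng_eq p hp0, show (0 : ℤ) - 4 * H = -(4 * H) by ring, dvd_neg]
  have c2 : ng p 0 = ng p (6 * H) ↔ (p : ℤ) ∣ 6 * H := by
    rw [ng_eq p hp0, show (0 : ℤ) - 6 * H = -(6 * H) by ring, dvd_neg]
  have c3 : ng p (4 * H) = ng p (6 * H) ↔ (p : ℤ) ∣ 2 * H := by
    rw [ng_eq p hp0, show 4 * H - 6 * H = -(2 * H) by ring, dvd_neg]
  have hne : ∀ q : ℕ, q.Prime → p ≠ q → ¬ (p : ℤ) ∣ (q : ℤ) := by
    intro q hq hpq h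
    exact hpq ((Nat.prime_dvd_prime_iff_eq hp hq).1 (by exact_mod_cast h))
  by_cases h2 : p = 2
  · subst h2
    rw [if_pos rfl]
    have q1 : ng 2 0 = ng 2 (4 * H) := by
      rw [c1]
      exact ⟨2 * H, by push_cast; ring⟩
    have q2 : ng 2 0 = ng 2 (6 * H) := by
      rw [c2]
      exact ⟨3 * H, by push_cast; ring⟩
    rw [← q1, ← q2]
    simp
  · rw [if_neg h2]
    have n2 : ¬ (p : ℤ) ∣ 2 := by exact_mod_cast hne 2 Nat.prime_two h2
    have n4 : ¬ (p : ℤ) ∣ 4 := by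
      intro h
      have : (p : ℤ) ∣ 2 * 2 := by simpa using h
      rcases hpr.dvd_or_dvd this with h | h <;> exact n2 h
    have d1 : (p : ℤ) ∣ 4 * H ↔ (p : ℤ) ∣ H := ⟨fun h => (hpr.dvd_or_dvd h).resolve_left n4, fun h => Dvd.dvd.mul_left h _⟩
    have d3 : (p : ℤ) ∣ 2 * H ↔ (p : ℤ) ∣ H := ⟨fun h => (hpr.dvd_or_dvd h).resolve_left n2, fun h => Dvd.dvd.mul_left h _⟩
    by_cases hph : (p : ℤ) ∣ H
    · have q1 : ng p 0 = ng p (4 * H) := c1.2 (d1.2 hph)
      have q2 : ng p 0 = ng p (6 * H) := c2.2 (Dvd.dvd.mul_left hph _)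
      rw [← q1, ← q2]
      by_cases h3 : p = 3
      · subst h3
        have hph' : (3 : ℤ) ∣ H := hph
        rw [if_pos rfl, if_pos hph']; simp
      · rw [if_neg h3, if_pos hph]; simp
    · have q1 : ¬ ng p 0 = ng p (4 * H) := fun h => hph (d1.1 (c1.1 h))
      have q3 : ¬ ng p (4 * H) = ng p (6 * H) := fun h => hph (d3.1 (c3.1 h))
      by_cases h3 : p = 3
      · subst h3
        have hph' : ¬ (3 : ℤ) ∣ H := hph
        rw [if_pos rfl, if_neg hph']
        have q2 : ng 3 0 = ng 3 (6 * H) := c2.2 ⟨2 * H, by push_cast; ring⟩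
        rw [← q2, card_insert_of_mem (by simp), card_pair (fun h => q1 h.symm)]
      · rw [if_neg h3, if_neg hph]
        have n3 : ¬ (p : ℤ) ∣ 3 := by exact_mod_cast hne 3 Nat.prime_three h3
        have q2 : ¬ ng p 0 = ng p (6 * H) := by
          intro hq
          have h4 := c2.1 hq
          have h5 : (p : ℤ) ∣ 2 * (3 * H) := by
            rw [show (2 : ℤ) * (3 * H) = 6 * H by ring]; exact h4
          rcases hpr.dvd_or_dvd h5 with h6 | h6
          · exact n2 h6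
          · rcases hpr.dvd_or_dvd h6 with h7 | h7
            · exact n3 h7
            · exact hph h7
        rw [card_insert_of_notMem, card_pair q3]
        rw [mem_insert, mem_singleton, not_or]
        exact ⟨q1, q2⟩

/-- the truncated singular series is the one of the pattern `0, 4 |t|, 6 |t|` -/
lemma sing_same (z : ℕ) (c t : ℤ) (hc : ∀ p ∈ pz z, p ≠ 2 → (p : ℤ) ∣ 8 * c - 1) :
    singZ (![4 * (c * t), 6 * (c * t)] : Fin 2 → ℤ) z = singZ (fun i => (sh 4 t.natAbs i : ℤ)) z := by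
  unfold singZ
  refine prod_congr rfl fun p hp => ?_
  have hp' : p ∈ pz z := hp
  rw [mem_filter, mem_Icc] at hp
  have hpr : Prime (p : ℤ) := Nat.prime_iff_prime_int.1 hp.2
  rw [nu_int p hp.2, nu_vals p hp.2 4 t.natAbs (Or.inr rfl)]
  by_cases h2 : p = 2
  · rw [if_pos h2, if_pos h2]
  · rw [if_neg h2, if_neg h2]
    have hd : (p : ℤ) ∣ c * t ↔ p ∣ t.natAbs := by
      rw [← Int.natCast_dvd]
      constructor
      · intro h
        refine (hpr.dvd_or_dvd h).resolve_left fun hcc => ?_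
        have h3 := hc p hp' h2
        have h4 : (p : ℤ) ∣ 1 := by
          have h5 := dvd_sub (Dvd.dvd.mul_left hcc 8) h3
          rwa [show 8 * c - (8 * c - 1) = (1 : ℤ) by ring] at h5
        have h6 := Int.eq_one_of_dvd_one (by positivity) h4
        have := hp.2.one_lt
        omega
      · intro h
        exact Dvd.dvd.mul_left h _
    by_cases h3 : p = 3
    · subst h3
      rw [if_pos rfl, if_pos rfl]
      have hd' : (3 : ℤ) ∣ c * t ↔ 3 ∣ t.natAbs := hd
      simp only [hd']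
    · rw [if_neg h3, if_neg h3]
      simp only [hd]

/-- divisibility of the forms -/
lemma form_dvd (z : ℕ) (c t : ℤ) (ht : Odd t) (hc : ∀ p ∈ pz z, p ≠ 2 → (p : ℤ) ∣ 8 * c - 1) (n : ℤ) (hn : Odd n) :
    ((∀ p ∈ pz z, ¬ (p : ℤ) ∣ 2 * n + t) ↔ ∀ p ∈ pz z, ¬ (p : ℤ) ∣ n + 4 * (c * t)) ∧
    ((∀ p ∈ pz z, ¬ (p : ℤ) ∣ 4 * n + 3 * t) ↔ ∀ p ∈ pz z, ¬ (p : ℤ) ∣ n + 6 * (c * t)) := by
  have hn2 : ¬ (2 : ℤ) ∣ n := by
    intro h
    exact (Int.not_even_iff_odd.2 hn) (even_iff_two_dvd.2 h)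
  have ht2 : ¬ (2 : ℤ) ∣ t := by
    intro h
    exact (Int.not_even_iff_odd.2 ht) (even_iff_two_dvd.2 h)
  have key : ∀ p ∈ pz z, ((p : ℤ) ∣ 2 * n + t ↔ (p : ℤ) ∣ n + 4 * (c * t)) ∧
      ((p : ℤ) ∣ 4 * n + 3 * t ↔ (p : ℤ) ∣ n + 6 * (c * t)) := by
    intro p hp
    have hpp := (mem_pz.1 hp).2
    have hpr : Prime (p : ℤ) := Nat.prime_iff_prime_int.1 hpp
    by_cases h2 : p = 2
    · subst h2
      push_cast
      constructor
      · constructor
        · intro h
          exact absurd ((Int.dvd_add_right (Dvd.intro _ rfl)).1 h) ht2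
        · intro h
          exact absurd ((Int.dvd_add_left ⟨2 * (c * t), by ring⟩).1 h) hn2
      · constructor
        · intro h
          have h3 : (2 : ℤ) ∣ 3 * t := (Int.dvd_add_right ⟨2 * n, by ring⟩).1 h
          exact absurd (by omega : (2 : ℤ) ∣ t) ht2
        · intro h
          exact absurd ((Int.dvd_add_left ⟨3 * (c * t), by ring⟩).1 h) hn2
    · have n2 : ¬ (p : ℤ) ∣ 2 := by
        intro h
        exact h2 ((Nat.prime_dvd_prime_iff_eq hpp Nat.prime_two).1 (by exact_mod_cast h))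
      have n4 : ¬ (p : ℤ) ∣ 4 := by
        intro h
        have : (p : ℤ) ∣ 2 * 2 := by simpa using h
        rcases hpr.dvd_or_dvd this with h | h <;> exact n2 h
      have h8 := hc p hp h2
      have e1 : 2 * (n + 4 * (c * t)) = (2 * n + t) + (8 * c - 1) * t := by ring
      have e2 : 4 * (n + 6 * (c * t)) = (4 * n + 3 * t) + (8 * c - 1) * (3 * t) := by ring
      constructor
      · constructor
        · intro h
          have h3 : (p : ℤ) ∣ 2 * (n + 4 * (c * t)) := by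
            rw [e1]; exact dvd_add h (Dvd.dvd.mul_right h8 _)
          exact (hpr.dvd_or_dvd h3).resolve_left n2
        · intro h
          have h3 : (p : ℤ) ∣ (2 * n + t) + (8 * c - 1) * t := by
            rw [← e1]; exact Dvd.dvd.mul_left h _
          exact (Int.dvd_add_left (Dvd.dvd.mul_right h8 _)).1 h3
      · constructor
        · intro h
          have h3 : (p : ℤ) ∣ 4 * (n + 6 * (c * t)) := by
            rw [e2]; exact dvd_add h (Dvd.dvd.mul_right h8 _)
          exact (hpr.dvd_or_dvd h3).resolve_left n4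
        · intro h
          have h3 : (p : ℤ) ∣ (4 * n + 3 * t) + (8 * c - 1) * (3 * t) := by
            rw [← e2]; exact Dvd.dvd.mul_left h _
          exact (Int.dvd_add_left (Dvd.dvd.mul_right h8 _)).1 h3
  constructor
  · constructor
    · intro h p hp hd
      exact h p hp ((key p hp).1.2 hd)
    · intro h p hp hd
      exact h p hp ((key p hp).1.1 hd)
  · constructor
    · intro h p hp hd
      exact h p hp ((key p hp).2.2 hd)
    · intro h p hp hd
      exact h p hp ((key p hp).2.1 hd)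

end Pool.Agent.E8helper28.LN
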