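import Pool.Agent.E8helper28.LN.Ch1
import Pool.Agent.E8helper28.LN.Ch2

set_option autoImplicit false
set_option maxHeartbeats 4000000

/-!
# The chains `p, 2 p + t, 4 p + 3 t` for almost all `t` (helper28)
-/

namespace Pool.Agent.E8helper28.LN

open Finset Pool.Agent.H373R2.T7 Pool.Agent.H560R3.GB
open Pool.Agent.E8helper66.GB (S_U3)

/-- the tail of the singular series -/
theorem tail_gen (k B U E1 : ℕ) (hE : U + k + 4 ≤ E1) : ∃ n0 : ℕ, ∀ N : ℕ, n0 ≤ N → ∀ a : Fin k → ℤ,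
    (∀ i, a i ≠ 0) → (∀ i j, i ≠ j → a i ≠ a j) → (∀ i, (a i).natAbs ≤ B * N) →
    ∃ S : ℝ, Filter.Tendsto (fun z => singZ a z) Filter.atTop (nhds S) ∧
      |S - singZ a ⌈Real.log N ^ E1⌉₊| ≤ 1 / Real.log N ^ (U + 2) := by
  obtain ⟨n2, h2⟩ := Vz_inv_small (E1 + 1)
  set c1 : ℕ := 1 + B with hc1
  set c2 : ℝ := (k + 1 : ℝ) ^ 2 + 4 * (k + 1) * ((k + k * k) * 8) with hc2
  obtain ⟨n5, h5⟩ := ev_L' (Real.log (2 * c1) + 4 * (k + k * k) + c2 + 3 * (k + 1) + 16)
  refine ⟨max n2 (max n5 3), fun N hN a ha1 ha2 hsB => ?_⟩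
  have b2 := le_trans (le_max_left _ _) hN
  have b5 := le_trans (le_trans (le_max_left _ _) (le_max_right _ _)) hN
  have hN3 : 3 ≤ N := le_trans (le_trans (le_max_right _ _) (le_max_right _ _)) hN
  have hNr : (3 : ℝ) ≤ N := by exact_mod_cast hN3
  have hN0' : (0 : ℝ) < N := by linarith
  have hL := h5 N b5
  set L := Real.log N with hLd
  have hc1r : (1 : ℝ) ≤ c1 := by rw [hc1]; push_cast; linarith [Nat.cast_nonneg (α := ℝ) B]
  have hk0 : (0 : ℝ) ≤ k := Nat.cast_nonneg _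
  have hlc1 : 0 ≤ Real.log (2 * c1) := Real.log_nonneg (by linarith)
  have hc20 : 0 < c2 := by positivity
  have hkD : 0 ≤ 4 * ((k : ℝ) + k * k) := by positivity
  have hL16 : 16 ≤ L := by nlinarith
  have hL1 : 1 ≤ L := by linarith
  have hL0 : 0 < L := by linarith
  have hLa : Real.log (2 * c1) ≤ L := by linarith
  have hLb : 4 * ((k : ℝ) + k * k) ≤ L := by linarith
  have hLc : c2 ≤ L := by linarith
  have hLd' : 3 * ((k : ℝ) + 1) ≤ L := by linarith
  set z : ℕ := ⌈L ^ E1⌉₊ with hz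
  have hz1 : L ^ E1 ≤ z := Nat.le_ceil _
  have hz2 : (z : ℝ) ≤ L ^ (E1 + 1) := by
    have h6 := (Nat.ceil_lt_add_one (show 0 ≤ L ^ E1 by positivity)).le
    have h7 : 1 ≤ L ^ E1 := one_le_pow₀ hL1
    rw [pow_succ]
    nlinarith
  have hz0 : (0 : ℝ) < z := lt_of_lt_of_le (by positivity) hz1
  have hzn : 1 ≤ z := by exact_mod_cast hz0
  have hV := h2 N b2 z hzn hz2
  obtain ⟨S, hS, hSb⟩ := sing_limit a ha1 ha2
  refine ⟨S, hS, ?_⟩
  have hsize : ∀ i, (a i).natAbs ≤ c1 * N := by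
    intro i
    have h6 := hsB i
    rw [hc1, add_mul]
    omega
  set Y := 2 * c1 * N with hY
  have hbad := card_badP a Y (fun i => (hsize i).trans (by rw [hY]; nlinarith [Nat.zero_le (c1 * N)])) (fun i j => by
    have h6 := Int.natAbs_sub_le (a i) (a j)
    have h7 := hsize i
    have h8 := hsize j
    rw [hY]
    calc (a i - a j).natAbs ≤ c1 * N + c1 * N := h6.trans (add_le_add h7 h8)
      _ = _ := by ring)
  have hY1 : 1 ≤ Y := by rw [hY, hc1]; nlinarith
  have hlogY : (Nat.log 2 Y : ℝ) ≤ 4 * L := by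
    refine (natlog_le Y hY1).trans ?_
    have h6 : (Y : ℝ) = (2 * c1) * N := by rw [hY]; push_cast; ring
    rw [h6, Real.log_mul (by positivity) hN0'.ne']
    linarith
  have hKc : Kc a ≤ c2 * L := by
    unfold Kc
    have h6 : ((badP a).card : ℝ) ≤ (k + k * k) * (4 * L) := by
      have h7 : ((badP a).card : ℝ) ≤ (k + k * k) * (Nat.log 2 Y : ℝ) := by exact_mod_cast hbad
      refine h7.trans ?_
      apply mul_le_mul_of_nonneg_left hlogY (by positivity)
    push_cast
    calc ((k : ℝ) + 1) ^ 2 + 4 * (k + 1) * ((badP a).card : ℝ) ≤ ((k : ℝ) + 1) ^ 2 * L + 4 * (k + 1) * ((k + k * k) * (4 * L)) := by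
          apply add_le_add
          · exact le_mul_of_one_le_right (by positivity) hL1
          · gcongr
      _ ≤ c2 * L := by
          rw [hc2]
          have : 0 ≤ 4 * ((k : ℝ) + 1) * ((k + k * k) * (4 * L)) := by positivity
          nlinarith
  have hKL : Kc a ≤ L ^ 2 := by nlinarith
  have hL2z : L ^ 2 ≤ z := (pow_le_pow_right₀ hL1 (by omega)).trans hz1
  have h3k : 3 * (k + 1) ≤ z := by
    have h6 : (3 * ((k : ℝ) + 1)) ≤ z := by
      have : L ≤ L ^ 2 := by nlinarith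
      linarith
    exact_mod_cast h6
  have hdiff := hSb z h3k (hKL.trans hL2z)
  have hsz := singZ_le a z L hV
  have hs0 := singZ_nonneg a z
  refine hdiff.trans ?_
  calc singZ a z * (Kc a / z) ≤ L ^ k * (L ^ 2 / L ^ E1) := by
        apply mul_le_mul hsz _ (by
          apply div_nonneg _ hz0.le
          unfold Kc; positivity) (by positivity)
        apply div_le_div₀ (by positivity) hKL (by positivity) hz1
    _ = L ^ (k + 2) / L ^ E1 := by rw [pow_add]; ring
    _ ≤ 1 / L ^ (U + 2) := by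
        rw [div_le_div_iff₀ (by positivity) (by positivity), one_mul, ← pow_add]
        exact pow_le_pow_right₀ hL1 (by omega)

/-- the tail for the dilates -/
theorem tail_sh (D : ℝ) (hDz : Filter.Tendsto Dz Filter.atTop (nhds D)) (U E1 : ℕ) (hE : U + 6 ≤ E1) : ∃ n0 : ℕ, ∀ N : ℕ,
    n0 ≤ N → ∀ h ∈ Icc 1 N, |D * gh h - singZ (fun i => (sh 4 h i : ℤ)) ⌈Real.log N ^ E1⌉₊| ≤ 1 / Real.log N ^ (U + 2) := by
  obtain ⟨n0, h0⟩ := tail_gen 2 6 U E1 hE
  refine ⟨n0, fun N hN h hh => ?_⟩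
  rw [mem_Icc] at hh
  obtain ⟨S, hS, hS2⟩ := h0 N hN (fun i => (sh 4 h i : ℤ)) (by
    intro i
    fin_cases i
    · show ((4 * h : ℕ) : ℤ) ≠ 0
      omega
    · show ((6 * h : ℕ) : ℤ) ≠ 0
      omega) (by
    intro i j hij
    have e1 : ((4 * h : ℕ) : ℤ) ≠ ((6 * h : ℕ) : ℤ) := by omega
    fin_cases i <;> fin_cases j
    · exact absurd rfl hij
    · exact e1
    · exact fun h => e1 h.symm
    · exact absurd rfl hij) (by
    intro i
    fin_cases i
    · show (((4 * h : ℕ) : ℤ)).natAbs ≤ 6 * N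
      rw [Int.natAbs_natCast]
      omega
    · show (((6 * h : ℕ) : ℤ)).natAbs ≤ 6 * N
      rw [Int.natAbs_natCast]
      omega)
  have hSe : S = D * gh h := by
    refine tendsto_nhds_unique hS ?_
    refine (hDz.mul_const (gh h)).congr' ?_
    rw [Filter.EventuallyEq, Filter.eventually_atTop]
    refine ⟨max 4 h, fun z hz => ?_⟩
    rw [sing_val 4 h z (Or.inr rfl) hh.1 ((le_max_left _ _).trans hz) ((le_max_right _ _).trans hz)]
  rw [← hSe]
  exact hS2

/-- the weight -/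
noncomputable def mP (N n : ℕ) : ℝ := if n ∈ Ioc N (2 * N) then lamP (n : ℤ) else 0

/-- the main term -/
theorem mainCh (D : ℝ) (hDz : Filter.Tendsto Dz Filter.atTop (nhds D)) (U E1 : ℕ) (hE : U + 6 ≤ E1) : ∃ n0 : ℕ, ∀ N : ℕ,
    n0 ≤ N → ∀ t ∈ Icc (-(N : ℤ)) N, Odd t →
    |∑ n ∈ Ioc N (2 * N), mP N n * (lamzI ⌈Real.log N ^ E1⌉₊ (2 * n + t) * lamzI ⌈Real.log N ^ E1⌉₊ (4 * n + 3 * t)) -
      D * gh t.natAbs * N| ≤ N / Real.log N ^ U := by
  obtain ⟨n1, h1⟩ := tail_sh D hDz U E1 hE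
  obtain ⟨n2, h2⟩ := tuple_main 2 (E1 + 1) (U + 1) (by norm_num)
  obtain ⟨n3, h3⟩ := Vz_inv_small (E1 + 1)
  obtain ⟨n4, h4⟩ := ev_log' (U + 5) 1
  obtain ⟨n5, h5⟩ := ev_L' 16
  refine ⟨max (max n1 n2) (max (max n3 n4) (max n5 3)), fun N hN t ht hodd => ?_⟩
  have b1 : n1 ≤ N := ((le_max_left _ _).trans (le_max_left _ _)).trans hN
  have b2 : n2 ≤ N := ((le_max_right _ _).trans (le_max_left _ _)).trans hN
  have b3 : n3 ≤ N := (((le_max_left _ _).trans (le_max_left _ _)).trans (le_max_right _ _)).trans hN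
  have b4 : n4 ≤ N := (((le_max_right _ _).trans (le_max_left _ _)).trans (le_max_right _ _)).trans hN
  have b5 : n5 ≤ N := (((le_max_left _ _).trans (le_max_right _ _)).trans (le_max_right _ _)).trans hN
  have hN3 : 3 ≤ N := (((le_max_right _ _).trans (le_max_right _ _)).trans (le_max_right _ _)).trans hN
  have hNr : (3 : ℝ) ≤ N := by exact_mod_cast hN3
  have hN0 : (0 : ℝ) < N := by linarith
  have hL16 := h5 N b5
  have a4 := h4 N b4
  rw [one_mul] at a4
  set L := Real.log (N : ℝ) with hLd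
  have hL1 : 1 ≤ L := by linarith
  have hL0 : 0 < L := by linarith
  set z : ℕ := ⌈L ^ E1⌉₊ with hz
  have hz1 : L ^ E1 ≤ z := Nat.le_ceil _
  have hz2 : (z : ℝ) ≤ L ^ (E1 + 1) := by
    have h6 := (Nat.ceil_lt_add_one (show 0 ≤ L ^ E1 by positivity)).le
    have h7 : 1 ≤ L ^ E1 := one_le_pow₀ hL1
    rw [pow_succ]
    nlinarith
  have hz2r : (2 : ℝ) ≤ z := by
    refine le_trans ?_ hz1
    calc (2 : ℝ) ≤ L := by linarith
      _ = L ^ 1 := (pow_one L).symm
      _ ≤ L ^ E1 := pow_le_pow_right₀ hL1 (by omega)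
  have hzn2 : 2 ≤ z := by exact_mod_cast hz2r
  have hV := h3 N b3 z (by omega) hz2
  have hVp := (inv_pos.2 (Vz_pos z)).le
  set L2 := Real.log ((2 * N : ℕ) : ℝ) with hL2
  have hL2L : L ≤ L2 := by
    rw [hL2, hLd]
    apply Real.log_le_log hN0
    push_cast
    linarith
  have hL22 : L2 ≤ 2 * L := by
    rw [hL2]
    push_cast
    rw [Real.log_mul (by norm_num) hN0.ne']
    have : Real.log 2 ≤ Real.log N := Real.log_le_log (by norm_num) (by linarith)
    linarith
  obtain ⟨c, hc⟩ := inv8 z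
  set a : Fin 2 → ℤ := ![4 * (c * t), 6 * (c * t)] with ha
  have m1 := h2 N b2 z (by omega) hz2 a
  have m2 := h2 (2 * N) (by omega) z (by omega) (hz2.trans (pow_le_pow_left₀ hL0.le hL2L _)) a
  rw [← hL2] at m2
  set F : ℕ → ℝ := fun n => ArithmeticFunction.vonMangoldt n *
      ∏ i, (if ∀ p ∈ pz z, ¬ (p : ℤ) ∣ (n : ℤ) + a i then (Vz z)⁻¹ else 0) with hF
  have hsplit : ∑ n ∈ Icc 1 (2 * N), F n = ∑ n ∈ Icc 1 N, F n + ∑ n ∈ Ioc N (2 * N), F n := by
    have e1 : Icc 1 (2 * N) = Icc 1 N ∪ Ioc N (2 * N) := by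
      ext n
      simp only [mem_union, mem_Icc, mem_Ioc]
      omega
    rw [e1, sum_union]
    rw [disjoint_left]
    intro n h1 h2
    rw [mem_Icc] at h1
    rw [mem_Ioc] at h2
    omega
  have hs := singZ_nonneg a z
  -- the dyadic sum
  have hdy : |∑ n ∈ Ioc N (2 * N), F n - singZ a z * N| ≤ 3 * (N / L ^ (U + 1)) := by
    have e1 : ∑ n ∈ Ioc N (2 * N), F n - singZ a z * N =
        (∑ n ∈ Icc 1 (2 * N), F n - singZ a z * ((2 * N : ℕ) : ℝ)) - (∑ n ∈ Icc 1 N, F n - singZ a z * N) := by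
      rw [hsplit]; push_cast; ring
    rw [e1]
    refine (abs_sub _ _).trans ?_
    have e2 : ((2 * N : ℕ) : ℝ) / L2 ^ (U + 1) ≤ 2 * (N / L ^ (U + 1)) := by
      push_cast
      rw [mul_div_assoc]
      apply mul_le_mul_of_nonneg_left _ (by norm_num)
      apply div_le_div_of_nonneg_left hN0.le (by positivity)
      exact pow_le_pow_left₀ hL0.le hL2L _
    linarith
  -- comparison with the weight
  have hcmp : |∑ n ∈ Ioc N (2 * N), mP N n * (lamzI z (2 * n + t) * lamzI z (4 * n + 3 * t)) - ∑ n ∈ Ioc N (2 * N), F n| ≤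
      L ^ 2 * (2 * √((2 * N : ℕ) : ℝ) * L2) := by
    rw [← sum_sub_distrib]
    have hpt : ∀ n ∈ Ioc N (2 * N), |mP N n * (lamzI z (2 * n + t) * lamzI z (4 * n + 3 * t)) - F n| ≤
        L ^ 2 * (lamI (n : ℤ) - lamP (n : ℤ)) := by
      intro n hn
      have hn' := mem_Ioc.1 hn
      rw [mem_Icc] at ht
      have hmP : mP N n = lamP (n : ℤ) := by unfold mP; rw [if_pos hn]
      have hle := lamP_le (n : ℤ)
      have hP0 := lamP_nonneg (n : ℤ)
      have hI : ArithmeticFunction.vonMangoldt n = lamI (n : ℤ) := by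
        unfold lamI
        rw [if_pos (by omega), Int.toNat_natCast]
      by_cases hno : Odd n
      · -- odd `n`
        have hnz : Odd (n : ℤ) := by exact_mod_cast hno
        obtain ⟨d1, d2⟩ := form_dvd z c t hodd hc (n : ℤ) hnz
        have hcast : ∀ x : ℤ, 1 ≤ x → lamzI z x = if ∀ p ∈ pz z, ¬ (p : ℤ) ∣ x then (Vz z)⁻¹ else 0 := by
          intro x hx
          unfold lamzI lamz
          rw [if_pos hx]
          have e1 : (∀ p ∈ pz z, ¬ p ∣ x.toNat) ↔ ∀ p ∈ pz z, ¬ (p : ℤ) ∣ x := by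
            have e2 : ((x.toNat : ℕ) : ℤ) = x := Int.toNat_of_nonneg (by omega)
            constructor
            · intro h p hp hd
              apply h p hp
              rw [← e2] at hd
              exact_mod_cast hd
            · intro h p hp hd
              apply h p hp
              rw [← e2]
              exact_mod_cast hd
          simp only [e1]
        rw [hcast (2 * n + t) (by omega), hcast (4 * n + 3 * t) (by omega), hF]
        simp only
        rw [Fin.prod_univ_two]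
        have a0 : a 0 = 4 * (c * t) := rfl
        have a1 : a 1 = 6 * (c * t) := rfl
        rw [a0, a1]
        simp only [d1, d2]
        set w1 : ℝ := if ∀ p ∈ pz z, ¬ (p : ℤ) ∣ (n : ℤ) + 4 * (c * t) then (Vz z)⁻¹ else 0 with hw1
        set w2 : ℝ := if ∀ p ∈ pz z, ¬ (p : ℤ) ∣ (n : ℤ) + 6 * (c * t) then (Vz z)⁻¹ else 0 with hw2
        have q1 : 0 ≤ w1 ∧ w1 ≤ L := by
          rw [hw1]; split_ifs
          · exact ⟨hVp, hV⟩
          · exact ⟨le_rfl, hL0.le⟩
        have q2 : 0 ≤ w2 ∧ w2 ≤ L := by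
          rw [hw2]; split_ifs
          · exact ⟨hVp, hV⟩
          · exact ⟨le_rfl, hL0.le⟩
        rw [hmP, hI, ← sub_mul, abs_mul, abs_sub_comm, abs_of_nonneg (by linarith : 0 ≤ lamI (n : ℤ) - lamP (n : ℤ)),
          abs_of_nonneg (mul_nonneg q1.1 q2.1), mul_comm]
        apply mul_le_mul_of_nonneg_right _ (by linarith)
        rw [sq]
        exact mul_le_mul q1.2 q2.2 q2.1 hL0.le
      · -- even `n`
        have hev : Even n := Nat.not_odd_iff_even.1 hno
        have h2n : (2 : ℤ) ∣ (n : ℤ) := by exact_mod_cast even_iff_two_dvd.1 hev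
        have hP : lamP (n : ℤ) = 0 := by
          unfold lamP
          rw [if_neg]
          rw [Int.toNat_natCast]
          intro hp
          have := (Nat.Prime.even_iff hp).1 hev
          omega
        have hF0 : F n = 0 := by
          rw [hF]
          simp only
          rw [Fin.prod_univ_two, if_neg (c := ∀ p ∈ pz z, ¬ (p : ℤ) ∣ (n : ℤ) + a 0), zero_mul, mul_zero]
          intro h
          apply h 2 (mem_pz.2 ⟨hzn2, Nat.prime_two⟩)
          exact dvd_add h2n ⟨2 * (c * t), by show 4 * (c * t) = _; ring⟩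
        rw [hmP, hP, hF0, zero_mul, sub_zero, abs_zero]
        rw [hP] at hle
        have := mul_nonneg (show 0 ≤ L ^ 2 by positivity) hle
        linarith
    refine (abs_sum_le_sum_abs _ _).trans ((sum_le_sum hpt).trans ?_)
    rw [← mul_sum]
    apply mul_le_mul_of_nonneg_left _ (by positivity)
    exact pp_inj (Ioc N (2 * N)) (2 * N) (fun n => (n : ℤ)) (fun n _ m _ h => by exact_mod_cast h) (by omega) (fun n hn => by
      rw [mem_Ioc] at hn
      exact_mod_cast hn.2)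
  -- the singular series
  have ht1 : t.natAbs ∈ Icc 1 N := by
    rw [mem_Icc] at ht ⊢
    have : t ≠ 0 := by
      rintro rfl
      exact absurd hodd (by decide)
    omega
  have hsing := h1 N b1 t.natAbs ht1
  rw [← sing_same z c t hc] at hsing
  have hsing2 : |singZ a z * N - D * gh t.natAbs * N| ≤ N / L ^ (U + 1) := by
    rw [← sub_mul, abs_mul, abs_of_pos hN0, abs_sub_comm]
    calc |D * gh t.natAbs - singZ a z| * N ≤ 1 / L ^ (U + 2) * N := mul_le_mul_of_nonneg_right hsing hN0.le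
      _ = N / L ^ (U + 2) := by ring
      _ ≤ N / L ^ (U + 1) := by
        apply div_le_div_of_nonneg_left hN0.le (by positivity)
        exact pow_le_pow_right₀ hL1 (by omega)
  have hsmall : L ^ 2 * (2 * √((2 * N : ℕ) : ℝ) * L2) ≤ N / L ^ (U + 1) := by
    have e1 : √((2 * N : ℕ) : ℝ) ≤ 2 * √(N : ℝ) := by
      push_cast
      rw [Real.sqrt_mul (by norm_num)]
      apply mul_le_mul_of_nonneg_right _ (Real.sqrt_nonneg _)
      rw [Real.sqrt_le_left (by norm_num)]
      norm_num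
    calc L ^ 2 * (2 * √((2 * N : ℕ) : ℝ) * L2) ≤ L ^ 2 * (2 * (2 * √(N : ℝ)) * (2 * L)) := by gcongr
      _ = 8 * L ^ 3 * √(N : ℝ) := by ring
      _ ≤ L ^ 4 * √(N : ℝ) := by
        apply mul_le_mul_of_nonneg_right _ (Real.sqrt_nonneg _)
        have : 0 < L ^ 3 := by positivity
        nlinarith
      _ ≤ N / L ^ (U + 1) := by
        rw [le_div_iff₀ (by positivity)]
        calc L ^ 4 * √(N : ℝ) * L ^ (U + 1) = L ^ (U + 5) * √(N : ℝ) := by ring
          _ ≤ √(N : ℝ) * √(N : ℝ) := mul_le_mul_of_nonneg_right a4 (Real.sqrt_nonneg _)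
          _ = N := Real.mul_self_sqrt hN0.le
  have hfin : 5 * ((N : ℝ) / L ^ (U + 1)) ≤ N / L ^ U := by
    have : (N : ℝ) / L ^ U = L * (N / L ^ (U + 1)) := by rw [pow_succ]; field_simp
    rw [this]
    apply mul_le_mul_of_nonneg_right _ (by positivity)
    linarith
  set A := ∑ n ∈ Ioc N (2 * N), mP N n * (lamzI z (2 * n + t) * lamzI z (4 * n + 3 * t)) with hA
  set Bs := ∑ n ∈ Ioc N (2 * N), F n with hBs
  have e5 : A - D * gh t.natAbs * N = (A - Bs) + (Bs - singZ a z * N) + (singZ a z * N - D * gh t.natAbs * N) := by ring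
  rw [e5]
  have g1 := abs_add_le ((A - Bs) + (Bs - singZ a z * N)) (singZ a z * N - D * gh t.natAbs * N)
  have g2 := abs_add_le (A - Bs) (Bs - singZ a z * N)
  linarith

end Pool.Agent.E8helper28.LN
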