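import Pool.Agent.E8helper28.LN.Ch3

set_option autoImplicit false
set_option maxHeartbeats 4000000

/-!
# The chains `p, 2 p + t, 4 p + 3 t` for almost all `t`: counting (helper28)
-/

namespace Pool.Agent.E8helper28.LN

open Finset Pool.Agent.H373R2.T7 Pool.Agent.H560R3.GB
open Pool.Agent.E8helper66.GB (S_U3)

/-- the condition -/
def Ch (t : ℤ) (n : ℕ) : Prop := (2 * (n : ℤ) + t).toNat.Prime ∧ (4 * (n : ℤ) + 3 * t).toNat.Prime

instance (t : ℤ) (n : ℕ) : Decidable (Ch t n) := by unfold Ch; infer_instance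

/-- the range of the forms -/
lemma ch_range (N : ℕ) (t : ℤ) (ht : t ∈ Icc (-(N : ℤ)) N) (n : ℕ) (hn : n ∈ Ioc N (2 * N)) :
    (N : ℤ) < 2 * n + t ∧ 2 * (n : ℤ) + t ≤ ((11 * N : ℕ) : ℤ) ∧ (N : ℤ) < 4 * n + 3 * t ∧
      4 * (n : ℤ) + 3 * t ≤ ((11 * N : ℕ) : ℤ) := by
  rw [mem_Icc] at ht
  rw [mem_Ioc] at hn
  push_cast
  omega

/-- the size of the logarithms -/
lemma lamP_size (N : ℕ) (hN : 1 ≤ N) (x : ℤ) (h1 : (N : ℤ) < x) (h2 : x ≤ ((11 * N : ℕ) : ℤ)) (hp : x.toNat.Prime) :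
    Real.log N ≤ lamP x ∧ lamP x ≤ Real.log ((11 * N : ℕ) : ℝ) := by
  unfold lamP
  rw [if_pos hp]
  constructor
  · apply Real.log_le_log (by exact_mod_cast hN)
    exact_mod_cast (show N ≤ x.toNat by omega)
  · apply Real.log_le_log (by exact_mod_cast hp.pos)
    exact_mod_cast (show x.toNat ≤ 11 * N by omega)

/-- prime powers in the two forms -/
lemma pp_two (N : ℕ) (hN : 1 ≤ N) (t : ℤ) (ht : t ∈ Icc (-(N : ℤ)) N) (m : ℕ → ℝ) (G : ℝ) (hm0 : ∀ n, 0 ≤ m n)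
    (hm : ∀ n, m n ≤ G) :
    0 ≤ ∑ n ∈ Ioc N (2 * N), m n * (lamI (2 * n + t) * lamI (4 * n + 3 * t)) -
      ∑ n ∈ Ioc N (2 * N), m n * (lamP (2 * n + t) * lamP (4 * n + 3 * t)) ∧
    ∑ n ∈ Ioc N (2 * N), m n * (lamI (2 * n + t) * lamI (4 * n + 3 * t)) -
      ∑ n ∈ Ioc N (2 * N), m n * (lamP (2 * n + t) * lamP (4 * n + 3 * t)) ≤
      G * (Real.log ((11 * N : ℕ) : ℝ) * (2 * (2 * √((11 * N : ℕ) : ℝ) * Real.log ((11 * N : ℕ) : ℝ)))) := by
  set l := Real.log ((11 * N : ℕ) : ℝ) with hl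
  have hl0 : 0 ≤ l := Real.log_natCast_nonneg _
  have hG : 0 ≤ G := (hm0 0).trans (hm 0)
  have hI : ∀ x : ℤ, x ≤ ((11 * N : ℕ) : ℤ) → lamI x ≤ l := by
    intro x hx
    refine lamI_le x _ (by exact_mod_cast (show 1 ≤ 11 * N by omega)) ?_
    exact_mod_cast hx
  have p1 := pp_inj (Ioc N (2 * N)) (11 * N) (fun n => 2 * (n : ℤ) + t) (fun n _ m _ h => by omega) (by omega) (fun n hn => (ch_range N t ht n hn).2.1)
  have p2 := pp_inj (Ioc N (2 * N)) (11 * N) (fun n => 4 * (n : ℤ) + 3 * t) (fun n _ m _ h => by omega) (by omega) (fun n hn => (ch_range N t ht n hn).2.2.2)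
  rw [← sum_sub_distrib]
  have hpt : ∀ n ∈ Ioc N (2 * N), 0 ≤ m n * (lamI (2 * n + t) * lamI (4 * n + 3 * t)) - m n * (lamP (2 * n + t) * lamP (4 * n + 3 * t)) ∧
      m n * (lamI (2 * n + t) * lamI (4 * n + 3 * t)) - m n * (lamP (2 * n + t) * lamP (4 * n + 3 * t)) ≤
      G * (l * ((lamI (2 * (n : ℤ) + t) - lamP (2 * (n : ℤ) + t)) + (lamI (4 * (n : ℤ) + 3 * t) - lamP (4 * (n : ℤ) + 3 * t)))) := by
    intro n hn
    obtain ⟨r1, r2, r3, r4⟩ := ch_range N t ht n hn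
    have a1 := hI _ r2
    have a2 := hI _ r4
    have b1 := lamP_le (2 * (n : ℤ) + t)
    have b2 := lamP_le (4 * (n : ℤ) + 3 * t)
    have c1 := lamP_nonneg (2 * (n : ℤ) + t)
    have c2 := lamP_nonneg (4 * (n : ℤ) + 3 * t)
    rw [← mul_sub]
    have d0 : 0 ≤ lamI (2 * (n : ℤ) + t) * lamI (4 * (n : ℤ) + 3 * t) - lamP (2 * (n : ℤ) + t) * lamP (4 * (n : ℤ) + 3 * t) := by
      have := mul_le_mul b1 b2 c2 (c1.trans b1)
      linarith
    have d1 : lamI (2 * (n : ℤ) + t) * lamI (4 * (n : ℤ) + 3 * t) - lamP (2 * (n : ℤ) + t) * lamP (4 * (n : ℤ) + 3 * t) ≤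
        l * ((lamI (2 * (n : ℤ) + t) - lamP (2 * (n : ℤ) + t)) + (lamI (4 * (n : ℤ) + 3 * t) - lamP (4 * (n : ℤ) + 3 * t))) := by
      have e : lamI (2 * (n : ℤ) + t) * lamI (4 * (n : ℤ) + 3 * t) - lamP (2 * (n : ℤ) + t) * lamP (4 * (n : ℤ) + 3 * t) =
          (lamI (2 * (n : ℤ) + t) - lamP (2 * (n : ℤ) + t)) * lamI (4 * (n : ℤ) + 3 * t) +
          lamP (2 * (n : ℤ) + t) * (lamI (4 * (n : ℤ) + 3 * t) - lamP (4 * (n : ℤ) + 3 * t)) := by ring
      rw [e]
      have e1 : (lamI (2 * (n : ℤ) + t) - lamP (2 * (n : ℤ) + t)) * lamI (4 * (n : ℤ) + 3 * t) ≤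
          (lamI (2 * (n : ℤ) + t) - lamP (2 * (n : ℤ) + t)) * l := mul_le_mul_of_nonneg_left a2 (by linarith)
      have e2 : lamP (2 * (n : ℤ) + t) * (lamI (4 * (n : ℤ) + 3 * t) - lamP (4 * (n : ℤ) + 3 * t)) ≤
          l * (lamI (4 * (n : ℤ) + 3 * t) - lamP (4 * (n : ℤ) + 3 * t)) := mul_le_mul_of_nonneg_right (b1.trans a1) (by linarith)
      linarith
    exact ⟨mul_nonneg (hm0 n) d0, mul_le_mul (hm n) d1 d0 hG⟩
  refine ⟨sum_nonneg fun n hn => (hpt n hn).1, (sum_le_sum fun n hn => (hpt n hn).2).trans ?_⟩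
  rw [← mul_sum, ← mul_sum, sum_add_distrib]
  apply mul_le_mul_of_nonneg_left _ hG
  apply mul_le_mul_of_nonneg_left _ hl0
  linarith

/-- the weighted count of chains -/
noncomputable def Wc (N : ℕ) (t : ℤ) : ℝ := ∑ n ∈ Ioc N (2 * N), lamP (n : ℤ) * (lamP (2 * n + t) * lamP (4 * n + 3 * t))

/-- the count of chains -/
def Cc (N : ℕ) (t : ℤ) : ℕ := ((Ioc N (2 * N)).filter (fun n => n.Prime ∧ Ch t n)).card

/-- comparison of the two counts -/
lemma Wc_Cc (N : ℕ) (hN : 1 ≤ N) (t : ℤ) (ht : t ∈ Icc (-(N : ℤ)) N) :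
    Real.log N ^ 3 * Cc N t ≤ Wc N t ∧ Wc N t ≤ Real.log ((11 * N : ℕ) : ℝ) ^ 3 * Cc N t := by
  have hl0 : 0 ≤ Real.log (N : ℝ) := Real.log_natCast_nonneg _
  have e1 : Wc N t = ∑ n ∈ (Ioc N (2 * N)).filter (fun n => n.Prime ∧ Ch t n), lamP (n : ℤ) * (lamP (2 * n + t) * lamP (4 * n + 3 * t)) := by
    unfold Wc
    rw [sum_filter]
    refine sum_congr rfl fun n _ => ?_
    split_ifs with h
    · rfl
    · rw [not_and_or] at h
      rcases h with h | h
      · unfold lamP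
        rw [Int.toNat_natCast, if_neg h, zero_mul]
      · unfold Ch at h
        rw [not_and_or] at h
        unfold lamP
        rcases h with h | h
        · rw [if_neg h, zero_mul, mul_zero]
        · rw [if_neg (c := (4 * (n : ℤ) + 3 * t).toNat.Prime) h, mul_zero, mul_zero]
  have hpt : ∀ n ∈ (Ioc N (2 * N)).filter (fun n => n.Prime ∧ Ch t n),
      Real.log N ^ 3 ≤ lamP (n : ℤ) * (lamP (2 * n + t) * lamP (4 * n + 3 * t)) ∧
      lamP (n : ℤ) * (lamP (2 * n + t) * lamP (4 * n + 3 * t)) ≤ Real.log ((11 * N : ℕ) : ℝ) ^ 3 := by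
    intro n hn
    rw [mem_filter] at hn
    obtain ⟨hn1, hn2, hn3, hn4⟩ := hn
    obtain ⟨r1, r2, r3, r4⟩ := ch_range N t ht n hn1
    have hn1' := mem_Ioc.1 hn1
    obtain ⟨s1, s2⟩ := lamP_size N hN (n : ℤ) (by omega) (by push_cast; omega) (by rw [Int.toNat_natCast]; exact hn2)
    obtain ⟨s3, s4⟩ := lamP_size N hN _ r1 r2 hn3
    obtain ⟨s5, s6⟩ := lamP_size N hN _ r3 r4 hn4
    have e : ∀ x : ℝ, x ^ 3 = x * (x * x) := fun x => by ring
    rw [e, e]
    constructor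
    · exact mul_le_mul s1 (mul_le_mul s3 s5 hl0 (hl0.trans s3)) (by positivity) (hl0.trans s1)
    · have hl1 : 0 ≤ Real.log ((11 * N : ℕ) : ℝ) := Real.log_natCast_nonneg _
      exact mul_le_mul s2 (mul_le_mul s4 s6 (hl0.trans s5) hl1) (mul_nonneg (hl0.trans s3) (hl0.trans s5)) hl1
  rw [e1]
  unfold Cc
  constructor
  · rw [mul_comm (Real.log (N : ℝ) ^ 3), ← nsmul_eq_mul, ← sum_const]
    exact sum_le_sum fun n hn => (hpt n hn).1
  · rw [mul_comm (Real.log ((11 * N : ℕ) : ℝ) ^ 3), ← nsmul_eq_mul, ← sum_const]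
    exact sum_le_sum fun n hn => (hpt n hn).2

/-- the formula for the chains -/
def HLc (D ε : ℝ) (U N : ℕ) (t : ℤ) : Prop :=
  |Wc N t - D * gh t.natAbs * N| ≤ N / Real.log N ^ U ∧
  |(Cc N t : ℝ) - D * gh t.natAbs * (N / Real.log N ^ 3)| ≤ ε * (D * gh t.natAbs * (N / Real.log N ^ 3))

open Classical in
theorem chains (hU3 : S_U3) (D : ℝ) (hD : 0 < D) (hDz : Filter.Tendsto Dz Filter.atTop (nhds D)) (U : ℕ) (ε : ℝ) (hε : 0 < ε) :
    ∃ N₀ : ℕ, ∀ N : ℕ, N₀ ≤ N → (((Icc (-(N : ℤ)) N).filter (fun t => Odd t ∧ ¬ HLc D ε U N t)).card : ℝ) ≤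
      N / Real.log N ^ U := by
  obtain ⟨δ, hδ0, hδ1, hδa, hδb⟩ := choose_delta 2 ε hε
  set V := U + 1 with hVd
  obtain ⟨B, hB⟩ := avgCh hU3 (2 * V + 1)
  set E1 := B + V + 7 with hE1
  obtain ⟨n0, h0⟩ := hB (E1 + 1)
  obtain ⟨n1, h1⟩ := mainCh D hDz (V + 1) E1 (by omega)
  obtain ⟨n4, h4⟩ := ev_log' (V + 6) 1
  obtain ⟨n5, h5⟩ := ev_L' (Real.log 11 / δ + 1 / (δ * D) + 64)
  refine ⟨max (max n0 n1) (max n4 (max n5 11)), fun N hN => ?_⟩
  have b0 : n0 ≤ N := ((le_max_left _ _).trans (le_max_left _ _)).trans hN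
  have b1 : n1 ≤ N := ((le_max_right _ _).trans (le_max_left _ _)).trans hN
  have b4 : n4 ≤ N := ((le_max_left _ _).trans (le_max_right _ _)).trans hN
  have b5 : n5 ≤ N := (((le_max_left _ _).trans (le_max_right _ _)).trans (le_max_right _ _)).trans hN
  have hN11 : 11 ≤ N := (((le_max_right _ _).trans (le_max_right _ _)).trans (le_max_right _ _)).trans hN
  have hNr : (11 : ℝ) ≤ N := by exact_mod_cast hN11
  have hN0 : (0 : ℝ) < N := by linarith
  have hLb := h5 N b5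
  have a4 := h4 N b4
  rw [one_mul] at a4
  set L := Real.log (N : ℝ) with hLd
  have hl11 : 0 < Real.log 11 := Real.log_pos (by norm_num)
  have q1 : 0 < Real.log 11 / δ := by positivity
  have q2 : 0 < 1 / (δ * D) := by positivity
  have hL64 : 64 ≤ L := by linarith
  have hL1 : 1 ≤ L := by linarith
  have hL0 : 0 < L := by linarith
  have hL11 : Real.log 11 ≤ δ * L := by
    have h : Real.log 11 / δ ≤ L := by linarith
    rw [div_le_iff₀ hδ0] at h
    linarith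
  have hLD : 1 / L ≤ δ * D := by
    have h : 1 / (δ * D) ≤ L := by linarith
    rw [div_le_iff₀ (by positivity)] at h ⊢
    linarith
  set z : ℕ := ⌈L ^ E1⌉₊ with hz
  have hz1 : L ^ E1 ≤ z := Nat.le_ceil _
  have hz2 : (z : ℝ) ≤ L ^ (E1 + 1) := by
    have h6 := (Nat.ceil_lt_add_one (show 0 ≤ L ^ E1 by positivity)).le
    have h7 : 1 ≤ L ^ E1 := one_le_pow₀ hL1
    rw [pow_succ]
    nlinarith
  set l := Real.log ((11 * N : ℕ) : ℝ) with hl
  have hlL : l = Real.log 11 + L := by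
    rw [hl]; push_cast
    rw [Real.log_mul (by norm_num) hN0.ne']
  have hl2 : l ≤ 2 * L := by nlinarith
  have hl0 : 0 ≤ l := Real.log_natCast_nonneg _
  have hmP0 : ∀ n, 0 ≤ mP N n := by
    intro n
    unfold mP
    split_ifs
    · exact lamP_nonneg _
    · exact le_rfl
  have hmP : ∀ n, mP N n ≤ 2 * L := by
    intro n
    unfold mP
    split_ifs with hn
    · rw [mem_Ioc] at hn
      refine (lamP_le _).trans ((lamI_le (n : ℤ) ((11 * N : ℕ) : ℝ) (by exact_mod_cast (show 1 ≤ 11 * N by omega)) ?_).trans hl2)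
      exact_mod_cast (show n ≤ 11 * N by omega)
    · positivity
  have key := h0 N b0 z ((pow_le_pow_right₀ hL1 (by omega)).trans hz1) hz2 (mP N) (by
    intro n
    rw [abs_of_nonneg (hmP0 n)]
    refine (hmP n).trans ?_
    nlinarith)
  set J : ℤ → ℝ := fun t => |∑ n ∈ Ioc N (2 * N), mP N n * (lamI (2 * n + t) * lamI (4 * n + 3 * t) -
      lamzI z (2 * n + t) * lamzI z (4 * n + 3 * t))| with hJ
  set bad := (Icc (-(N : ℤ)) N).filter (fun t => Odd t ∧ ¬ HLc D ε U N t) with hbad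
  set w : ℝ := N / L ^ (V + 1) with hw
  have hw0 : 0 < w := by positivity
  have hNV : (N : ℝ) / L ^ V = L * w := by rw [hw, pow_succ L V]; field_simp
  have hgood : ∀ t ∈ bad, w ≤ J t := by
    intro t ht
    rw [hbad, mem_filter] at ht
    obtain ⟨ht1, hodd, ht2⟩ := ht
    by_contra hcon
    push Not at hcon
    apply ht2
    have hmain := h1 N b1 t ht1 hodd
    obtain ⟨p1, p2⟩ := pp_two N (by omega) t ht1 (mP N) (2 * L) hmP0 hmP
    have hWc : ∑ n ∈ Ioc N (2 * N), mP N n * (lamP (2 * n + t) * lamP (4 * n + 3 * t)) = Wc N t := by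
      unfold Wc
      refine sum_congr rfl fun n hn => ?_
      unfold mP
      rw [if_pos hn]
    rw [hWc] at p1 p2
    set A := ∑ n ∈ Ioc N (2 * N), mP N n * (lamI (2 * n + t) * lamI (4 * n + 3 * t)) with hA
    set Zs := ∑ n ∈ Ioc N (2 * N), mP N n * (lamzI z (2 * n + t) * lamzI z (4 * n + 3 * t)) with hZs
    have hJt : J t = |A - Zs| := by
      rw [hJ, hA, hZs, ← sum_sub_distrib]
      simp only
      congr 1
      refine sum_congr rfl fun n _ => ?_
      ring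
    rw [hJt] at hcon
    have hsm : 2 * L * (l * (2 * (2 * √((11 * N : ℕ) : ℝ) * l))) ≤ w := by
      have hsq : √((11 * N : ℕ) : ℝ) ≤ 4 * √(N : ℝ) := by
        push_cast
        rw [Real.sqrt_mul (by norm_num)]
        apply mul_le_mul_of_nonneg_right _ (Real.sqrt_nonneg _)
        rw [Real.sqrt_le_left (by norm_num)]
        norm_num
      calc 2 * L * (l * (2 * (2 * √((11 * N : ℕ) : ℝ) * l))) ≤ 2 * L * ((2 * L) * (2 * (2 * (4 * √(N : ℝ)) * (2 * L)))) := by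
            gcongr
        _ = 128 * L ^ 3 * √(N : ℝ) := by ring
        _ ≤ L ^ 5 * √(N : ℝ) := by
          apply mul_le_mul_of_nonneg_right _ (Real.sqrt_nonneg _)
          have h9 : 0 < L ^ 3 := by positivity
          have h10 : (128 : ℝ) ≤ L ^ 2 := by nlinarith
          nlinarith
        _ ≤ w := by
          rw [hw, le_div_iff₀ (by positivity)]
          calc L ^ 5 * √(N : ℝ) * L ^ (V + 1) = L ^ (V + 6) * √(N : ℝ) := by ring
            _ ≤ √(N : ℝ) * √(N : ℝ) := mul_le_mul_of_nonneg_right a4 (Real.sqrt_nonneg _)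
            _ = N := Real.mul_self_sqrt hN0.le
    set S := D * gh t.natAbs with hS
    have hDS : D ≤ S := le_mul_of_one_le_right hD.le (gh_ge _)
    have hS0 : 0 < S := lt_of_lt_of_le hD hDS
    have hW : |Wc N t - S * N| ≤ 3 * w := by
      have e : Wc N t - S * N = -(A - Wc N t) + (A - Zs) + (Zs - S * N) := by ring
      rw [e]
      have g1 := abs_add_le (-(A - Wc N t) + (A - Zs)) (Zs - S * N)
      have g2 := abs_add_le (-(A - Wc N t)) (A - Zs)
      rw [abs_neg, abs_of_nonneg p1] at g2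
      have g3 : |Zs - S * N| ≤ w := hmain
      linarith
    have hWV : |Wc N t - S * N| ≤ N / L ^ V := by
      refine hW.trans ?_
      rw [hNV]
      exact mul_le_mul_of_nonneg_right (by linarith) hw0.le
    have hNVU : (N : ℝ) / L ^ V ≤ N / L ^ U := by
      apply div_le_div_of_nonneg_left hN0.le (by positivity)
      exact pow_le_pow_right₀ hL1 (by omega)
    have hNV1 : (N : ℝ) / L ^ V ≤ N / L := by
      apply div_le_div_of_nonneg_left hN0.le hL0
      exact le_self_pow₀ hL1 (by omega)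
    refine ⟨hWV.trans hNVU, ?_⟩
    -- from the weighted to the unweighted count
    obtain ⟨c1, c2⟩ := Wc_Cc N (by omega) t ht1
    have hC0 : (0 : ℝ) ≤ Cc N t := Nat.cast_nonneg _
    set C : ℝ := (Cc N t : ℝ) with hC
    have hδM : (N : ℝ) / L ≤ δ * (S * N) := by
      calc (N : ℝ) / L = (1 / L) * N := by ring
        _ ≤ (δ * D) * N := mul_le_mul_of_nonneg_right hLD hN0.le
        _ = δ * (D * N) := by ring
        _ ≤ δ * (S * N) := by
          apply mul_le_mul_of_nonneg_left _ hδ0.le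
          exact mul_le_mul_of_nonneg_right hDS hN0.le
    obtain ⟨t1, t2⟩ := abs_le.1 (hWV.trans (hNV1.trans hδM))
    have hSN : 0 < S * N := by positivity
    set X : ℝ := L ^ 3 * C with hX
    have hX0 : 0 ≤ X := by positivity
    have g2 : X ≤ (1 + ε) * (S * N) := by
      have h6 : X ≤ (1 + δ) * (S * N) := by linarith
      have h7 : 1 + δ ≤ 1 + ε := by
        have e1 : (1 - δ) ^ (2 + 1) ≤ 1 := pow_le_one₀ (by linarith) (by linarith)
        nlinarith
      exact h6.trans (mul_le_mul_of_nonneg_right h7 hSN.le)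
    have g1 : (1 - ε) * (S * N) ≤ X := by
      have h6 : l ^ 3 ≤ ((1 + δ) * L) ^ 3 := pow_le_pow_left₀ hl0 (by rw [hlL]; linarith) 3
      have h7 : Wc N t ≤ (1 + δ) ^ 3 * X := by
        refine c2.trans ?_
        calc l ^ 3 * C ≤ ((1 + δ) * L) ^ 3 * C := mul_le_mul_of_nonneg_right h6 hC0
          _ = (1 + δ) ^ 3 * X := by rw [hX]; ring
      have h8 : (1 - ε) * (1 + δ) ^ 3 * (S * N) ≤ (1 - δ) * (S * N) := mul_le_mul_of_nonneg_right hδa hSN.le
      have h9 : (1 + δ) ^ 3 * ((1 - ε) * (S * N)) ≤ (1 + δ) ^ 3 * X := by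
        have : (1 + δ) ^ 3 * ((1 - ε) * (S * N)) = (1 - ε) * (1 + δ) ^ 3 * (S * N) := by ring
        linarith
      exact le_of_mul_le_mul_left h9 (by positivity)
    have hL3 : 0 < L ^ 3 := by positivity
    have e1 : S * (N / L ^ 3) = (S * N) / L ^ 3 := by ring
    have e2 : C = X / L ^ 3 := by rw [hX]; field_simp
    rw [e1, e2, ← sub_div, abs_div, abs_of_pos hL3, ← mul_div_assoc]
    apply div_le_div_of_nonneg_right _ hL3.le
    rw [abs_le]
    constructor <;> linarith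
  have hcard : (bad.card : ℝ) * w ≤ (N : ℝ) ^ 2 / L ^ (2 * V + 1) := by
    refine le_trans ?_ key
    calc (bad.card : ℝ) * w = ∑ _h ∈ bad, w := by rw [sum_const, nsmul_eq_mul]
      _ ≤ ∑ h ∈ bad, J h := sum_le_sum hgood
      _ ≤ ∑ h ∈ Icc (-(N : ℤ)) N, J h := sum_le_sum_of_subset_of_nonneg (filter_subset _ _) (fun _ _ _ => abs_nonneg _)
  have e : (N : ℝ) ^ 2 / L ^ (2 * V + 1) = (N / L ^ V) * w := by
    rw [hw, show 2 * V + 1 = V + (V + 1) by ring, pow_add L V (V + 1)]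
    field_simp
  rw [e] at hcard
  refine (le_of_mul_le_mul_right hcard hw0).trans ?_
  apply div_le_div_of_nonneg_left hN0.le (by positivity)
  exact pow_le_pow_right₀ hL1 (by omega)

end Pool.Agent.E8helper28.LN
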