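import Pool.Agent.E8helper28.LN.Ch4

set_option autoImplicit false
set_option maxHeartbeats 4000000

/-!
# The forms `2 n + t, 4 n + 3 t` with `n` in an arbitrary set, for almost all `t` (helper28)
-/

namespace Pool.Agent.E8helper28.LN

open Finset Pool.Agent.H373R2.T7 Pool.Agent.H560R3.GB
open Pool.Agent.E8helper66.GB (S_U3)

open Classical in
/-- the number of `n ∈ M`, `N < n ≤ 2 N`, for which `2 n + t` and `4 n + 3 t` are primes -/
noncomputable def pairsC (M : Set ℕ) (N : ℕ) (t : ℤ) : ℕ := ((Ioc N (2 * N)).filter (fun n => n ∈ M ∧ Ch t n)).card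

open Classical in
/-- the number of `n ∈ M`, `N < n ≤ 2 N`, for which `2 n + t` and `4 n + 3 t` are free of primes `p ≤ z` -/
noncomputable def roughC (z : ℕ) (M : Set ℕ) (N : ℕ) (t : ℤ) : ℕ :=
  ((Ioc N (2 * N)).filter (fun n => n ∈ M ∧ ∀ p : ℕ, p.Prime → p ≤ z →
    ¬ (p : ℤ) ∣ 2 * (n : ℤ) + t ∧ ¬ (p : ℤ) ∣ 4 * (n : ℤ) + 3 * t)).card

lemma lamzI_int (z : ℕ) (x : ℤ) (hx : 1 ≤ x) : lamzI z x = if ∀ p ∈ pz z, ¬ (p : ℤ) ∣ x then (Vz z)⁻¹ else 0 := by
  unfold lamzI lamz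
  rw [if_pos hx]
  have e1 : (∀ p ∈ pz z, ¬ p ∣ x.toNat) ↔ ∀ p ∈ pz z, ¬ (p : ℤ) ∣ x := by
    have e2 : ((x.toNat : ℕ) : ℤ) = x := Int.toNat_of_nonneg (by omega)
    constructor
    · intro h p hp hd
      apply h p hp
      rw [← e2] at hd
      exact_mod_cast hd
    · intro h p hp hd
      apply h p hp
      rw [← e2]
      exact_mod_cast hd
  simp only [e1]

open Classical in
lemma model_eqC (z : ℕ) (M : Set ℕ) (N : ℕ) (t : ℤ) (ht : t ∈ Icc (-(N : ℤ)) N) :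
    ∑ n ∈ Ioc N (2 * N), (if n ∈ M then (1 : ℝ) else 0) * (lamzI z (2 * n + t) * lamzI z (4 * n + 3 * t)) =
      roughC z M N t / (Vz z) ^ 2 := by
  unfold roughC
  rw [card_filter]
  push_cast
  rw [sum_div]
  refine sum_congr rfl fun n hn => ?_
  obtain ⟨r1, r2, r3, r4⟩ := ch_range N t ht n hn
  rw [lamzI_int z _ (by omega), lamzI_int z _ (by omega)]
  by_cases hM : n ∈ M
  · rw [if_pos hM, one_mul]
    by_cases h1 : ∀ p ∈ pz z, ¬ (p : ℤ) ∣ 2 * (n : ℤ) + t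
    · by_cases h2 : ∀ p ∈ pz z, ¬ (p : ℤ) ∣ 4 * (n : ℤ) + 3 * t
      · rw [if_pos h1, if_pos h2, if_pos ⟨hM, fun p hp hpz => ⟨h1 p (mem_pz.2 ⟨hpz, hp⟩), h2 p (mem_pz.2 ⟨hpz, hp⟩)⟩⟩]
        rw [sq, one_div, mul_inv]
      · rw [if_neg h2, mul_zero, if_neg, zero_div]
        rintro ⟨-, h3⟩
        apply h2
        intro p hp
        rw [mem_pz] at hp
        exact (h3 p hp.2 hp.1).2
    · rw [if_neg h1, zero_mul, if_neg, zero_div]
      rintro ⟨-, h3⟩
      apply h1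
      intro p hp
      rw [mem_pz] at hp
      exact (h3 p hp.2 hp.1).1
  · rw [if_neg hM, zero_mul, if_neg (fun h => hM h.1), zero_div]

open Classical in
/-- comparison of the weighted and the unweighted counts -/
lemma pairsC_w (M : Set ℕ) (N : ℕ) (hN : 1 ≤ N) (t : ℤ) (ht : t ∈ Icc (-(N : ℤ)) N) :
    Real.log N ^ 2 * pairsC M N t ≤
      ∑ n ∈ Ioc N (2 * N), (if n ∈ M then (1 : ℝ) else 0) * (lamP (2 * n + t) * lamP (4 * n + 3 * t)) ∧
    ∑ n ∈ Ioc N (2 * N), (if n ∈ M then (1 : ℝ) else 0) * (lamP (2 * n + t) * lamP (4 * n + 3 * t)) ≤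
      Real.log ((11 * N : ℕ) : ℝ) ^ 2 * pairsC M N t := by
  have hl0 : 0 ≤ Real.log (N : ℝ) := Real.log_natCast_nonneg _
  have e1 : ∑ n ∈ Ioc N (2 * N), (if n ∈ M then (1 : ℝ) else 0) * (lamP (2 * n + t) * lamP (4 * n + 3 * t)) =
      ∑ n ∈ (Ioc N (2 * N)).filter (fun n => n ∈ M ∧ Ch t n), lamP (2 * n + t) * lamP (4 * n + 3 * t) := by
    rw [sum_filter]
    refine sum_congr rfl fun n _ => ?_
    by_cases hM : n ∈ M
    · rw [if_pos hM, one_mul]
      by_cases h : Ch t n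
      · rw [if_pos ⟨hM, h⟩]
      · rw [if_neg (fun h' => h h'.2)]
        unfold Ch at h
        rw [not_and_or] at h
        unfold lamP
        rcases h with h | h
        · rw [if_neg h, zero_mul]
        · rw [if_neg (c := (4 * (n : ℤ) + 3 * t).toNat.Prime) h, mul_zero]
    · rw [if_neg hM, zero_mul, if_neg (fun h => hM h.1)]
  have hpt : ∀ n ∈ (Ioc N (2 * N)).filter (fun n => n ∈ M ∧ Ch t n),
      Real.log N ^ 2 ≤ lamP (2 * n + t) * lamP (4 * n + 3 * t) ∧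
      lamP (2 * n + t) * lamP (4 * n + 3 * t) ≤ Real.log ((11 * N : ℕ) : ℝ) ^ 2 := by
    intro n hn
    rw [mem_filter] at hn
    obtain ⟨hn1, hn2, hn3, hn4⟩ := hn
    obtain ⟨r1, r2, r3, r4⟩ := ch_range N t ht n hn1
    obtain ⟨s3, s4⟩ := lamP_size N hN _ r1 r2 hn3
    obtain ⟨s5, s6⟩ := lamP_size N hN _ r3 r4 hn4
    rw [sq, sq]
    have hl1 : 0 ≤ Real.log ((11 * N : ℕ) : ℝ) := Real.log_natCast_nonneg _
    exact ⟨mul_le_mul s3 s5 hl0 (hl0.trans s3), mul_le_mul s4 s6 (hl0.trans s5) hl1⟩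
  rw [e1]
  unfold pairsC
  constructor
  · rw [mul_comm (Real.log (N : ℝ) ^ 2), ← nsmul_eq_mul, ← sum_const]
    exact sum_le_sum fun n hn => (hpt n hn).1
  · rw [mul_comm (Real.log ((11 * N : ℕ) : ℝ) ^ 2), ← nsmul_eq_mul, ← sum_const]
    exact sum_le_sum fun n hn => (hpt n hn).2

open Classical in
/-- arbitrary sets `M` -/
theorem relC (hU3 : S_U3) (U K : ℕ) (ε : ℝ) (hε : 0 < ε) : ∃ E₀ : ℕ, ∀ E : ℕ, E₀ ≤ E → ∃ N₀ : ℕ, ∀ N : ℕ, N₀ ≤ N →
    ∀ (M : Set ℕ), (((Icc (-(N : ℤ)) N).filter (fun t => ¬ |(pairsC M N t : ℝ) -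
        roughC ⌈Real.log N ^ E⌉₊ M N t / (Vz ⌈Real.log N ^ E⌉₊ * Real.log N) ^ 2| ≤
        ε * (roughC ⌈Real.log N ^ E⌉₊ M N t / (Vz ⌈Real.log N ^ E⌉₊ * Real.log N) ^ 2) + N / Real.log N ^ K)).card : ℝ) ≤
      N / Real.log N ^ U := by
  obtain ⟨δ, hδ0, hδ1, hδa, hδb⟩ := choose_delta 1 ε hε
  obtain ⟨B, hB⟩ := avgCh hU3 (U + K + 1)
  refine ⟨B, fun E hE => ?_⟩
  obtain ⟨n0, h0⟩ := hB (E + 1)
  obtain ⟨n2, hn2⟩ := ev_L' (Real.log 11 / δ + 64)
  obtain ⟨n3, hn3⟩ := ev_log' (K + 4) 1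
  refine ⟨max n0 (max n2 (max n3 11)), fun N hN M => ?_⟩
  have b0 : n0 ≤ N := (le_max_left _ _).trans hN
  have b2 := hn2 N (((le_max_left _ _).trans (le_max_right _ _)).trans hN)
  have b3 := hn3 N ((((le_max_left _ _).trans (le_max_right _ _)).trans (le_max_right _ _)).trans hN)
  have hN11 : 11 ≤ N := (((le_max_right _ _).trans (le_max_right _ _)).trans (le_max_right _ _)).trans hN
  rw [one_mul] at b3
  have hNr : (11 : ℝ) ≤ N := by exact_mod_cast hN11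
  have hN0 : (0 : ℝ) < N := by linarith
  set L := Real.log (N : ℝ) with hLd
  have hl11 : 0 < Real.log 11 := Real.log_pos (by norm_num)
  have q1 : 0 < Real.log 11 / δ := by positivity
  have hL64 : 64 ≤ L := by linarith
  have hL0 : 0 < L := by linarith
  have hL1 : 1 ≤ L := by linarith
  have hL11 : Real.log 11 ≤ δ * L := by
    have h : Real.log 11 / δ ≤ L := by linarith
    rw [div_le_iff₀ hδ0] at h
    linarith
  set z : ℕ := ⌈L ^ E⌉₊ with hz
  have hz1 : L ^ E ≤ z := Nat.le_ceil _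
  have hz2 : (z : ℝ) ≤ L ^ (E + 1) := by
    have h6 := (Nat.ceil_lt_add_one (show 0 ≤ L ^ E by positivity)).le
    have h7 : 1 ≤ L ^ E := one_le_pow₀ hL1
    rw [pow_succ]
    nlinarith
  set l := Real.log ((11 * N : ℕ) : ℝ) with hl
  have hlL : l = Real.log 11 + L := by
    rw [hl]; push_cast
    rw [Real.log_mul (by norm_num) hN0.ne']
  have hl2 : l ≤ 2 * L := by nlinarith
  have hl0 : 0 ≤ l := Real.log_natCast_nonneg _
  have hm0 : ∀ n : ℕ, (0 : ℝ) ≤ if n ∈ M then (1 : ℝ) else 0 := by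
    intro n; split_ifs <;> norm_num
  have hm1 : ∀ n : ℕ, (if n ∈ M then (1 : ℝ) else 0) ≤ 1 := by
    intro n; split_ifs <;> norm_num
  have key := h0 N b0 z ((pow_le_pow_right₀ hL1 hE).trans hz1) hz2 (fun n => if n ∈ M then (1 : ℝ) else 0) (by
    intro n
    have : (1 : ℝ) ≤ L ^ 2 := one_le_pow₀ hL1
    rw [abs_of_nonneg (hm0 n)]
    exact (hm1 n).trans this)
  set J : ℤ → ℝ := fun t => |∑ n ∈ Ioc N (2 * N), (if n ∈ M then (1 : ℝ) else 0) * (lamI (2 * n + t) * lamI (4 * n + 3 * t) -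
      lamzI z (2 * n + t) * lamzI z (4 * n + 3 * t))| with hJ
  set bad := (Icc (-(N : ℤ)) N).filter (fun t => ¬ |(pairsC M N t : ℝ) -
        roughC z M N t / (Vz z * L) ^ 2| ≤
        ε * (roughC z M N t / (Vz z * L) ^ 2) + N / L ^ K) with hbad
  have hNL : 0 < (N : ℝ) / L ^ (K + 1) := by positivity
  have hgood : ∀ t ∈ bad, (N : ℝ) / L ^ (K + 1) ≤ J t := by
    intro t hh
    rw [hbad, mem_filter] at hh
    obtain ⟨ht, hh⟩ := hh
    by_contra hcon
    apply hh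
    push Not at hcon
    set T := ∑ n ∈ Ioc N (2 * N), (if n ∈ M then (1 : ℝ) else 0) * (lamI (2 * n + t) * lamI (4 * n + 3 * t)) with hT
    set Q : ℝ := roughC z M N t / (Vz z * L) ^ 2 with hQ
    have hVp := Vz_pos z
    have hQ0 : 0 ≤ Q := by positivity
    have hQL : (roughC z M N t : ℝ) / (Vz z) ^ 2 = Q * L ^ 2 := by
      rw [hQ, mul_pow]
      field_simp
    have hJT : J t = |T - Q * L ^ 2| := by
      rw [hJ, ← hQL, ← model_eqC z M N t ht, hT, ← sum_sub_distrib]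
      simp only
      congr 1
      refine sum_congr rfl fun n _ => ?_
      rw [mul_sub]
    rw [hJT] at hcon
    obtain ⟨t1, t2⟩ := abs_lt.1 hcon
    obtain ⟨c1, c2⟩ := pairsC_w M N (by omega) t ht
    obtain ⟨d1, d2⟩ := pp_two N (by omega) t ht (fun n => if n ∈ M then (1 : ℝ) else 0) 1 hm0 hm1
    rw [← hT] at d1 d2
    set TP := ∑ n ∈ Ioc N (2 * N), (if n ∈ M then (1 : ℝ) else 0) * (lamP (2 * n + t) * lamP (4 * n + 3 * t)) with hTP
    have hP0 : (0 : ℝ) ≤ pairsC M N t := Nat.cast_nonneg _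
    set P : ℝ := (pairsC M N t : ℝ) with hP
    have hK1 : (N : ℝ) / L ^ K = L * (N / L ^ (K + 1)) := by
      rw [pow_add L K 1]
      field_simp
    set w : ℝ := N / L ^ (K + 1) with hw
    have hL2 : 1 ≤ L ^ 2 := one_le_pow₀ hL1
    have hsm : 1 * (l * (2 * (2 * √((11 * N : ℕ) : ℝ) * l))) ≤ w := by
      have hsq : √((11 * N : ℕ) : ℝ) ≤ 4 * √(N : ℝ) := by
        push_cast
        rw [Real.sqrt_mul (by norm_num)]
        apply mul_le_mul_of_nonneg_right _ (Real.sqrt_nonneg _)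
        rw [Real.sqrt_le_left (by norm_num)]
        norm_num
      calc 1 * (l * (2 * (2 * √((11 * N : ℕ) : ℝ) * l))) ≤ 1 * ((2 * L) * (2 * (2 * (4 * √(N : ℝ)) * (2 * L)))) := by
            gcongr
        _ = 64 * L ^ 2 * √(N : ℝ) := by ring
        _ ≤ L ^ 3 * √(N : ℝ) := by
          apply mul_le_mul_of_nonneg_right _ (Real.sqrt_nonneg _)
          nlinarith
        _ ≤ w := by
          rw [hw, le_div_iff₀ (by positivity)]
          calc L ^ 3 * √(N : ℝ) * L ^ (K + 1) = L ^ (K + 4) * √(N : ℝ) := by ring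
            _ ≤ √(N : ℝ) * √(N : ℝ) := mul_le_mul_of_nonneg_right b3 (Real.sqrt_nonneg _)
            _ = N := Real.mul_self_sqrt hN0.le
    have upper : P ≤ Q + (ε * Q + N / L ^ K) := by
      have e1 : L ^ 2 * P ≤ L ^ 2 * (Q + (ε * Q + N / L ^ K)) := by
        have e2 : L ^ 2 * (Q + (ε * Q + N / L ^ K)) = Q * L ^ 2 + ε * Q * L ^ 2 + L * (L ^ 2 * w) := by
          rw [hK1]; ring
        rw [e2]
        have e4 : 0 ≤ ε * Q * L ^ 2 := by positivity
        have e6 : w ≤ L ^ 2 * w := le_mul_of_one_le_left hNL.le hL2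
        have e7 : L ^ 2 * w ≤ L * (L ^ 2 * w) := le_mul_of_one_le_left (by positivity) hL1
        linarith
      exact le_of_mul_le_mul_left e1 (by positivity)
    have lower : Q - (ε * Q + N / L ^ K) ≤ P := by
      have c3 : TP ≤ ((1 + δ) * L) ^ 2 * P := by
        refine c2.trans (mul_le_mul_of_nonneg_right ?_ hP0)
        exact pow_le_pow_left₀ hl0 (by rw [hlL]; linarith) 2
      have e1 : ((1 + δ) * L) ^ 2 * (Q - (ε * Q + N / L ^ K)) ≤ ((1 + δ) * L) ^ 2 * P := by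
        have e2 : ((1 + δ) * L) ^ 2 * (Q - (ε * Q + N / L ^ K)) = ((1 - ε) * (1 + δ) ^ 2) * (Q * L ^ 2) - (1 + δ) ^ 2 * L * (L ^ 2 * w) := by
          rw [hK1]; ring
        rw [e2]
        have e3 : (1 - ε) * (1 + δ) ^ 2 ≤ 1 := by
          have h9 : (1 - ε) * (1 + δ) ^ 2 ≤ 1 - δ := hδa
          linarith
        have e4 : ((1 - ε) * (1 + δ) ^ 2) * (Q * L ^ 2) ≤ Q * L ^ 2 := by
          have : 0 ≤ Q * L ^ 2 := by positivity
          nlinarith
        have e5 : 2 * w ≤ (1 + δ) ^ 2 * L * (L ^ 2 * w) := by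
          have e6 : w ≤ L ^ 2 * w := le_mul_of_one_le_left hNL.le hL2
          have e7 : 2 ≤ (1 + δ) ^ 2 * L := by
            have : 1 ≤ (1 + δ) ^ 2 := one_le_pow₀ (by linarith)
            nlinarith
          exact mul_le_mul e7 e6 hNL.le (by positivity)
        linarith
      exact le_of_mul_le_mul_left e1 (by positivity)
    rw [abs_le]
    constructor <;> linarith
  have hcard : (bad.card : ℝ) * ((N : ℝ) / L ^ (K + 1)) ≤ (N : ℝ) ^ 2 / L ^ (U + K + 1) := by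
    refine le_trans ?_ key
    calc (bad.card : ℝ) * ((N : ℝ) / L ^ (K + 1)) = ∑ _h ∈ bad, (N : ℝ) / L ^ (K + 1) := by rw [sum_const, nsmul_eq_mul]
      _ ≤ ∑ h ∈ bad, J h := sum_le_sum hgood
      _ ≤ ∑ h ∈ Icc (-(N : ℤ)) N, J h := sum_le_sum_of_subset_of_nonneg (filter_subset _ _) (fun _ _ _ => abs_nonneg _)
  have e : (N : ℝ) ^ 2 / L ^ (U + K + 1) = (N / L ^ U) * (N / L ^ (K + 1)) := by
    rw [show U + K + 1 = U + (K + 1) by ring, pow_add L U (K + 1)]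
    field_simp
  rw [e] at hcard
  exact le_of_mul_le_mul_right hcard hNL

end Pool.Agent.E8helper28.LN
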