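import Pool.Agent.E8helper28.LN.Tri

set_option autoImplicit false

/-!
# Linear patterns of complexity two with arbitrary weights (helper28): the Cauchy-Schwarz step
-/

namespace Pool.Agent.E8helper28.LN

open Finset
open Pool.Agent.H807R2.Dav (ee norm_ee ee_add ee_int ee_zero ee_pow ee_eq)
open Pool.Agent.E8helper81.GB (orth pars xt xt_out xt_in xt_abs max_h)
open Pool.Agent.E8helper66.GB (FF)

/-- the form with four factors -/
noncomputable def T4 (M : ℕ) (u v c r s : ℤ) (f g k e : ℤ → ℝ) : ℝ :=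
  ∑ x ∈ Icc (-(M : ℤ)) M, ∑ y ∈ Icc (-(M : ℤ)) M, f x * g y * k (u * x + v * y + c) * e (r * x + s * y)

/-- the real trilinear form -/
noncomputable def TR (M : ℕ) (u v c : ℤ) (f g k : ℤ → ℝ) : ℝ :=
  ∑ x ∈ Icc (-(M : ℤ)) M, ∑ y ∈ Icc (-(M : ℤ)) M, f x * g y * k (u * x + v * y + c)

lemma TR_cast (M : ℕ) (u v c : ℤ) (f g k : ℤ → ℝ) :
    |TR M u v c f g k| = ‖TT M u v c (fun x => (f x : ℂ)) (fun x => (g x : ℂ)) (fun x => (k x : ℂ))‖ := by
  have : TT M u v c (fun x => (f x : ℂ)) (fun x => (g x : ℂ)) (fun x => (k x : ℂ)) = ((TR M u v c f g k : ℝ) : ℂ) := by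
    unfold TT TR
    push_cast
    rfl
  rw [this, Complex.norm_real, Real.norm_eq_abs]

/-- the lattice points on a line -/
lemma line_sum (M : ℕ) (r s a b : ℤ) (hab : a * r + b * s = 1) (x y : ℤ) (hx : x ∈ Icc (-(M : ℤ)) M) (hy : y ∈ Icc (-(M : ℤ)) M)
    (Φ : ℤ → ℤ → ℝ) (hΦ : ∀ x y, ¬ (x ∈ Icc (-(M : ℤ)) M ∧ y ∈ Icc (-(M : ℤ)) M) → Φ x y = 0) :
    ∑ x' ∈ Icc (-(M : ℤ)) M, ∑ y' ∈ Icc (-(M : ℤ)) M, (if r * x' + s * y' = r * x + s * y then Φ x' y' else 0) =
      ∑ k ∈ Icc (-(2 * (M : ℤ))) (2 * M), Φ (x + s * k) (y - r * k) := by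
  rw [← sum_product', ← sum_filter]
  have h1 : ∑ k ∈ Icc (-(2 * (M : ℤ))) (2 * M), Φ (x + s * k) (y - r * k) =
      ∑ k ∈ (Icc (-(2 * (M : ℤ))) (2 * M)).filter (fun k => x + s * k ∈ Icc (-(M : ℤ)) M ∧ y - r * k ∈ Icc (-(M : ℤ)) M),
        Φ (x + s * k) (y - r * k) := by
    rw [sum_filter]
    refine sum_congr rfl fun k _ => ?_
    by_cases h : x + s * k ∈ Icc (-(M : ℤ)) M ∧ y - r * k ∈ Icc (-(M : ℤ)) M
    · rw [if_pos h]
    · rw [if_neg h, hΦ _ _ h]
  rw [h1]
  symm
  refine sum_nbij (fun k => (x + s * k, y - r * k)) ?_ ?_ ?_ ?_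
  · intro k hk
    rw [mem_filter] at hk ⊢
    rw [mem_product]
    refine ⟨hk.2, ?_⟩
    simp only
    ring
  · intro k _ l _ h
    simp only [Prod.mk.injEq] at h
    have e1 : s * k = s * l := by linarith [h.1]
    have e2 : r * k = r * l := by linarith [h.2]
    calc k = (a * r + b * s) * k := by rw [hab, one_mul]
      _ = a * (r * k) + b * (s * k) := by ring
      _ = a * (r * l) + b * (s * l) := by rw [e1, e2]
      _ = (a * r + b * s) * l := by ring
      _ = l := by rw [hab, one_mul]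
  · intro p hp
    rw [mem_coe, mem_filter, mem_product] at hp
    obtain ⟨⟨hp1, hp2⟩, hp3⟩ := hp
    set k := b * (p.1 - x) - a * (p.2 - y) with hk
    have e1 : s * k = p.1 - x := by
      have : s * k = (a * r + b * s) * (p.1 - x) - a * ((r * p.1 + s * p.2) - (r * x + s * y)) := by rw [hk]; ring
      rw [this, hab, hp3]; ring
    have e2 : r * k = -(p.2 - y) := by
      have : r * k = -((a * r + b * s) * (p.2 - y)) + b * ((r * p.1 + s * p.2) - (r * x + s * y)) := by rw [hk]; ring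
      rw [this, hab, hp3]; ring
    refine ⟨k, ?_, ?_⟩
    · rw [mem_coe, mem_filter, e1, e2]
      rw [mem_Icc] at hp1 hp2 hx hy ⊢
      refine ⟨?_, ?_, ?_⟩
      · rw [← abs_le]
        have h2 : s ≠ 0 ∨ r ≠ 0 := by
          by_contra hcon
          push Not at hcon
          rw [hcon.1, hcon.2] at hab
          simp at hab
        rcases h2 with h2 | h2
        · have : |k| ≤ |s * k| := by
            rw [abs_mul]
            have h3 := Int.one_le_abs h2
            have h4 := abs_nonneg k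
            nlinarith
          refine this.trans ?_
          rw [e1, abs_le]
          constructor <;> omega
        · have : |k| ≤ |r * k| := by
            rw [abs_mul]
            have h3 := Int.one_le_abs h2
            have h4 := abs_nonneg k
            nlinarith
          refine this.trans ?_
          rw [e2, abs_le]
          constructor <;> omega
      · rw [mem_Icc]; constructor <;> omega
      · rw [mem_Icc]; constructor <;> omega
    · simp only
      rw [e1, e2]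
      ext <;> simp
  · intro k _
    rfl

/-- the Cauchy-Schwarz step -/
lemma cs4 (M : ℕ) (u v c r s : ℤ) (hrs : IsCoprime r s) (f g k e : ℤ → ℝ)
    (hf : ∀ x : ℤ, x ∉ Icc (-(M : ℤ)) M → f x = 0) (hg : ∀ x : ℤ, x ∉ Icc (-(M : ℤ)) M → g x = 0) (he : ∀ x, |e x| ≤ 1) :
    T4 M u v c r s f g k e ^ 2 ≤ (2 * ((|r| + |s|) * M : ℤ) + 1 : ℝ) * ∑ j ∈ Icc (-(2 * (M : ℤ))) (2 * M),
      ‖TT M u v c (fun x => ((f x * f (x + s * j) : ℝ) : ℂ)) (fun x => ((g x * g (x - r * j) : ℝ) : ℂ))
        (fun x => ((k x * k (x + (u * s - v * r) * j) : ℝ) : ℂ))‖ := by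
  obtain ⟨a, b, hab⟩ := hrs
  set W : ℤ := (|r| + |s|) * M with hW
  have hW0 : 0 ≤ W := by positivity
  set F : ℤ → ℝ := fun m => ∑ x ∈ Icc (-(M : ℤ)) M, ∑ y ∈ Icc (-(M : ℤ)) M,
    if r * x + s * y = m then f x * g y * k (u * x + v * y + c) else 0 with hF
  have h1 : T4 M u v c r s f g k e = ∑ m ∈ Icc (-W) W, e m * F m := by
    rw [T4, hF]
    have e1 : ∀ m ∈ Icc (-W) W, e m * (∑ x ∈ Icc (-(M : ℤ)) M, ∑ y ∈ Icc (-(M : ℤ)) M,
        if r * x + s * y = m then f x * g y * k (u * x + v * y + c) else 0) =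
        ∑ x ∈ Icc (-(M : ℤ)) M, ∑ y ∈ Icc (-(M : ℤ)) M,
        if r * x + s * y = m then f x * g y * k (u * x + v * y + c) * e m else 0 := by
      intro m _
      rw [mul_sum]
      refine sum_congr rfl fun x _ => ?_
      rw [mul_sum]
      refine sum_congr rfl fun y _ => ?_
      split_ifs <;> ring
    simp only
    rw [sum_congr rfl e1]
    symm
    conv_lhs => rw [sum_comm]
    refine sum_congr rfl fun x hx => ?_
    conv_lhs => rw [sum_comm]
    refine sum_congr rfl fun y hy => ?_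
    rw [sum_ite_eq, if_pos]
    rw [mem_Icc] at hx hy ⊢
    rw [← abs_le]
    have q1 : |r * x| ≤ |r| * M := by
      rw [abs_mul]
      exact mul_le_mul_of_nonneg_left (abs_le.2 hx) (abs_nonneg _)
    have q2 : |s * y| ≤ |s| * M := by
      rw [abs_mul]
      exact mul_le_mul_of_nonneg_left (abs_le.2 hy) (abs_nonneg _)
    have q3 := abs_add_le (r * x) (s * y)
    rw [hW]
    linarith
  have h2 : T4 M u v c r s f g k e ^ 2 ≤ (2 * (W : ℝ) + 1) * ∑ m ∈ Icc (-W) W, F m ^ 2 := by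
    rw [h1]
    calc (∑ m ∈ Icc (-W) W, e m * F m) ^ 2 ≤ (∑ m ∈ Icc (-W) W, e m ^ 2) * ∑ m ∈ Icc (-W) W, F m ^ 2 :=
          sum_mul_sq_le_sq_mul_sq _ _ _
      _ ≤ (2 * (W : ℝ) + 1) * ∑ m ∈ Icc (-W) W, F m ^ 2 := by
        refine mul_le_mul_of_nonneg_right ?_ (sum_nonneg fun _ _ => sq_nonneg _)
        calc ∑ m ∈ Icc (-W) W, e m ^ 2 ≤ ∑ m ∈ Icc (-W) W, (1 : ℝ) := by
              refine sum_le_sum fun m _ => ?_
              rw [← sq_abs]
              exact pow_le_one₀ (abs_nonneg _) (he m)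
          _ = 2 * (W : ℝ) + 1 := by
            rw [sum_const, nsmul_eq_mul, Int.card_Icc, mul_one]
            have : (((W + 1 - -W).toNat : ℕ) : ℤ) = 2 * W + 1 := by rw [Int.toNat_of_nonneg (by omega)]; ring
            exact_mod_cast this
  refine h2.trans (mul_le_mul_of_nonneg_left ?_ (by positivity))
  -- expand the square
  have h3 : ∑ m ∈ Icc (-W) W, F m ^ 2 ≤ ∑ x ∈ Icc (-(M : ℤ)) M, ∑ y ∈ Icc (-(M : ℤ)) M, ∑ x' ∈ Icc (-(M : ℤ)) M, ∑ y' ∈ Icc (-(M : ℤ)) M,
      if r * x' + s * y' = r * x + s * y then (f x * g y * k (u * x + v * y + c)) * (f x' * g y' * k (u * x' + v * y' + c)) else 0 := by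
    refine le_of_eq ?_
    have e1 : ∀ m ∈ Icc (-W) W, F m ^ 2 = ∑ x ∈ Icc (-(M : ℤ)) M, ∑ y ∈ Icc (-(M : ℤ)) M,
        if r * x + s * y = m then (f x * g y * k (u * x + v * y + c)) * F m else 0 := by
      intro m _
      have q : F m ^ 2 = (∑ x ∈ Icc (-(M : ℤ)) M, ∑ y ∈ Icc (-(M : ℤ)) M,
          if r * x + s * y = m then f x * g y * k (u * x + v * y + c) else 0) * F m := by rw [sq]
      rw [q, sum_mul]
      refine sum_congr rfl fun x _ => ?_
      rw [sum_mul]
      refine sum_congr rfl fun y _ => ?_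
      rw [ite_mul, zero_mul]
    rw [sum_congr rfl e1]
    conv_lhs => rw [sum_comm]
    refine sum_congr rfl fun x hx => ?_
    conv_lhs => rw [sum_comm]
    refine sum_congr rfl fun y hy => ?_
    rw [sum_ite_eq, if_pos]
    · rw [hF]
      simp only
      rw [mul_sum]
      refine sum_congr rfl fun x' _ => ?_
      rw [mul_sum]
      refine sum_congr rfl fun y' _ => ?_
      rw [mul_ite, mul_zero]
    · rw [mem_Icc] at hx hy ⊢
      rw [← abs_le]
      have q1 : |r * x| ≤ |r| * M := by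
        rw [abs_mul]
        exact mul_le_mul_of_nonneg_left (abs_le.2 hx) (abs_nonneg _)
      have q2 : |s * y| ≤ |s| * M := by
        rw [abs_mul]
        exact mul_le_mul_of_nonneg_left (abs_le.2 hy) (abs_nonneg _)
      have q3 := abs_add_le (r * x) (s * y)
      rw [hW]
      linarith
  refine h3.trans ?_
  have h4 : ∀ x ∈ Icc (-(M : ℤ)) M, ∀ y ∈ Icc (-(M : ℤ)) M, ∑ x' ∈ Icc (-(M : ℤ)) M, ∑ y' ∈ Icc (-(M : ℤ)) M,
      (if r * x' + s * y' = r * x + s * y then (f x * g y * k (u * x + v * y + c)) * (f x' * g y' * k (u * x' + v * y' + c)) else 0) =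
      ∑ j ∈ Icc (-(2 * (M : ℤ))) (2 * M), (f x * f (x + s * j)) * (g y * g (y - r * j)) *
        (k (u * x + v * y + c) * k ((u * x + v * y + c) + (u * s - v * r) * j)) := by
    intro x hx y hy
    rw [line_sum M r s a b hab x y hx hy (fun x' y' => (f x * g y * k (u * x + v * y + c)) * (f x' * g y' * k (u * x' + v * y' + c)))]
    · refine sum_congr rfl fun j _ => ?_
      rw [show u * (x + s * j) + v * (y - r * j) + c = (u * x + v * y + c) + (u * s - v * r) * j by ring]
      ring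
    · intro x' y' h
      by_cases h5 : x' ∈ Icc (-(M : ℤ)) M
      · rw [hg y' (fun h6 => h ⟨h5, h6⟩)]; ring
      · rw [hf x' h5]; ring
  rw [sum_congr rfl fun x hx => sum_congr rfl fun y hy => h4 x hx y hy]
  rw [sum_congr rfl fun x hx => sum_comm, sum_comm]
  refine sum_le_sum fun j _ => ?_
  have h5 := TR_cast M u v c (fun x => f x * f (x + s * j)) (fun x => g x * g (x - r * j)) (fun x => k x * k (x + (u * s - v * r) * j))
  refine le_trans ?_ h5.le
  exact le_abs_self _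

end Pool.Agent.E8helper28.LN
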