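import Pool.Agent.E8helper28.LN.Gvn

set_option autoImplicit false

/-!
# Linear patterns of complexity two with arbitrary weights (helper28): the inequality
-/

namespace Pool.Agent.E8helper28.LN

open Finset
open Pool.Agent.H807R2.Dav (ee norm_ee ee_add ee_int ee_zero ee_pow ee_eq)
open Pool.Agent.E8helper81.GB (orth pars xt xt_out xt_in xt_abs max_h)
open Pool.Agent.E8helper66.GB (FF)

lemma max_h' (N R : ℕ) (hR : 0 < R) (f : ℕ → ℝ) (V : ℝ)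
    (hV : ∀ (κ : ℤ → ℂ) (θ : ℤ → ℝ), (∀ h, ‖κ h‖ ≤ 1) →
      ‖∑ x ∈ Icc 1 N, (f x : ℂ) * FF N (fun y => (f y : ℂ)) κ θ x‖ ≤ V) :
    ∃ M' : ℤ → ℝ, (∀ h, ∀ j ∈ range R, ‖∑ s ∈ Icc (1 : ℤ) N, ((xt N f s * xt N f (s + h) : ℝ) : ℂ) *
      ee ((j : ℝ) * ((s : ℝ) / R))‖ ≤ M' h) ∧ (∀ h, 0 ≤ M' h) ∧ ∀ (p : ℤ) (_ : p ≠ 0) (K : ℤ), ∑ j ∈ Icc (-K) K, M' (p * j) ≤ V := by
  obtain ⟨Mh, h1, h2⟩ := max_h N R hR f V hV
  have h0 : ∀ h, 0 ≤ Mh h := fun h => (norm_nonneg _).trans (h1 h 0 (mem_range.2 hR))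
  refine ⟨fun h => if h ∈ Icc (-(N : ℤ)) N then Mh h else 0, ?_, ?_, ?_⟩
  · intro h j hj
    simp only
    split_ifs with h3
    · exact h1 h j hj
    · refine le_of_eq ?_
      rw [norm_eq_zero]
      refine sum_eq_zero fun s hs => ?_
      rw [mem_Icc] at hs h3
      rw [xt_out N f (s + h) (by omega)]
      simp
  · intro h
    simp only
    split_ifs
    · exact h0 h
    · exact le_rfl
  · intro p hp K
    simp only
    rw [← sum_filter (s := Icc (-K) K) (p := fun j => p * j ∈ Icc (-(N : ℤ)) N) (f := fun j => Mh (p * j))]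
    refine le_trans ?_ h2
    have h3 : ∑ j ∈ (Icc (-K) K).filter (fun j => p * j ∈ Icc (-(N : ℤ)) N), Mh (p * j) =
        ∑ h ∈ ((Icc (-K) K).filter (fun j => p * j ∈ Icc (-(N : ℤ)) N)).image (fun j => p * j), Mh h := by
      rw [sum_image]
      intro a _ b _ hab
      exact mul_left_cancel₀ hp hab
    rw [h3]
    refine sum_le_sum_of_subset_of_nonneg ?_ (fun h _ _ => h0 h)
    intro h hh
    rw [mem_image] at hh
    obtain ⟨j, hj, rfl⟩ := hh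
    exact (mem_filter.1 hj).2

/-- the inequality: uniformity controls patterns with arbitrary weights on three of the four forms -/
theorem gvn (M N : ℕ) (hNM : N ≤ M) (u v c r s : ℤ) (hu : u ≠ 0) (hv : v ≠ 0) (hrs : IsCoprime r s) (f : ℕ → ℝ)
    (V G : ℝ) (hG : 0 ≤ G)
    (hV : ∀ (κ : ℤ → ℂ) (θ : ℤ → ℝ), (∀ h, ‖κ h‖ ≤ 1) →
      ‖∑ x ∈ Icc 1 N, (f x : ℂ) * FF N (fun y => (f y : ℂ)) κ θ x‖ ≤ V)
    (g k e : ℤ → ℝ) (hg : ∀ x, |g x| ≤ G) (hk : ∀ x, |k x| ≤ G) (he : ∀ x, |e x| ≤ 1)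
    (hg0 : ∀ x : ℤ, x ∉ Icc (-(M : ℤ)) M → g x = 0) (hk0 : ∀ x : ℤ, x ∉ Icc (-(M : ℤ)) M → k x = 0) :
    (s ≠ 0 → T4 M u v c r s (xt N f) g k e ^ 2 ≤ (2 * ((|r| + |s|) * M : ℤ) + 1 : ℝ) * (V * ((2 * M + 1) * G ^ 4))) ∧
    (r ≠ 0 → T4 M u v c r s g (xt N f) k e ^ 2 ≤ (2 * ((|r| + |s|) * M : ℤ) + 1 : ℝ) * (V * ((2 * M + 1) * G ^ 4))) ∧
    (u * s - v * r ≠ 0 → T4 M u v c r s g k (xt N f) e ^ 2 ≤
      (2 * ((|r| + |s|) * M : ℤ) + 1 : ℝ) * (V * ((2 * M + 1) * G ^ 4))) := by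
  set R : ℕ := (2 * ((|u| + |v| + 1) * M + |c|)).toNat + 1 with hR
  have hR1 : (2 * ((|u| + |v| + 1) * M + |c|) : ℤ) < R := by
    rw [hR]; push_cast
    have := Int.self_le_toNat (2 * ((|u| + |v| + 1) * M + |c|))
    linarith
  have hR0 : 0 < R := by rw [hR]; omega
  obtain ⟨M', hM1, hM0, hM2⟩ := max_h' N R hR0 f V hV
  have hWnn : (0 : ℝ) ≤ (2 * ((|r| + |s|) * M : ℤ) + 1 : ℝ) := by
    have : (0 : ℤ) ≤ (|r| + |s|) * M := by positivity
    have h2 : (0 : ℝ) ≤ (((|r| + |s|) * M : ℤ) : ℝ) := by exact_mod_cast this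
    linarith
  have hf0 : ∀ x : ℤ, x ∉ Icc (-(M : ℤ)) M → xt N f x = 0 := by
    intro x hx
    rw [mem_Icc] at hx
    exact xt_out N f x (by omega)
  have hprod : ∀ (g : ℤ → ℝ), (∀ x, |g x| ≤ G) → ∀ (x y : ℤ), ‖((g x * g y : ℝ) : ℂ)‖ ≤ G ^ 2 := by
    intro g hg x y
    rw [Complex.norm_real, Real.norm_eq_abs, abs_mul, sq]
    exact mul_le_mul (hg _) (hg _) (abs_nonneg _) hG
  have hG4 : ∀ m : ℝ, m * ((2 * M + 1) * (G ^ 2) ^ 2) = m * ((2 * M + 1) * G ^ 4) := by intro m; ring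
  have hsum : ∀ (p : ℤ) (_ : p ≠ 0), ∑ j ∈ Icc (-(2 * (M : ℤ))) (2 * M), M' (p * j) * ((2 * M + 1) * G ^ 4) ≤ V * ((2 * M + 1) * G ^ 4) := by
    intro p hp
    rw [← sum_mul]
    exact mul_le_mul_of_nonneg_right (hM2 p hp _) (by positivity)
  refine ⟨fun hs => ?_, fun hr => ?_, fun hd => ?_⟩
  · refine (cs4 M u v c r s hrs _ _ _ _ hf0 hg0 he).trans (mul_le_mul_of_nonneg_left ?_ hWnn)
    refine le_trans (sum_le_sum fun j _ => ?_) (hsum s hs)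
    have h1 := (TT_bounds M N R u v c hu hv hR1 hNM f (s * j) (M' (s * j)) (G ^ 2) (hM1 (s * j))
      (fun x => ((g x * g (x - r * j) : ℝ) : ℂ)) (fun x => ((k x * k (x + (u * s - v * r) * j) : ℝ) : ℂ))
      (fun x => hprod g hg _ _) (fun x => hprod k hk _ _) ?_).1
    · rw [hG4] at h1
      exact h1
    · intro w hw
      rw [hk0 w (by rw [mem_Icc]; exact hw)]
      simp
  · refine (cs4 M u v c r s hrs _ _ _ _ hg0 hf0 he).trans (mul_le_mul_of_nonneg_left ?_ hWnn)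
    refine le_trans (sum_le_sum fun j _ => ?_) (hsum (-r) (by omega))
    have h1 := (TT_bounds M N R u v c hu hv hR1 hNM f (-r * j) (M' (-r * j)) (G ^ 2) (hM1 (-r * j))
      (fun x => ((g x * g (x + s * j) : ℝ) : ℂ)) (fun x => ((k x * k (x + (u * s - v * r) * j) : ℝ) : ℂ))
      (fun x => hprod g hg _ _) (fun x => hprod k hk _ _) ?_).2.1
    · rw [hG4] at h1
      have e1 : (fun x => ((xt N f x * xt N f (x - r * j) : ℝ) : ℂ)) = Df N f (-r * j) := by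
        funext x
        unfold Df
        rw [show x - r * j = x + -r * j by ring]
      rw [e1]
      exact h1
    · intro w hw
      rw [hk0 w (by rw [mem_Icc]; exact hw)]
      simp
  · refine (cs4 M u v c r s hrs _ _ _ _ hg0 hk0 he).trans (mul_le_mul_of_nonneg_left ?_ hWnn)
    refine le_trans (sum_le_sum fun j _ => ?_) (hsum (u * s - v * r) hd)
    have h1 := (TT_bounds M N R u v c hu hv hR1 hNM f ((u * s - v * r) * j) (M' ((u * s - v * r) * j)) (G ^ 2)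
      (hM1 ((u * s - v * r) * j))
      (fun x => ((g x * g (x + s * j) : ℝ) : ℂ)) (fun x => ((k x * k (x - r * j) : ℝ) : ℂ))
      (fun x => hprod g hg _ _) (fun x => hprod k hk _ _) ?_).2.2
    · rw [hG4] at h1
      exact h1
    · intro w hw
      rw [hk0 w (by rw [mem_Icc]; exact hw)]
      simp

end Pool.Agent.E8helper28.LN
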