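import Pool.Agent.E8helper28.LN.Avg2
import Pool.Agent.TH935.TF4

set_option autoImplicit false
set_option maxHeartbeats 4000000

/-!
# Prime tuples on hyperplanes (helper28): one line of shifts, with arbitrary bounded weights
-/

namespace Pool.Agent.E8helper28.LN

open Finset
open Pool.Agent.E8helper81.GB (xt xt_out xt_in xt_abs)
open Pool.Agent.E8helper66.GB (FF DD S_U3)
open Pool.Agent.H373R2.T7 (lamz pz Vz Vz_pos lamz_nonneg mem_pz Vz_inv_small lamI lamzI)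
open Pool.Agent.TH935.TF (LL mdl LL_sub Dz_one)

/-- `Λ(|m|)` minus its sieve model -/
noncomputable def Ds (z : ℕ) (m : ℤ) : ℝ := LL m - mdl z m

lemma Ds_eq (z : ℕ) (hz : 2 ≤ z) (M : ℕ) (x : ℤ) (hx : x ∈ Icc (-(M : ℤ)) M) :
    Ds z x = xt M (dz z) x + xt M (dz z) (-x) := by
  rw [mem_Icc] at hx
  unfold Ds
  rw [LL_sub z hz, Dz_one, Dz_one]
  have h : ∀ y : ℤ, y ≤ M → lamI y - lamzI z y = xt M (dz z) y := by
    intro y hy
    unfold lamI lamzI xt dz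
    by_cases h1 : 1 ≤ y
    · rw [if_pos h1, if_pos h1, if_pos ⟨h1, hy⟩]
    · rw [if_neg h1, if_neg h1, if_neg (fun h => h1 h.1), sub_zero]
  rw [h x hx.2, h (-x) (by omega)]

theorem T4_two (hU3 : S_U3) (U : ℕ) : ∃ B : ℕ, ∀ K : ℕ, ∃ N₀ : ℕ, ∀ N : ℕ, N₀ ≤ N → ∀ z : ℕ, Real.log N ^ B ≤ z →
    (z : ℝ) ≤ Real.log N ^ K → ∀ (M : ℕ), N ≤ M → M ≤ 2 * N → ∀ (u v c r s : ℤ), u ≠ 0 → v ≠ 0 → IsCoprime r s → |r| + |s| ≤ 2 →
    s ≠ 0 → ∀ (g k e : ℤ → ℝ), (∀ x, |g x| ≤ 1) → (∀ x, |k x| ≤ 1) → (∀ x, |e x| ≤ 1) →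
    (∀ x : ℤ, x ∉ Icc (-(M : ℤ)) M → g x = 0) → (∀ x : ℤ, x ∉ Icc (-(M : ℤ)) M → k x = 0) →
    |T4 M u v c r s (xt N (dz z)) g k e| ≤ (N : ℝ) ^ 2 / Real.log N ^ U := by
  obtain ⟨B, hB⟩ := hU3 (2 * U + 1)
  refine ⟨B, fun K => ?_⟩
  obtain ⟨N₀, h0⟩ := hB K
  have hlim : Filter.Tendsto (fun N : ℕ => Real.log (N : ℝ)) Filter.atTop Filter.atTop :=
    Real.tendsto_log_atTop.comp (tendsto_natCast_atTop_atTop (R := ℝ))
  obtain ⟨N₂, hN₂⟩ := Filter.eventually_atTop.1 (hlim.eventually_ge_atTop 45)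
  refine ⟨max N₀ (max N₂ 1), fun N hN z hz1 hz2 M hNM hM2 u v c r s hu hv hrs hrs2 hs g k e hg hk he hg0 hk0 => ?_⟩
  have b0 : N₀ ≤ N := (le_max_left _ _).trans hN
  have b2 : N₂ ≤ N := ((le_max_left _ _).trans (le_max_right _ _)).trans hN
  have b3 : 1 ≤ N := ((le_max_right _ _).trans (le_max_right _ _)).trans hN
  have hL := hN₂ N b2
  set L := Real.log (N : ℝ) with hLd
  have hN1 : (1 : ℝ) ≤ N := by exact_mod_cast b3
  have hM2' : (M : ℝ) ≤ 2 * N := by exact_mod_cast hM2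
  have hL0 : 0 < L := by linarith
  have hV := h0 N b0 z hz1 hz2
  have key := (gvn M N hNM u v c r s hu hv hrs (dz z) ((N : ℝ) ^ 2 / L ^ (2 * U + 1)) 1 zero_le_one
    (fun κ θ hκ => hV κ θ hκ) g k e hg hk he hg0 hk0).1 hs
  have hbd : (2 * ((|r| + |s|) * M : ℤ) + 1 : ℝ) * ((N : ℝ) ^ 2 / L ^ (2 * U + 1) * ((2 * M + 1) * 1 ^ 4)) ≤
      ((N : ℝ) ^ 2 / L ^ U) ^ 2 := by
    have e1 : (2 * ((|r| + |s|) * M : ℤ) + 1 : ℝ) ≤ 9 * N := by
      have h1 : (|r| + |s|) * (M : ℤ) ≤ 2 * M := mul_le_mul_of_nonneg_right hrs2 (Nat.cast_nonneg _)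
      have h2 : (((|r| + |s|) * M : ℤ) : ℝ) ≤ 2 * M := by exact_mod_cast h1
      linarith
    have e2 : (2 * (M : ℝ) + 1) ≤ 5 * N := by linarith
    have e0 : (0 : ℝ) ≤ 2 * (M : ℝ) + 1 := by positivity
    calc (2 * ((|r| + |s|) * M : ℤ) + 1 : ℝ) * ((N : ℝ) ^ 2 / L ^ (2 * U + 1) * ((2 * M + 1) * 1 ^ 4))
        ≤ (9 * N) * ((N : ℝ) ^ 2 / L ^ (2 * U + 1) * ((5 * N) * 1 ^ 4)) := by gcongr
      _ = (45 / L) * (N ^ 4 / L ^ (2 * U)) := by
        rw [pow_succ L (2 * U)]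
        field_simp
        ring
      _ ≤ 1 * (N ^ 4 / L ^ (2 * U)) := by
        apply mul_le_mul_of_nonneg_right _ (by positivity)
        rw [div_le_one hL0]; linarith
      _ = _ := by
        rw [one_mul, div_pow, ← pow_mul, ← pow_mul]
        congr 2
        ring
  have hpos : 0 ≤ (N : ℝ) ^ 2 / L ^ U := by positivity
  exact abs_le_of_sq_le_sq (key.trans hbd) hpos

lemma neg_sum (M : ℕ) (Φ : ℤ → ℝ) : ∑ x ∈ Icc (-(M : ℤ)) M, Φ (-x) = ∑ x ∈ Icc (-(M : ℤ)) M, Φ x := by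
  refine sum_nbij' (fun x => -x) (fun x => -x) ?_ ?_ ?_ ?_ ?_
  · intro x hx; simp only [mem_Icc] at hx ⊢; omega
  · intro x hx; simp only [mem_Icc] at hx ⊢; omega
  · intro x _; ring
  · intro x _; ring
  · intro x _; rfl

/-- one line: `Ds` at one form, arbitrary bounded functions at the others and an arbitrary bounded function of the difference -/
theorem T3 (hU3 : S_U3) (U : ℕ) : ∃ B : ℕ, ∀ K : ℕ, ∃ N₀ : ℕ, ∀ M : ℕ, N₀ ≤ M → ∀ z : ℕ, Real.log M ^ B ≤ z →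
    (z : ℝ) ≤ Real.log M ^ K → ∀ (u v c : ℤ), v ≠ 0 → ∀ (g k e : ℤ → ℝ), (∀ x, |g x| ≤ 1) → (∀ x, |k x| ≤ 1) →
    (∀ x, |e x| ≤ 1) → (∀ x : ℤ, x ∉ Icc (-(M : ℤ)) M → g x = 0) → (∀ x : ℤ, x ∉ Icc (-(M : ℤ)) M → k x = 0) →
    |∑ x ∈ Icc (-(M : ℤ)) M, ∑ y ∈ Icc (-(M : ℤ)) M, Ds z x * g y * k (u * x + v * y + c) * e (x - y)| ≤
      (M : ℝ) ^ 2 / Real.log M ^ U := by
  obtain ⟨B, hB⟩ := T4_two hU3 (U + 1)
  refine ⟨B + 1, fun K => ?_⟩
  obtain ⟨N₀, h0⟩ := hB K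
  have hlim : Filter.Tendsto (fun N : ℕ => Real.log (N : ℝ)) Filter.atTop Filter.atTop :=
    Real.tendsto_log_atTop.comp (tendsto_natCast_atTop_atTop (R := ℝ))
  obtain ⟨N₂, hN₂⟩ := Filter.eventually_atTop.1 (hlim.eventually_ge_atTop 2)
  refine ⟨max N₀ N₂, fun M hM z hz1 hz2 u v c hv g k e hg hk he hg0 hk0 => ?_⟩
  have b0 : N₀ ≤ M := (le_max_left _ _).trans hM
  have b2 : N₂ ≤ M := (le_max_right _ _).trans hM
  have hL := hN₂ M b2
  have hz1' : Real.log M ^ B ≤ z := (pow_le_pow_right₀ (by linarith) (Nat.le_succ B)).trans hz1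
  have key := h0 M b0 z hz1' hz2
  have hz0 : 2 ≤ z := by
    have h1 : (2 : ℝ) ≤ Real.log M ^ (B + 1) := hL.trans (le_self_pow₀ (by linarith) (by omega))
    exact_mod_cast h1.trans hz1
  set L := Real.log (M : ℝ) with hLd
  have hL0 : 0 < L := by linarith
  have hfin : (M : ℝ) ^ 2 / L ^ (U + 1) + (M : ℝ) ^ 2 / L ^ (U + 1) ≤ (M : ℝ) ^ 2 / L ^ U := by
    have : (M : ℝ) ^ 2 / L ^ (U + 1) = (1 / L) * ((M : ℝ) ^ 2 / L ^ U) := by rw [pow_succ L U]; field_simp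
    rw [this]
    have h1 : 1 / L ≤ 1 / 2 := one_div_le_one_div_of_le (by norm_num) hL
    have h2 : 0 ≤ (M : ℝ) ^ 2 / L ^ U := by positivity
    nlinarith
  have hcop : IsCoprime (1 : ℤ) (-1) := isCoprime_one_left
  have hcop2 : IsCoprime (-1 : ℤ) (-1) := ⟨-1, 0, by norm_num⟩
  by_cases hu : u = 0
  · -- the function `k` depends on `y` only
    subst hu
    set g' : ℤ → ℝ := fun y => if y ∈ Icc (-(M : ℤ)) M then g y * k (v * y + c) else 0 with hg'
    set k' : ℤ → ℝ := fun y => if y ∈ Icc (-((2 * M : ℕ) : ℤ)) ((2 * M : ℕ) : ℤ) then 1 else 0 with hk'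
    have hg1 : ∀ x, |g' x| ≤ 1 := by
      intro x
      rw [hg']
      simp only
      split_ifs
      · rw [abs_mul]
        exact mul_le_one₀ (hg _) (abs_nonneg _) (hk _)
      · simp
    have hk1 : ∀ x, |k' x| ≤ 1 := by
      intro x
      rw [hk']
      simp only
      split_ifs <;> simp
    have hg2 : ∀ x : ℤ, x ∉ Icc (-((2 * M : ℕ) : ℤ)) ((2 * M : ℕ) : ℤ) → g' x = 0 := by
      intro x hx
      rw [hg']
      simp only
      rw [if_neg]
      rw [mem_Icc] at hx ⊢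
      push_cast at hx
      omega
    have hk2 : ∀ x : ℤ, x ∉ Icc (-((2 * M : ℕ) : ℤ)) ((2 * M : ℕ) : ℤ) → k' x = 0 := by
      intro x hx
      rw [hk']
      simp only
      rw [if_neg hx]
    have hT : ∀ (f : ℤ → ℝ), (∀ x : ℤ, x ∉ Icc (-(M : ℤ)) M → f x = 0) → ∀ r : ℤ, (r = 1 ∨ r = -1) →
        T4 (2 * M) 1 1 0 r (-1) f g' k' e =
        ∑ x ∈ Icc (-(M : ℤ)) M, ∑ y ∈ Icc (-(M : ℤ)) M, f x * (g y * k (v * y + c)) * e (r * x - y) := by
      intro f hf r hr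
      unfold T4
      have hsub : Icc (-(M : ℤ)) M ⊆ Icc (-((2 * M : ℕ) : ℤ)) ((2 * M : ℕ) : ℤ) := by
        intro x hx
        rw [mem_Icc] at hx ⊢
        push_cast
        omega
      rw [← sum_subset hsub (fun x _ hx => by
        apply sum_eq_zero
        intro y _
        rw [hf x hx]
        ring)]
      refine sum_congr rfl fun x hx => ?_
      rw [← sum_subset hsub (fun y _ hy => by
        have : g' y = 0 := by
          rw [hg']
          simp only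
          rw [if_neg hy]
        rw [this]
        ring)]
      refine sum_congr rfl fun y hy => ?_
      have h1 : g' y = g y * k (v * y + c) := by
        rw [hg']
        simp only
        rw [if_pos hy]
      have h2 : k' (1 * x + 1 * y + 0) = 1 := by
        rw [hk']
        simp only
        rw [if_pos]
        rw [mem_Icc] at hx hy ⊢
        push_cast
        omega
      rw [h1, h2, show r * x + -1 * y = r * x - y by ring]
      ring
    have hx0 : ∀ x : ℤ, x ∉ Icc (-(M : ℤ)) M → xt M (dz z) x = 0 := by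
      intro x hx
      rw [mem_Icc] at hx
      exact xt_out M _ x (by omega)
    have t1 := key (2 * M) (by omega) le_rfl 1 1 0 1 (-1) (by norm_num) (by norm_num) hcop (by norm_num) (by norm_num)
      g' k' e hg1 hk1 he hg2 hk2
    have t2 := key (2 * M) (by omega) le_rfl 1 1 0 (-1) (-1) (by norm_num) (by norm_num) hcop2 (by norm_num) (by norm_num)
      g' k' e hg1 hk1 he hg2 hk2
    rw [hT _ hx0 1 (Or.inl rfl)] at t1
    rw [hT _ hx0 (-1) (Or.inr rfl)] at t2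
    have e1 : ∑ x ∈ Icc (-(M : ℤ)) M, ∑ y ∈ Icc (-(M : ℤ)) M, Ds z x * g y * k (0 * x + v * y + c) * e (x - y) =
        ∑ x ∈ Icc (-(M : ℤ)) M, ∑ y ∈ Icc (-(M : ℤ)) M, xt M (dz z) x * (g y * k (v * y + c)) * e (1 * x - y) +
        ∑ x ∈ Icc (-(M : ℤ)) M, ∑ y ∈ Icc (-(M : ℤ)) M, xt M (dz z) x * (g y * k (v * y + c)) * e (-1 * x - y) := by
      rw [← neg_sum M (fun x => ∑ y ∈ Icc (-(M : ℤ)) M, xt M (dz z) x * (g y * k (v * y + c)) * e (-1 * x - y)),
        ← sum_add_distrib]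
      refine sum_congr rfl fun x hx => ?_
      rw [← sum_add_distrib]
      refine sum_congr rfl fun y _ => ?_
      rw [Ds_eq z hz0 M x hx, show 0 * x + v * y + c = v * y + c by ring, show -1 * -x - y = x - y by ring,
        show 1 * x - y = x - y by ring]
      ring
    rw [e1]
    exact (abs_add_le _ _).trans ((add_le_add t1 t2).trans hfin)
  · have t1 := key M le_rfl (by omega) u v c 1 (-1) hu hv hcop (by norm_num) (by norm_num) g k e hg hk he hg0 hk0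
    have t2 := key M le_rfl (by omega) (-u) v c (-1) (-1) (by omega) hv hcop2 (by norm_num) (by norm_num) g k e hg hk he hg0 hk0
    have e1 : ∑ x ∈ Icc (-(M : ℤ)) M, ∑ y ∈ Icc (-(M : ℤ)) M, Ds z x * g y * k (u * x + v * y + c) * e (x - y) =
        T4 M u v c 1 (-1) (xt M (dz z)) g k e + T4 M (-u) v c (-1) (-1) (xt M (dz z)) g k e := by
      unfold T4
      rw [← neg_sum M (fun x => ∑ y ∈ Icc (-(M : ℤ)) M, xt M (dz z) x * g y * k (-u * x + v * y + c) * e (-1 * x + -1 * y)),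
        ← sum_add_distrib]
      refine sum_congr rfl fun x hx => ?_
      rw [← sum_add_distrib]
      refine sum_congr rfl fun y _ => ?_
      rw [Ds_eq z hz0 M x hx, show -u * -x + v * y + c = u * x + v * y + c by ring, show -1 * -x + -1 * y = x - y by ring,
        show 1 * x + -1 * y = x - y by ring]
      ring
    rw [e1]
    exact (abs_add_le _ _).trans ((add_le_add t1 t2).trans hfin)

end Pool.Agent.E8helper28.LN
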