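import Pool.Agent.E8helper28.LN.Hp1

set_option autoImplicit false
set_option maxHeartbeats 4000000
set_option linter.unusedSectionVars false

/-!
# Prime tuples on hyperplanes (helper28): sums over the points of a hyperplane
-/

namespace Pool.Agent.E8helper28.LN

open Finset
open Pool.Agent.E8helper66.GB (S_U3)
open Pool.Agent.TH935.TF (LL mdl)

section
variable {ι : Type} [Fintype ι] [DecidableEq ι]

/-- the box -/
noncomputable def bx (ι : Type) [Fintype ι] [DecidableEq ι] (M : ℕ) : Finset (ι → ℤ) := Fintype.piFinset (fun _ => Icc (-(M : ℤ)) M)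

/-- the point with given coordinates `r` and base -/
def rc (γ : ι → ℤ) (q r : ι) (t : ℤ) (w : ι → ℤ) (s y : ℤ) : ι → ℤ := fun j =>
  if j = r then s else if j = q then (-γ r * s + (γ q + γ r) * y + t) / γ q else y + w j

/-- the differences to the base -/
def Ph (p q r : ι) (x : ι → ℤ) : ι → ℤ := fun j => if j = p ∨ j = q ∨ j = r then 0 else x j - x p

lemma rc_r (γ : ι → ℤ) (q r : ι) (t : ℤ) (w : ι → ℤ) (s y : ℤ) : rc γ q r t w s y r = s := if_pos rfl

lemma rc_q (γ : ι → ℤ) (q r : ι) (hqr : q ≠ r) (t : ℤ) (w : ι → ℤ) (s y : ℤ) :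
    rc γ q r t w s y q = (-γ r * s + (γ q + γ r) * y + t) / γ q := by
  unfold rc
  rw [if_neg hqr, if_pos rfl]

lemma rc_j (γ : ι → ℤ) (q r : ι) (t : ℤ) (w : ι → ℤ) (s y : ℤ) (j : ι) (h1 : j ≠ q) (h2 : j ≠ r) :
    rc γ q r t w s y j = y + w j := by
  unfold rc
  rw [if_neg h2, if_neg h1]

lemma rc_shift (γ : ι → ℤ) (q r : ι) (hq : γ q ≠ 0) (t : ℤ) (w : ι → ℤ) (s y : ℤ) :
    rc γ q r t w s y = fun j => rc γ q r t w (s - y) 0 j + y := by
  funext j
  unfold rc
  split_ifs with h1 h2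
  · ring
  · rw [show -γ r * s + (γ q + γ r) * y + t = (-γ r * (s - y) + (γ q + γ r) * 0 + t) + y * γ q by ring,
      Int.add_mul_ediv_right _ _ hq]
  · ring

lemma fiber_sum (γ : ι → ℤ) (hγ : ∑ j, γ j = 0) (p q r : ι) (hpq : p ≠ q) (hpr : p ≠ r) (hqr : q ≠ r) (hq : γ q ≠ 0)
    (c : ℤ) (M : ℕ) (w : ι → ℤ) (hwp : w p = 0) (hwq : w q = 0) (hwr : w r = 0) (F : (ι → ℤ) → ℝ) :
    ∑ x ∈ ((bx ι M).filter (fun x => ∑ j, γ j * x j = c)).filter (fun x => Ph p q r x = w), F x =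
    ∑ s ∈ Icc (-(M : ℤ)) M, ∑ y ∈ Icc (-(M : ℤ)) M,
      if (γ q ∣ -γ r * s + (γ q + γ r) * y + (c - ∑ j, γ j * w j)) ∧ rc γ q r (c - ∑ j, γ j * w j) w s y ∈ bx ι M then
        F (rc γ q r (c - ∑ j, γ j * w j) w s y) else 0 := by
  classical
  set t := c - ∑ j, γ j * w j with ht
  rw [← sum_product', ← sum_filter]
  -- the relation in terms of the base
  have hrel : ∀ x : ι → ℤ, (∀ j, j ≠ q → j ≠ r → x j - x p = w j) →
      ∑ j, γ j * x j - ∑ j, γ j * w j = γ q * (x q - x p) + γ r * (x r - x p) := by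
    intro x hx
    have h1 : ∑ j, γ j * (x j - x p - w j) = γ q * (x q - x p - w q) + γ r * (x r - x p - w r) := by
      refine Fintype.sum_eq_add q r hqr fun j hj => ?_
      rw [hx j hj.1 hj.2, sub_self, mul_zero]
    have h2 : ∑ j, γ j * (x j - x p - w j) = ∑ j, γ j * x j - x p * ∑ j, γ j - ∑ j, γ j * w j := by
      rw [mul_sum, ← sum_sub_distrib, ← sum_sub_distrib]
      refine sum_congr rfl fun j _ => ?_
      ring
    rw [hγ, mul_zero, sub_zero] at h2
    rw [← h2, h1, hwq, hwr, sub_zero, sub_zero]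
  have hfib : ∀ x : ι → ℤ, Ph p q r x = w → ∀ j, j ≠ q → j ≠ r → x j - x p = w j := by
    intro x hx j h1 h2
    by_cases h3 : j = p
    · rw [h3, hwp, sub_self]
    · rw [← hx]
      unfold Ph
      rw [if_neg]
      tauto
  have hrc : ∀ x : ι → ℤ, Ph p q r x = w → ∑ j, γ j * x j = c →
      (-γ r * x r + (γ q + γ r) * x p + t = γ q * x q) ∧ rc γ q r t w (x r) (x p) = x := by
    intro x hx hc
    have h1 := hrel x (hfib x hx)
    rw [hc, ← ht] at h1
    have h2 : -γ r * x r + (γ q + γ r) * x p + t = γ q * x q := by rw [h1]; ring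
    refine ⟨h2, ?_⟩
    funext j
    by_cases hjr : j = r
    · rw [hjr, rc_r]
    · by_cases hjq : j = q
      · rw [hjq, rc_q γ q r hqr, h2, Int.mul_ediv_cancel_left _ hq]
      · rw [rc_j γ q r t w _ _ j hjq hjr, ← hfib x hx j hjq hjr]
        ring
  refine sum_nbij' (fun x => (x r, x p)) (fun sy => rc γ q r t w sy.1 sy.2) ?_ ?_ ?_ ?_ ?_
  · intro x hx
    rw [mem_filter, mem_filter] at hx
    obtain ⟨⟨h1, h2⟩, h3⟩ := hx
    have h4 := hrc x h3 h2
    rw [mem_filter, mem_product]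
    simp only
    rw [h4.2]
    unfold bx at h1 ⊢
    have h5 := Fintype.mem_piFinset.1 h1
    exact ⟨⟨h5 r, h5 p⟩, ⟨x q, h4.1⟩, h1⟩
  · intro sy hsy
    rw [mem_filter, mem_product] at hsy
    obtain ⟨⟨h1, h2⟩, h3, h4⟩ := hsy
    rw [mem_filter, mem_filter]
    have hp : rc γ q r t w sy.1 sy.2 p = sy.2 := by rw [rc_j γ q r t w _ _ p hpq hpr, hwp, add_zero]
    have h5 : ∀ j, j ≠ q → j ≠ r → rc γ q r t w sy.1 sy.2 j - rc γ q r t w sy.1 sy.2 p = w j := by
      intro j hj1 hj2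
      rw [hp, rc_j γ q r t w _ _ j hj1 hj2]
      ring
    refine ⟨⟨h4, ?_⟩, ?_⟩
    · have h6 := hrel _ h5
      rw [hp, rc_r, rc_q γ q r hqr] at h6
      have h7 : γ q * ((-γ r * sy.1 + (γ q + γ r) * sy.2 + t) / γ q) = -γ r * sy.1 + (γ q + γ r) * sy.2 + t :=
        Int.mul_ediv_cancel' h3
      have h8 : γ q * ((-γ r * sy.1 + (γ q + γ r) * sy.2 + t) / γ q - sy.2) + γ r * (sy.1 - sy.2) = t := by
        rw [mul_sub, h7]; ring
      rw [h8, ht] at h6
      linarith
    · funext j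
      unfold Ph
      split_ifs with h6
      · rcases h6 with rfl | rfl | rfl
        · exact hwp.symm
        · exact hwq.symm
        · exact hwr.symm
      · push Not at h6
        exact h5 j h6.2.1 h6.2.2
  · intro x hx
    rw [mem_filter, mem_filter] at hx
    exact (hrc x hx.2 hx.1.2).2
  · intro sy _
    rw [rc_r, rc_j γ q r t w _ _ p hpq hpr, hwp, add_zero]
  · intro x hx
    rw [mem_filter, mem_filter] at hx
    simp only
    rw [(hrc x hx.2 hx.1.2).2]

/-- one line, with the products -/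
lemma line_le (γ : ι → ℤ) (hγ : ∑ j, γ j = 0) (p q r : ι) (hpq : p ≠ q) (hpr : p ≠ r) (hqr : q ≠ r) (hq : γ q ≠ 0)
    (hqr0 : γ q + γ r ≠ 0) (c : ℤ) (M M0 : ℕ) (hM0 : ∀ j, (γ j).natAbs * M0 ≤ M) (w : ι → ℤ) (hwp : w p = 0) (hwq : w q = 0) (hwr : w r = 0)
    (Q T : ℝ) (hQ : 1 ≤ Q) (f : ι → ℤ → ℝ) (hf : ∀ j, j ≠ r → ∀ x, |f j x| ≤ Q) (hf0 : ∀ j, j ≠ r → ∀ x : ℤ, x ∉ Icc (-(M0 : ℤ)) M0 → f j x = 0)
    (ε : (ι → ℤ) → ℝ) (hε : ∀ x, |ε x| ≤ 1) (hεt : ∀ x y, ε (fun j => x j + y) = ε x)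
    (hT : ∀ (u v c : ℤ), v ≠ 0 → ∀ (g k e : ℤ → ℝ), (∀ x, |g x| ≤ 1) → (∀ x, |k x| ≤ 1) →
      (∀ x, |e x| ≤ 1) → (∀ x : ℤ, x ∉ Icc (-(M : ℤ)) M → g x = 0) → (∀ x : ℤ, x ∉ Icc (-(M : ℤ)) M → k x = 0) →
      |∑ x ∈ Icc (-(M : ℤ)) M, ∑ y ∈ Icc (-(M : ℤ)) M, f r x * g y * k (u * x + v * y + c) * e (x - y)| ≤ T) :
    |∑ x ∈ ((bx ι M).filter (fun x => ∑ j, γ j * x j = c)).filter (fun x => Ph p q r x = w), ε x * ∏ j, f j (x j)| ≤
      Q ^ (Fintype.card ι - 1) * T := by
  classical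
  have hQ0 : 0 < Q := by linarith
  have hMM : (M0 : ℤ) ≤ M := by
    have h1 := hM0 q
    have h2 : 1 ≤ (γ q).natAbs := Int.natAbs_pos.2 hq
    have h3 : M0 ≤ M := le_trans (Nat.le_mul_of_pos_left _ h2) h1
    exact_mod_cast h3
  rw [fiber_sum γ hγ p q r hpq hpr hqr hq c M w hwp hwq hwr]
  set t := c - ∑ j, γ j * w j with ht
  set J : Finset ι := (univ.erase r).erase q with hJ
  have hJcard : J.card = Fintype.card ι - 2 := by
    rw [hJ, card_erase_of_mem (mem_erase.2 ⟨hqr, mem_univ _⟩), card_erase_of_mem (mem_univ _), card_univ]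
    omega
  have hcard2 : 2 ≤ Fintype.card ι := by
    have h1 : ({q, r} : Finset ι).card ≤ Fintype.card ι := card_le_univ _
    rw [card_pair hqr] at h1
    exact h1
  have hpJ : p ∈ J := mem_erase.2 ⟨hpq, mem_erase.2 ⟨hpr, mem_univ _⟩⟩
  have hJmem : ∀ j ∈ J, j ≠ q ∧ j ≠ r := by
    intro j hj
    rw [hJ, mem_erase, mem_erase] at hj
    exact ⟨hj.1, hj.2.1⟩
  set g : ℤ → ℝ := fun y => ∏ j ∈ J, (f j (y + w j) / Q) with hg
  set k : ℤ → ℝ := fun y => if γ q ∣ y then f q (y / γ q) / Q else 0 with hk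
  set e : ℤ → ℝ := fun d => ε (rc γ q r t w d 0) with he
  have hdiv : ∀ j, j ≠ r → ∀ x, |f j x / Q| ≤ 1 := by
    intro j hj x
    rw [abs_div, abs_of_pos hQ0, div_le_one hQ0]
    exact hf j hj x
  have hg1 : ∀ y, |g y| ≤ 1 := by
    intro y
    rw [hg]
    simp only
    rw [abs_prod]
    exact prod_le_one (fun _ _ => abs_nonneg _) (fun j hj => hdiv j (hJmem j hj).2 _)
  have hk1 : ∀ y, |k y| ≤ 1 := by
    intro y
    rw [hk]
    simp only
    split_ifs
    · exact hdiv q hqr _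
    · simp
  have hg0 : ∀ y : ℤ, y ∉ Icc (-(M : ℤ)) M → g y = 0 := by
    intro y hy
    rw [hg]
    simp only
    refine prod_eq_zero hpJ ?_
    rw [hwp, add_zero, hf0 p hpr y, zero_div]
    rw [mem_Icc] at hy ⊢
    omega
  have hk0 : ∀ y : ℤ, y ∉ Icc (-(M : ℤ)) M → k y = 0 := by
    intro y hy
    rw [hk]
    simp only
    split_ifs with h1
    · rw [hf0 q hqr, zero_div]
      intro h2
      apply hy
      obtain ⟨a, rfl⟩ := h1
      rw [Int.mul_ediv_cancel_left _ hq] at h2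
      rw [mem_Icc] at h2 ⊢
      have h3 : |a| ≤ M0 := abs_le.2 h2
      have h4 : |γ q * a| ≤ M := by
        rw [abs_mul]
        have h5 : |γ q| * (M0 : ℤ) ≤ M := by
          have := hM0 q
          rw [← Int.natCast_natAbs]
          exact_mod_cast this
        exact (mul_le_mul_of_nonneg_left h3 (abs_nonneg _)).trans h5
      exact abs_le.1 h4
    · rfl
  have key := hT (-γ r) (γ q + γ r) t hqr0 g k e hg1 hk1 (fun d => hε _) hg0 hk0
  have heq : ∑ s ∈ Icc (-(M : ℤ)) M, ∑ y ∈ Icc (-(M : ℤ)) M,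
      (if (γ q ∣ -γ r * s + (γ q + γ r) * y + t) ∧ rc γ q r t w s y ∈ bx ι M then
        ε (rc γ q r t w s y) * ∏ j, f j (rc γ q r t w s y j) else 0) =
      Q ^ (Fintype.card ι - 1) * ∑ x ∈ Icc (-(M : ℤ)) M, ∑ y ∈ Icc (-(M : ℤ)) M,
        f r x * g y * k (-γ r * x + (γ q + γ r) * y + t) * e (x - y) := by
    rw [mul_sum]
    refine sum_congr rfl fun s hs => ?_
    rw [mul_sum]
    refine sum_congr rfl fun y hy => ?_
    have hgp : Q ^ (Fintype.card ι - 2) * g y = ∏ j ∈ J, f j (y + w j) := by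
      rw [hg]
      simp only
      rw [prod_div_distrib, prod_const, hJcard]
      field_simp
    split_ifs with h1
    · have hk2 : Q * k (-γ r * s + (γ q + γ r) * y + t) = f q ((-γ r * s + (γ q + γ r) * y + t) / γ q) := by
        rw [hk]
        simp only
        rw [if_pos h1.1]
        field_simp
      have he2 : ε (rc γ q r t w s y) = e (s - y) := by
        rw [rc_shift γ q r hq t w s y, hεt, he]
      have hprod : ∏ j, f j (rc γ q r t w s y j) = f r s * (f q ((-γ r * s + (γ q + γ r) * y + t) / γ q) * ∏ j ∈ J, f j (y + w j)) := by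
        rw [← mul_prod_erase univ _ (mem_univ r), rc_r, ← mul_prod_erase (univ.erase r) _ (mem_erase.2 ⟨hqr, mem_univ q⟩),
          rc_q γ q r hqr, ← hJ]
        congr 2
        refine prod_congr rfl fun j hj => ?_
        rw [rc_j γ q r t w s y j (hJmem j hj).1 (hJmem j hj).2]
      rw [hprod, ← hk2, ← hgp, he2, show Fintype.card ι - 1 = (Fintype.card ι - 2) + 1 by omega, pow_succ]
      ring
    · -- the product vanishes
      have hz : g y * k (-γ r * s + (γ q + γ r) * y + t) = 0 := by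
        by_cases h2 : γ q ∣ -γ r * s + (γ q + γ r) * y + t
        · have h3 : rc γ q r t w s y ∉ bx ι M := fun h => h1 ⟨h2, h⟩
          unfold bx at h3
          rw [Fintype.mem_piFinset] at h3
          push Not at h3
          obtain ⟨j, hj⟩ := h3
          by_cases hjr : j = r
          · rw [hjr, rc_r] at hj
            exact absurd hs hj
          · by_cases hjq : j = q
            · rw [hjq, rc_q γ q r hqr] at hj
              have : k (-γ r * s + (γ q + γ r) * y + t) = 0 := by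
                rw [hk]
                simp only
                rw [if_pos h2, hf0 q hqr, zero_div]
                rw [mem_Icc] at hj ⊢
                omega
              rw [this, mul_zero]
            · rw [rc_j γ q r t w s y j hjq hjr] at hj
              have : g y = 0 := by
                rw [hg]
                simp only
                refine prod_eq_zero (i := j) ?_ ?_
                · rw [hJ, mem_erase, mem_erase]
                  exact ⟨hjq, hjr, mem_univ _⟩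
                · rw [hf0 j hjr, zero_div]
                  rw [mem_Icc] at hj ⊢
                  omega
              rw [this, zero_mul]
        · have : k (-γ r * s + (γ q + γ r) * y + t) = 0 := by
            rw [hk]
            simp only
            rw [if_neg h2]
          rw [this, mul_zero]
      have : f r s * g y * k (-γ r * s + (γ q + γ r) * y + t) * e (s - y) =
        f r s * e (s - y) * (g y * k (-γ r * s + (γ q + γ r) * y + t)) := by ring
      rw [this, hz]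
      ring
  rw [heq, abs_mul, abs_of_nonneg (by positivity : (0 : ℝ) ≤ Q ^ (Fintype.card ι - 1))]
  exact mul_le_mul_of_nonneg_left key (by positivity)

/-- all lines -/
theorem multi (γ : ι → ℤ) (hγ : ∑ j, γ j = 0) (p q r : ι) (hpq : p ≠ q) (hpr : p ≠ r) (hqr : q ≠ r) (hq : γ q ≠ 0)
    (hqr0 : γ q + γ r ≠ 0) (c : ℤ) (M M0 : ℕ) (hM0 : ∀ j, (γ j).natAbs * M0 ≤ M)
    (Q T : ℝ) (hQ : 1 ≤ Q) (f : ι → ℤ → ℝ) (hf : ∀ j, j ≠ r → ∀ x, |f j x| ≤ Q)
    (hf0 : ∀ j, j ≠ r → ∀ x : ℤ, x ∉ Icc (-(M0 : ℤ)) M0 → f j x = 0)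
    (ε : (ι → ℤ) → ℝ) (hε : ∀ x, |ε x| ≤ 1) (hεt : ∀ x y, ε (fun j => x j + y) = ε x)
    (hT : ∀ (u v c : ℤ), v ≠ 0 → ∀ (g k e : ℤ → ℝ), (∀ x, |g x| ≤ 1) → (∀ x, |k x| ≤ 1) →
      (∀ x, |e x| ≤ 1) → (∀ x : ℤ, x ∉ Icc (-(M : ℤ)) M → g x = 0) → (∀ x : ℤ, x ∉ Icc (-(M : ℤ)) M → k x = 0) →
      |∑ x ∈ Icc (-(M : ℤ)) M, ∑ y ∈ Icc (-(M : ℤ)) M, f r x * g y * k (u * x + v * y + c) * e (x - y)| ≤ T) :
    |∑ x ∈ (bx ι M).filter (fun x => ∑ j, γ j * x j = c), ε x * ∏ j, f j (x j)| ≤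
      (4 * (M : ℝ) + 1) ^ (Fintype.card ι - 3) * (Q ^ (Fintype.card ι - 1) * T) := by
  classical
  set W : Finset (ι → ℤ) := Fintype.piFinset (fun j => if j = p ∨ j = q ∨ j = r then {0} else Icc (-(2 * (M : ℤ))) (2 * M)) with hW
  have hmap : ∀ x ∈ (bx ι M).filter (fun x => ∑ j, γ j * x j = c), Ph p q r x ∈ W := by
    intro x hx
    rw [mem_filter] at hx
    unfold bx at hx
    have h1 := Fintype.mem_piFinset.1 hx.1
    rw [hW, Fintype.mem_piFinset]
    intro j
    unfold Ph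
    split_ifs with h2
    · exact mem_singleton_self _
    · have h3 := mem_Icc.1 (h1 j)
      have h4 := mem_Icc.1 (h1 p)
      rw [mem_Icc]
      omega
  rw [← sum_fiberwise_of_maps_to hmap]
  have hWcard : (W.card : ℝ) = (4 * (M : ℝ) + 1) ^ (Fintype.card ι - 3) := by
    rw [hW, Fintype.card_piFinset]
    have h1 : ∀ j : ι, (if j = p ∨ j = q ∨ j = r then ({0} : Finset ℤ) else Icc (-(2 * (M : ℤ))) (2 * M)).card =
        if j = p ∨ j = q ∨ j = r then 1 else 4 * M + 1 := by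
      intro j
      split_ifs
      · rfl
      · rw [Int.card_Icc]; omega
    rw [prod_congr rfl fun j _ => h1 j, prod_ite, prod_const_one, one_mul, prod_const]
    have h2 : (univ.filter (fun j => ¬ (j = p ∨ j = q ∨ j = r))) = univ \ ({p, q, r} : Finset ι) := by
      ext j
      simp only [mem_filter, mem_univ, true_and, mem_sdiff, mem_insert, mem_singleton]
    have h3 : (univ \ ({p, q, r} : Finset ι)).card = Fintype.card ι - 3 := by
      rw [card_sdiff_of_subset (subset_univ _), card_univ, card_eq_three.2 ⟨p, q, r, hpq, hpr, hqr, rfl⟩]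
    rw [h2, h3]
    push_cast
    ring
  calc |∑ w ∈ W, ∑ x ∈ ((bx ι M).filter (fun x => ∑ j, γ j * x j = c)).filter (fun x => Ph p q r x = w), ε x * ∏ j, f j (x j)|
      ≤ ∑ w ∈ W, |∑ x ∈ ((bx ι M).filter (fun x => ∑ j, γ j * x j = c)).filter (fun x => Ph p q r x = w), ε x * ∏ j, f j (x j)| :=
        abs_sum_le_sum_abs _ _
    _ ≤ ∑ _w ∈ W, Q ^ (Fintype.card ι - 1) * T := by
        refine sum_le_sum fun w hw => ?_
        rw [hW, Fintype.mem_piFinset] at hw
        have hz : ∀ j, (j = p ∨ j = q ∨ j = r) → w j = 0 := by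
          intro j hj
          have := hw j
          rw [if_pos hj, mem_singleton] at this
          exact this
        exact line_le γ hγ p q r hpq hpr hqr hq hqr0 c M M0 hM0 w (hz p (Or.inl rfl)) (hz q (Or.inr (Or.inl rfl)))
          (hz r (Or.inr (Or.inr rfl))) Q T hQ f hf hf0 ε hε hεt hT
    _ = _ := by rw [sum_const, nsmul_eq_mul, hWcard]

end

end Pool.Agent.E8helper28.LN
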