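import Pool.Agent.E8helper28.LN.Hp2

set_option autoImplicit false
set_option maxHeartbeats 4000000
set_option linter.unusedSectionVars false

/-!
# Prime tuples on hyperplanes (helper28): the first moment over the points of a hyperplane
-/

namespace Pool.Agent.E8helper28.LN

open Finset
open Pool.Agent.E8helper81.GB (xt xt_out xt_in xt_abs)
open Pool.Agent.E8helper66.GB (S_U3)
open Pool.Agent.H373R2.T7 (pz Vz Vz_pos mem_pz Vz_inv_small ev_L' ev_log')
open Pool.Agent.TH935.TF (LL mdl LL_nonneg LL_le)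

/-- the coefficients, with the one of the argument -/
def gam {k : ℕ} (γ : Fin k → ℤ) (o : Option (Fin k)) : ℤ := o.elim (-∑ i, γ i) γ

lemma gam_none {k : ℕ} (γ : Fin k → ℤ) : gam γ none = -∑ i, γ i := rfl
lemma gam_some {k : ℕ} (γ : Fin k → ℤ) (i : Fin k) : gam γ (some i) = γ i := rfl

lemma gam_sum {k : ℕ} (γ : Fin k → ℤ) : ∑ o, gam γ o = 0 := by
  rw [Fintype.sum_option, gam_none]
  simp only [gam_some]
  ring

lemma gam_rel {k : ℕ} (γ : Fin k → ℤ) (x : Option (Fin k) → ℤ) :
    ∑ o, gam γ o * x o = ∑ i, γ i * (x (some i) - x none) := by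
  rw [Fintype.sum_option, gam_none]
  simp only [gam_some, mul_sub, sum_sub_distrib]
  rw [← sum_mul]
  ring

/-- the points of the hyperplane in the box -/
noncomputable def hyp {k : ℕ} (γ : Fin k → ℤ) (c : ℤ) (H : ℕ) : Finset (Fin k → ℤ) :=
  (Fintype.piFinset (fun _ : Fin k => Icc (-(H : ℤ)) H)).filter (fun a => ∑ i, γ i * a i = c)

/-- the point of the big box -/
def pt {k : ℕ} (n : ℤ) (a : Fin k → ℤ) (o : Option (Fin k)) : ℤ := o.elim n (fun j => n + a j)

lemma to_box {k : ℕ} (γ : Fin k → ℤ) (c : ℤ) (H Y M : ℕ) (hM : Y + H ≤ M) (r : Fin k) (D : ℤ → ℝ) (m : ℕ → ℝ)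
    (φ : Fin k → ℤ → ℝ) (ε : (Fin k → ℤ) → ℝ) :
    ∑ a ∈ hyp γ c H, ε a * ∑ n ∈ Icc 1 Y, m n * ∏ j, (if j = r then D (n + a j) else φ j (n + a j)) =
      ∑ x ∈ (bx (Option (Fin k)) M).filter (fun x => ∑ o, gam γ o * x o = c),
        (if ∀ j, x (some j) - x none ∈ Icc (-(H : ℤ)) H then ε (fun j => x (some j) - x none) else 0) *
        ∏ o, (fun (o : Option (Fin k)) (y : ℤ) => o.elim (xt Y m y) (fun j => if j = r then D y else
          if y ∈ Icc (-((Y + H : ℕ) : ℤ)) ((Y + H : ℕ) : ℤ) then φ j y else 0)) o (x o) := by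
  classical
  set f : Option (Fin k) → ℤ → ℝ := fun (o : Option (Fin k)) (y : ℤ) => o.elim (xt Y m y) (fun j => if j = r then D y else
          if y ∈ Icc (-((Y + H : ℕ) : ℤ)) ((Y + H : ℕ) : ℤ) then φ j y else 0) with hf
  have e1 : ∑ a ∈ hyp γ c H, ε a * ∑ n ∈ Icc 1 Y, m n * ∏ j, (if j = r then D (n + a j) else φ j (n + a j)) =
      ∑ q ∈ hyp γ c H ×ˢ Icc 1 Y, ε q.1 * (m q.2 * ∏ j, (if j = r then D (q.2 + q.1 j) else φ j (q.2 + q.1 j))) := by
    rw [sum_product]
    refine sum_congr rfl fun a _ => ?_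
    rw [mul_sum]
  rw [e1]
  have hne : ∀ x ∈ (bx (Option (Fin k)) M).filter (fun x => ∑ o, gam γ o * x o = c),
      (if ∀ j, x (some j) - x none ∈ Icc (-(H : ℤ)) H then ε (fun j => x (some j) - x none) else 0) * ∏ o, f o (x o) ≠ 0 →
      (∀ j, x (some j) - x none ∈ Icc (-(H : ℤ)) H) ∧ (1 ≤ x none ∧ x none ≤ Y) := by
    intro x _ hx
    constructor
    · by_contra h
      rw [if_neg h, zero_mul] at hx
      exact hx rfl
    · by_contra h
      apply hx
      have : ∏ o, f o (x o) = 0 := by
        refine prod_eq_zero (mem_univ none) ?_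
        rw [hf]
        exact xt_out Y m _ h
      rw [this, mul_zero]
  rw [← sum_filter_of_ne hne]
  refine sum_nbij' (fun q => pt (q.2 : ℤ) q.1) (fun x => (fun j => x (some j) - x none, (x none).toNat)) ?_ ?_ ?_ ?_ ?_
  · intro q hq
    rw [mem_product, mem_Icc] at hq
    obtain ⟨h1, h2, h3⟩ := hq
    unfold hyp at h1
    rw [mem_filter, Fintype.mem_piFinset] at h1
    rw [mem_filter, mem_filter]
    refine ⟨⟨?_, ?_⟩, ?_, ?_⟩
    · unfold bx
      rw [Fintype.mem_piFinset]
      intro o
      rcases o with _ | j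
      · unfold pt
        simp only [Option.elim, mem_Icc]
        omega
      · have := mem_Icc.1 (h1.1 j)
        unfold pt
        simp only [Option.elim, mem_Icc]
        omega
    · rw [gam_rel]
      rw [← h1.2]
      refine sum_congr rfl fun i _ => ?_
      unfold pt
      simp only [Option.elim]
      ring
    · intro j
      have := h1.1 j
      unfold pt
      simp only [Option.elim]
      rwa [add_sub_cancel_left]
    · unfold pt
      simp only [Option.elim]
      omega
  · intro x hx
    rw [mem_filter, mem_filter] at hx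
    obtain ⟨⟨h1, h2⟩, h3, h4⟩ := hx
    rw [gam_rel] at h2
    rw [mem_product, mem_Icc]
    refine ⟨?_, ?_⟩
    · unfold hyp
      rw [mem_filter, Fintype.mem_piFinset]
      exact ⟨h3, h2⟩
    · simp only
      omega
  · intro q hq
    apply Prod.ext
    · funext j
      unfold pt
      simp only [Option.elim]
      ring
    · unfold pt
      simp only [Option.elim, Int.toNat_natCast]
  · intro x hx
    rw [mem_filter, mem_filter] at hx
    obtain ⟨⟨h1, h2⟩, h3, h4⟩ := hx
    funext o
    unfold pt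
    have h5 : ((x none).toNat : ℤ) = x none := Int.toNat_of_nonneg (by omega)
    rcases o with _ | j
    · simp only [Option.elim]
      exact h5
    · simp only [Option.elim]
      rw [h5]
      ring
  · intro q hq
    rw [mem_product, mem_Icc] at hq
    obtain ⟨h1, h2, h3⟩ := hq
    unfold hyp at h1
    rw [mem_filter, Fintype.mem_piFinset] at h1
    have h4 : ∀ j, pt (q.2 : ℤ) q.1 (some j) - pt (q.2 : ℤ) q.1 none = q.1 j := by
      intro j
      unfold pt
      simp only [Option.elim]
      ring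
    have h5 : (fun j => pt (q.2 : ℤ) q.1 (some j) - pt (q.2 : ℤ) q.1 none) = q.1 := funext h4
    have h6 : ∀ j, pt (q.2 : ℤ) q.1 (some j) - pt (q.2 : ℤ) q.1 none ∈ Icc (-(H : ℤ)) H := by
      intro j
      rw [h4]
      exact h1.1 j
    rw [if_pos h6, h5]
    congr 1
    rw [Fintype.prod_option]
    congr 1
    · rw [hf]
      unfold pt
      simp only [Option.elim]
      rw [xt_in Y m q.2 h2 h3]
    · refine prod_congr rfl fun j _ => ?_
      rw [hf]
      unfold pt
      simp only [Option.elim]
      by_cases h7 : j = r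
      · rw [if_pos h7, if_pos h7]
      · have h8 : (q.2 : ℤ) + q.1 j ∈ Icc (-((Y + H : ℕ) : ℤ)) ((Y + H : ℕ) : ℤ) := by
          have := mem_Icc.1 (h1.1 j)
          rw [mem_Icc]
          push_cast
          omega
        rw [if_neg h7, if_neg h7]
        exact (if_pos h8).symm

lemma tele_id (k : ℕ) (P Q : Fin k → ℝ) :
    ∏ i, P i - ∏ i, Q i = ∑ r, ∏ j, (if j = r then P j - Q j else if j < r then Q j else P j) := by
  induction k with
  | zero => simp
  | succ k ih =>
    rw [Fin.sum_univ_succ, Fin.prod_univ_succ, Fin.prod_univ_succ, Fin.prod_univ_succ]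
    have h0 : ∀ i : Fin k, (if (i.succ : Fin (k + 1)) = 0 then P i.succ - Q i.succ else
        if (i.succ : Fin (k + 1)) < 0 then Q i.succ else P i.succ) = P i.succ := by
      intro i
      rw [if_neg (Fin.succ_ne_zero i), if_neg (Fin.not_lt_zero _)]
    rw [if_pos rfl, prod_congr rfl fun i _ => h0 i]
    have h1 : ∀ r : Fin k, ∏ j : Fin (k + 1), (if j = r.succ then P j - Q j else if j < r.succ then Q j else P j) =
        Q 0 * ∏ j : Fin k, (if j = r then P j.succ - Q j.succ else if j < r then Q j.succ else P j.succ) := by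
      intro r
      rw [Fin.prod_univ_succ, if_neg (Fin.succ_ne_zero r).symm, if_pos (Fin.succ_pos r)]
      congr 1
      refine prod_congr rfl fun j _ => ?_
      simp only [Fin.succ_inj, Fin.succ_lt_succ_iff]
    rw [sum_congr rfl fun r _ => h1 r, ← mul_sum, ← ih (fun i => P i.succ) (fun i => Q i.succ)]
    ring

/-- at least three of the coefficients (with the one of the argument) do not vanish -/
def Good {k : ℕ} (γ : Fin k → ℤ) : Prop := 3 ≤ (univ.filter (fun o : Option (Fin k) => gam γ o ≠ 0)).card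

lemma good_pair {k : ℕ} (γ : Fin k → ℤ) (hγ : Good γ) (r : Option (Fin k)) : ∃ q p : Option (Fin k), p ≠ q ∧ p ≠ r ∧ q ≠ r ∧
    gam γ q ≠ 0 ∧ gam γ q + gam γ r ≠ 0 := by
  classical
  have hq : ∃ q, q ≠ r ∧ gam γ q ≠ 0 ∧ gam γ q + gam γ r ≠ 0 := by
    by_contra hcon
    push Not at hcon
    set S := (univ.filter (fun o : Option (Fin k) => gam γ o ≠ 0)).erase r with hS
    have hScard : 2 ≤ S.card := by
      have h1 := pred_card_le_card_erase (s := univ.filter (fun o : Option (Fin k) => gam γ o ≠ 0)) (a := r)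
      have h2 : 3 ≤ (univ.filter (fun o : Option (Fin k) => gam γ o ≠ 0)).card := hγ
      rw [← hS] at h1
      omega
    have hsum : ∑ o, gam γ o = gam γ r + ∑ o ∈ S, gam γ o := by
      rw [← add_sum_erase univ _ (mem_univ r)]
      congr 1
      symm
      refine sum_subset ?_ ?_
      · intro o ho
        rw [hS, mem_erase] at ho
        exact mem_erase.2 ⟨ho.1, mem_univ _⟩
      · intro o ho ho2
        rw [mem_erase] at ho
        by_contra h
        exact ho2 (mem_erase.2 ⟨ho.1, mem_filter.2 ⟨mem_univ _, h⟩⟩)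
    have hS2 : ∑ o ∈ S, gam γ o = -(S.card : ℤ) * gam γ r := by
      rw [sum_congr rfl (g := fun _ => -gam γ r), sum_const, nsmul_eq_mul]
      · ring
      · intro o ho
        rw [hS, mem_erase, mem_filter] at ho
        have := hcon o ho.1 ho.2.2
        linarith
    rw [gam_sum, hS2] at hsum
    have h3 : ((S.card : ℤ) - 1) * gam γ r = 0 := by linarith
    have h4 : ((S.card : ℤ) - 1) ≠ 0 := by
      have : (2 : ℤ) ≤ S.card := by exact_mod_cast hScard
      omega
    have h5 : gam γ r = 0 := by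
      rcases mul_eq_zero.1 h3 with h | h
      · exact absurd h h4
      · exact h
    have hne : S.Nonempty := card_pos.1 (by omega)
    obtain ⟨o, ho⟩ := hne
    rw [hS, mem_erase, mem_filter] at ho
    have h6 := hcon o ho.1 ho.2.2
    rw [h5, add_zero] at h6
    exact ho.2.2 h6
  obtain ⟨q, hq1, hq2, hq3⟩ := hq
  have hcard : 3 ≤ (univ : Finset (Option (Fin k))).card := le_trans hγ (card_le_card (filter_subset _ _))
  have : ∃ p, p ∉ ({q, r} : Finset (Option (Fin k))) := by
    by_contra hcon
    push Not at hcon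
    have h1 : (univ : Finset (Option (Fin k))) ⊆ {q, r} := fun p _ => hcon p
    have h2 := card_le_card h1
    have h3 : ({q, r} : Finset (Option (Fin k))).card ≤ 2 := card_le_two
    omega
  obtain ⟨p, hp⟩ := this
  rw [mem_insert, mem_singleton, not_or] at hp
  exact ⟨q, p, hp.1, hp.2, hq1, hq2, hq3⟩

end Pool.Agent.E8helper28.LN
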