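import Pool.Agent.E8helper28.LN.Hp3

set_option autoImplicit false
set_option maxHeartbeats 4000000
set_option linter.unusedSectionVars false

/-!
# Prime tuples on hyperplanes (helper28): the first moment over the points of a hyperplane
-/

namespace Pool.Agent.E8helper28.LN

open Finset
open Pool.Agent.E8helper81.GB (xt xt_out xt_in xt_abs)
open Pool.Agent.E8helper66.GB (S_U3)
open Pool.Agent.H373R2.T7 (pz Vz Vz_pos mem_pz Vz_inv_small ev_L' ev_log')
open Pool.Agent.TH935.TF (LL mdl LL_nonneg LL_le)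

/-- one position of the difference -/
lemma one_pos (k H Y M : ℕ) (hM : Y + H ≤ M) (γ : Fin k → ℤ) (hγ : Good γ) (hM0 : ∀ o, (gam γ o).natAbs * (Y + H) ≤ M) (c : ℤ)
    (r : Fin k) (z : ℕ) (Q T : ℝ) (hQ : 1 ≤ Q) (m : ℕ → ℝ) (hm : ∀ n, |m n| ≤ 1)
    (φ : Fin k → ℤ → ℝ) (hφ : ∀ j, ∀ y ∈ Icc (-((Y + H : ℕ) : ℤ)) ((Y + H : ℕ) : ℤ), |φ j y| ≤ Q)
    (ε : (Fin k → ℤ) → ℝ) (hε : ∀ a, |ε a| ≤ 1)
    (hT : ∀ (u v c : ℤ), v ≠ 0 → ∀ (g k e : ℤ → ℝ), (∀ x, |g x| ≤ 1) → (∀ x, |k x| ≤ 1) →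
      (∀ x, |e x| ≤ 1) → (∀ x : ℤ, x ∉ Icc (-(M : ℤ)) M → g x = 0) → (∀ x : ℤ, x ∉ Icc (-(M : ℤ)) M → k x = 0) →
      |∑ x ∈ Icc (-(M : ℤ)) M, ∑ y ∈ Icc (-(M : ℤ)) M, Ds z x * g y * k (u * x + v * y + c) * e (x - y)| ≤ T) :
    |∑ a ∈ hyp γ c H, ε a * ∑ n ∈ Icc 1 Y, m n * ∏ j, (if j = r then Ds z (n + a j) else φ j (n + a j))| ≤
      (4 * (M : ℝ) + 1) ^ (k - 2) * (Q ^ k * T) := by
  classical
  rw [to_box γ c H Y M hM r (Ds z) m φ ε]
  obtain ⟨q, p, hpq, hpr, hqr, hq, hqr0⟩ := good_pair γ hγ (some r)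
  have key := multi (gam γ) (gam_sum γ) p q (some r) hpq hpr hqr hq hqr0 c M (Y + H) hM0 Q T hQ
    (fun (o : Option (Fin k)) (y : ℤ) => o.elim (xt Y m y) (fun j => if j = r then Ds z y else
          if y ∈ Icc (-((Y + H : ℕ) : ℤ)) ((Y + H : ℕ) : ℤ) then φ j y else 0)) ?_ ?_
    (fun x => if ∀ j, x (some j) - x none ∈ Icc (-(H : ℤ)) H then ε (fun j => x (some j) - x none) else 0) ?_ ?_ ?_
  · rw [Fintype.card_option, Fintype.card_fin] at key
    exact key
  · intro o ho x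
    rcases o with _ | j
    · simp only [Option.elim]
      exact xt_abs Y m Q (by linarith) (fun n _ => (hm n).trans hQ) x
    · have hj : j ≠ r := fun h => ho (by rw [h])
      simp only [Option.elim]
      rw [if_neg hj]
      split_ifs with h1
      · exact hφ j x h1
      · rw [abs_zero]; linarith
  · intro o ho x hx
    rcases o with _ | j
    · simp only [Option.elim]
      apply xt_out
      rw [mem_Icc] at hx
      push_cast at hx
      omega
    · have hj : j ≠ r := fun h => ho (by rw [h])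
      simp only [Option.elim]
      rw [if_neg hj]
      exact if_neg hx
  · intro x
    split_ifs
    · exact hε _
    · simp
  · intro x y
    simp only [add_sub_add_right_eq_sub]
  · intro u v c' hv g k' e h1 h2 h3 h4 h5
    simp only [Option.elim, if_true]
    exact hT u v c' hv g k' e h1 h2 h3 h4 h5

theorem hyper_mom (hU3 : S_U3) (k A B U : ℕ) : ∃ B0 : ℕ, ∀ E : ℕ, ∃ N0 : ℕ, ∀ N : ℕ, N0 ≤ N → ∀ z : ℕ, Real.log N ^ B0 ≤ z →
    (z : ℝ) ≤ Real.log N ^ E → ∀ γ : Fin k → ℤ, (∀ i, ((γ i).natAbs : ℝ) ≤ Real.log N ^ A) → Good γ → ∀ c : ℤ,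
    ∀ m : ℕ → ℝ, (∀ n, |m n| ≤ 1) →
    ∑ a ∈ hyp γ c (B * N), |∑ n ∈ Icc 1 (B * N), m n * (∏ i, LL (n + a i) - ∏ i, mdl z (n + a i))| ≤
      (N : ℝ) ^ k / Real.log N ^ U := by
  obtain ⟨U1, hU1⟩ : ∃ U1, U1 = U + (A + 2) * k + k + 1 := ⟨_, rfl⟩
  obtain ⟨B1, hB1⟩ := T3 hU3 U1
  refine ⟨B1 + 1, fun E => ?_⟩
  obtain ⟨n0, h0⟩ := hB1 E
  obtain ⟨n1, h1⟩ := ev_L' (2 ^ B1 + 2 * B * (k + 1) + k * 5 ^ k + 10)
  obtain ⟨n2, h2⟩ := ev_log' (A + 2) 1
  obtain ⟨n3, h3⟩ := Vz_inv_small E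
  refine ⟨n0 + n1 + n2 + n3 + 3, fun N hN z hz1 hz2 γ hγA hγ c m hm => ?_⟩
  have b1 := h1 N (by omega)
  have b2 := h2 N (by omega)
  obtain ⟨L, hL⟩ : ∃ L, L = Real.log (N : ℝ) := ⟨_, rfl⟩
  have b3 := h3 N (by omega) z
  rw [← hL] at b1 b2 b3 hz1 hz2 hγA ⊢
  rw [one_mul] at b2
  have hB0' : (0 : ℝ) ≤ B := Nat.cast_nonneg _
  have hk0 : (0 : ℝ) ≤ k := Nat.cast_nonneg _
  have hp2 : (0 : ℝ) < 2 ^ B1 := by positivity
  have hBk : (0 : ℝ) ≤ 2 * B * (k + 1) := by positivity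
  have hk5 : (0 : ℝ) ≤ k * 5 ^ k := by positivity
  have hL10 : 10 ≤ L := by linarith
  have hL1 : 1 ≤ L := by linarith
  have hL0 : 0 < L := by linarith
  have hNr : (3 : ℝ) ≤ N := by exact_mod_cast (by omega : 3 ≤ N)
  have hN0 : (0 : ℝ) < N := by linarith
  obtain ⟨X, hX⟩ : ∃ X : ℕ, X = N * ⌈L ^ (A + 1)⌉₊ := ⟨_, rfl⟩
  have hc1 : L ^ (A + 1) ≤ (⌈L ^ (A + 1)⌉₊ : ℝ) := Nat.le_ceil _
  have hc2 : (⌈L ^ (A + 1)⌉₊ : ℝ) ≤ L ^ (A + 2) := by
    have h5 : (⌈L ^ (A + 1)⌉₊ : ℝ) < L ^ (A + 1) + 1 := Nat.ceil_lt_add_one (by positivity)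
    have h6 : 1 ≤ L ^ (A + 1) := one_le_pow₀ hL1
    rw [show A + 2 = (A + 1) + 1 by ring, pow_succ L (A + 1)]
    nlinarith
  have hXr : (X : ℝ) = N * (⌈L ^ (A + 1)⌉₊ : ℝ) := by rw [hX]; push_cast; rfl
  have hX1 : (N : ℝ) * L ^ (A + 1) ≤ X := by rw [hXr]; exact mul_le_mul_of_nonneg_left hc1 hN0.le
  have hX2 : (X : ℝ) ≤ N * L ^ (A + 2) := by rw [hXr]; exact mul_le_mul_of_nonneg_left hc2 hN0.le
  have hNX : (N : ℝ) ≤ X := (le_mul_of_one_le_right hN0.le (one_le_pow₀ hL1)).trans hX1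
  have hNXn : N ≤ X := by exact_mod_cast hNX
  have hX0 : (0 : ℝ) < X := by linarith
  obtain ⟨LX, hLX⟩ : ∃ LX, LX = Real.log (X : ℝ) := ⟨_, rfl⟩
  have hLLX : L ≤ LX := by rw [hL, hLX]; exact Real.log_le_log hN0 hNX
  have hLX0 : 0 < LX := by linarith
  have hLX1 : 1 ≤ LX := by linarith
  have hLX2 : LX ≤ 2 * L := by
    have e1 : (X : ℝ) ≤ N ^ 2 := by
      refine hX2.trans ?_
      rw [sq]
      apply mul_le_mul_of_nonneg_left _ hN0.le
      refine b2.trans ?_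
      rw [Real.sqrt_le_left hN0.le]
      nlinarith
    have e2 := Real.log_le_log hX0 e1
    rw [Real.log_pow, ← hL, ← hLX] at e2
    exact_mod_cast e2
  -- `z`
  have hz1r : 1 ≤ z := by
    have : (1 : ℝ) ≤ z := (one_le_pow₀ hL1).trans hz1
    exact_mod_cast this
  have hV := b3 hz1r hz2
  have hz2' : (z : ℝ) ≤ LX ^ E := hz2.trans (pow_le_pow_left₀ hL0.le hLLX E)
  have hz1' : LX ^ B1 ≤ z := by
    refine le_trans ?_ hz1
    calc LX ^ B1 ≤ (2 * L) ^ B1 := pow_le_pow_left₀ hLX0.le hLX2 _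
      _ = 2 ^ B1 * L ^ B1 := mul_pow _ _ _
      _ ≤ L * L ^ B1 := mul_le_mul_of_nonneg_right (by linarith) (by positivity)
      _ = L ^ (B1 + 1) := by ring
  have key := h0 X (by omega) z (by rw [← hLX]; exact hz1') (by rw [← hLX]; exact hz2')
  rw [← hLX] at key
  -- the sizes
  have hγo : ∀ o, (((gam γ o).natAbs * (B * N + B * N) : ℕ) : ℝ) ≤ X := by
    intro o
    have h5 : ((gam γ o).natAbs : ℝ) ≤ (k + 1) * L ^ A := by
      rcases o with _ | i
      · rw [gam_none, Int.natAbs_neg]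
        have h6 : ((∑ i, γ i).natAbs : ℝ) ≤ ∑ i : Fin k, ((γ i).natAbs : ℝ) := by
          have : (∑ i, γ i).natAbs ≤ ∑ i, (γ i).natAbs := by
            have := Finset.abs_sum_le_sum_abs (fun i => γ i) (univ : Finset (Fin k))
            zify
            exact this
          exact_mod_cast this
        refine h6.trans ((sum_le_sum fun i _ => hγA i).trans ?_)
        rw [sum_const, card_univ, Fintype.card_fin, nsmul_eq_mul]
        have : 0 ≤ L ^ A := by positivity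
        nlinarith
      · rw [gam_some]
        refine (hγA i).trans ?_
        have : 0 ≤ L ^ A := by positivity
        nlinarith
    push_cast
    calc ((gam γ o).natAbs : ℝ) * (B * N + B * N) ≤ ((k + 1) * L ^ A) * (B * N + B * N) :=
          mul_le_mul_of_nonneg_right h5 (by positivity)
      _ = (2 * B * (k + 1)) * (N * L ^ A) := by ring
      _ ≤ L * (N * L ^ A) := mul_le_mul_of_nonneg_right (by linarith) (by positivity)
      _ = N * L ^ (A + 1) := by ring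
      _ ≤ X := hX1
  have hγn : ∀ o, (gam γ o).natAbs * (B * N + B * N) ≤ X := fun o => by exact_mod_cast hγo o
  have h2BX : B * N + B * N ≤ X := by
    have h5 : ((B * N + B * N : ℕ) : ℝ) ≤ X := by
      push_cast
      calc (B : ℝ) * N + B * N = (2 * B) * N := by ring
        _ ≤ L * N := by
          apply mul_le_mul_of_nonneg_right _ hN0.le
          nlinarith
        _ ≤ L ^ (A + 1) * N := mul_le_mul_of_nonneg_right (le_self_pow₀ hL1 (by omega)) hN0.le
        _ = N * L ^ (A + 1) := by ring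
        _ ≤ X := hX1
    exact_mod_cast h5
  have hX1n : 1 ≤ X := by omega
  have hk2 : 2 ≤ k := by
    have h5 : 3 ≤ (univ : Finset (Option (Fin k))).card := le_trans hγ (card_le_card (filter_subset _ _))
    rw [card_univ, Fintype.card_option, Fintype.card_fin] at h5
    omega
  have hLLb : ∀ y ∈ Icc (-((B * N + B * N : ℕ) : ℤ)) ((B * N + B * N : ℕ) : ℤ), |LL y| ≤ LX := by
    intro y hy
    rw [mem_Icc] at hy
    rw [abs_of_nonneg (LL_nonneg y), hLX]
    exact LL_le y X hX1n (by omega)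
  have hmdb : ∀ y : ℤ, |mdl z y| ≤ LX := by
    intro y
    unfold mdl
    split_ifs
    · rw [abs_of_pos (inv_pos.2 (Vz_pos z))]
      exact hV.trans hLLX
    · rw [abs_zero]; linarith
  -- signs
  obtain ⟨ε, hε1, hε2⟩ : ∃ ε : (Fin k → ℤ) → ℝ, (∀ a, |ε a| ≤ 1) ∧ ∀ a,
      |∑ n ∈ Icc 1 (B * N), m n * (∏ i, LL (n + a i) - ∏ i, mdl z (n + a i))| =
      ε a * ∑ n ∈ Icc 1 (B * N), m n * (∏ i, LL (n + a i) - ∏ i, mdl z (n + a i)) := by
    refine ⟨fun a => if 0 ≤ ∑ n ∈ Icc 1 (B * N), m n * (∏ i, LL (n + a i) - ∏ i, mdl z (n + a i)) then 1 else -1, ?_, ?_⟩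
    · intro a
      simp only
      split_ifs <;> simp
    · intro a
      simp only
      split_ifs with h5
      · rw [abs_of_nonneg h5, one_mul]
      · rw [abs_of_neg (not_le.1 h5)]; ring
  rw [sum_congr rfl fun a _ => hε2 a]
  have hsplit : ∑ a ∈ hyp γ c (B * N), ε a * ∑ n ∈ Icc 1 (B * N), m n * (∏ i, LL (n + a i) - ∏ i, mdl z (n + a i)) =
      ∑ r : Fin k, ∑ a ∈ hyp γ c (B * N), ε a * ∑ n ∈ Icc 1 (B * N), m n * ∏ j, (if j = r then Ds z (n + a j) else
        (if j < r then mdl z else LL) (n + a j)) := by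
    rw [sum_comm]
    refine sum_congr rfl fun a _ => ?_
    rw [← mul_sum]
    congr 1
    rw [sum_comm]
    refine sum_congr rfl fun n _ => ?_
    rw [← mul_sum, tele_id]
    congr 1
    refine sum_congr rfl fun r _ => ?_
    refine prod_congr rfl fun j _ => ?_
    by_cases h5 : j = r
    · rw [if_pos h5, if_pos h5]
      rfl
    · rw [if_neg h5, if_neg h5]
      by_cases h6 : j < r
      · rw [if_pos h6, if_pos h6]
      · rw [if_neg h6, if_neg h6]
  rw [hsplit]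
  have hone : ∀ r : Fin k, ∑ a ∈ hyp γ c (B * N), ε a * ∑ n ∈ Icc 1 (B * N), m n * ∏ j, (if j = r then Ds z (n + a j) else
        (if j < r then mdl z else LL) (n + a j)) ≤ 5 ^ k * (N ^ k / L ^ (U + 1)) := by
    intro r
    refine (le_abs_self _).trans ((one_pos k (B * N) (B * N) X h2BX γ hγ hγn c r z LX (X ^ 2 / LX ^ U1) hLX1 m hm
      (fun j => if j < r then mdl z else LL) ?_ ε hε1 key).trans ?_)
    · intro j y hy
      split_ifs
      · exact hmdb y
      · exact hLLb y hy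
    · calc (4 * (X : ℝ) + 1) ^ (k - 2) * (LX ^ k * (X ^ 2 / LX ^ U1))
          ≤ (5 * (X : ℝ)) ^ (k - 2) * (LX ^ k * (X ^ 2 / LX ^ U1)) := by
            apply mul_le_mul_of_nonneg_right _ (by positivity)
            apply pow_le_pow_left₀ (by positivity)
            linarith
        _ = 5 ^ (k - 2) * (X ^ k * (LX ^ k / LX ^ U1)) := by
            have h5 : (X : ℝ) ^ k = X ^ (k - 2) * X ^ 2 := by rw [← pow_add]; congr 1; omega
            rw [h5, mul_pow]
            ring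
        _ ≤ 5 ^ k * (X ^ k * (LX ^ k / LX ^ U1)) := by
            apply mul_le_mul_of_nonneg_right _ (by positivity)
            exact pow_le_pow_right₀ (by norm_num) (by omega)
        _ = 5 ^ k * (X ^ k / LX ^ (U + (A + 2) * k + 1)) := by
            congr 1
            rw [hU1, show U + (A + 2) * k + k + 1 = (U + (A + 2) * k + 1) + k by ring, pow_add LX (U + (A + 2) * k + 1) k]
            field_simp
        _ ≤ 5 ^ k * ((N * L ^ (A + 2)) ^ k / L ^ (U + (A + 2) * k + 1)) := by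
            apply mul_le_mul_of_nonneg_left _ (by positivity)
            apply div_le_div₀ (by positivity) (pow_le_pow_left₀ hX0.le hX2 k) (by positivity)
            exact pow_le_pow_left₀ hL0.le hLLX _
        _ = 5 ^ k * (N ^ k / L ^ (U + 1)) := by
            congr 1
            rw [mul_pow, ← pow_mul, show U + (A + 2) * k + 1 = (A + 2) * k + (U + 1) by ring, pow_add L ((A + 2) * k) (U + 1)]
            field_simp
  calc ∑ r : Fin k, ∑ a ∈ hyp γ c (B * N), ε a * ∑ n ∈ Icc 1 (B * N), m n * ∏ j, (if j = r then Ds z (n + a j) else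
        (if j < r then mdl z else LL) (n + a j)) ≤ ∑ _r : Fin k, 5 ^ k * ((N : ℝ) ^ k / L ^ (U + 1)) := sum_le_sum fun r _ => hone r
    _ = (k * 5 ^ k / L) * (N ^ k / L ^ U) := by
        rw [sum_const, card_univ, Fintype.card_fin, nsmul_eq_mul, pow_succ L U]
        field_simp
    _ ≤ 1 * (N ^ k / L ^ U) := by
        apply mul_le_mul_of_nonneg_right _ (by positivity)
        rw [div_le_one hL0]
        linarith
    _ = _ := one_mul _

end Pool.Agent.E8helper28.LN
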