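import Pool.Agent.E8helper28.LN.Hp4
import Pool.Agent.TH935.TG3

set_option autoImplicit false
set_option maxHeartbeats 4000000
set_option linter.unusedSectionVars false

/-!
# Prime tuples on hyperplanes (helper28): the numbers of prime values at the elements of arbitrary sets
-/

namespace Pool.Agent.E8helper28.LN

open Finset
open Pool.Agent.E8helper66.GB (S_U3)
open Pool.Agent.H373R2.T7
open Pool.Agent.TH935.TF
open Pool.Agent.TH935.TG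

/-- the constant slopes -/
def one1 (k : ℕ) : Fin k → ℤ := fun _ => 1

/-- for all the sets: the number of arguments with prime values is the
expected proportion of the number of arguments with rough values -/
def HA1 {k : ℕ} {τ : Type} (ε : ℝ) (K N z : ℕ) (𝒩 : τ → Finset ℕ) (β : Fin k → ℤ) : Prop :=
  ∀ l : τ, (N : ℝ) / Real.log N ^ K ≤ rgM (one1 k) β z (𝒩 l) →
    |(cnM (one1 k) β (𝒩 l) : ℝ) - rgM (one1 k) β z (𝒩 l) / (Vz z * Real.log N) ^ k| ≤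
      ε * (rgM (one1 k) β z (𝒩 l) / (Vz z * Real.log N) ^ k)

/-- the same for all windows -/
def HB1 {k : ℕ} {τ : Type} (ε : ℝ) (K B N z : ℕ) (𝒩 : τ → Finset ℕ) (β : Fin k → ℤ) : Prop :=
  ∀ l : τ, ∀ y₁ y₂ : ℕ, y₁ ≤ y₂ → y₂ ≤ B * N →
    (N : ℝ) / Real.log N ^ K ≤ rgM (one1 k) β z (win (𝒩 l) y₁ y₂) →
    |(cnM (one1 k) β (win (𝒩 l) y₁ y₂) : ℝ) - rgM (one1 k) β z (win (𝒩 l) y₁ y₂) / (Vz z * Real.log N) ^ k| ≤
      ε * (rgM (one1 k) β z (win (𝒩 l) y₁ y₂) / (Vz z * Real.log N) ^ k)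

open Classical in
theorem arb1 (hU3 : S_U3) (k A B T U K : ℕ) (ε : ℝ) (hε : 0 < ε) : ∃ E0 : ℕ, ∀ E : ℕ, E0 ≤ E →
    ∃ N0 : ℕ, ∀ N : ℕ, N0 ≤ N → ∀ (τ : Type) [Fintype τ], (Fintype.card τ : ℝ) ≤ Real.log N ^ T →
    ∀ 𝒩 : τ → Finset ℕ, (∀ l, 𝒩 l ⊆ Ioc 0 (B * N)) →
    ∀ γ : Fin k → ℤ, (∀ i, ((γ i).natAbs : ℝ) ≤ Real.log N ^ A) → Good γ → ∀ c : ℤ,
    (((hyp γ c (B * N)).filter (fun a => ¬ HA1 ε K N ⌊Real.log N ^ E⌋₊ 𝒩 a)).card : ℝ) ≤ (N : ℝ) ^ (k - 1) / Real.log N ^ U := by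
  by_cases hk : 2 ≤ k
  swap
  · refine ⟨0, fun E _ => ⟨0, fun N _ τ _ _ 𝒩 _ γ _ hγ c => ?_⟩⟩
    exfalso
    have h5 : 3 ≤ (univ : Finset (Option (Fin k))).card := le_trans hγ (card_le_card (filter_subset _ _))
    rw [card_univ, Fintype.card_option, Fintype.card_fin] at h5
    omega
  obtain ⟨B0, hB0⟩ := hyper_mom hU3 k A B (U + T + K + 1)
  refine ⟨B0 + 1, fun E hE0 => ?_⟩
  obtain ⟨n0, h0⟩ := hB0 E
  obtain ⟨n1, h1⟩ := convM k K B 0 (by omega) ε hε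
  obtain ⟨n2, h2⟩ := ev_L' 10
  refine ⟨n0 + n1 + n2 + 3, fun N hN τ _ ht 𝒩 h𝒩 γ hγA hγ c => ?_⟩
  have b1 := h1 N (by omega)
  have b2 := h2 N (by omega)
  have b0 := h0 N (by omega)
  obtain ⟨L, hL⟩ : ∃ L, L = Real.log (N : ℝ) := ⟨_, rfl⟩
  obtain ⟨z, hz⟩ : ∃ z : ℕ, z = ⌊Real.log N ^ E⌋₊ := ⟨_, rfl⟩
  rw [← hz]
  have b0' := b0 z (by
      rw [hz]
      rw [← hL] at b2 ⊢
      have e1 : L ^ E < ⌊L ^ E⌋₊ + 1 := Nat.lt_floor_add_one _
      have e2 : L ^ (B0 + 1) ≤ L ^ E := pow_le_pow_right₀ (by linarith) hE0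
      have e3 : 1 ≤ L ^ B0 := one_le_pow₀ (by linarith)
      rw [pow_succ] at e2
      nlinarith) (by
      rw [hz]
      rw [← hL] at b2 ⊢
      exact Nat.floor_le (by positivity)) γ hγA hγ c
  rw [← hL] at b0' b1 b2 ht ⊢
  have hL1 : 1 ≤ L := by linarith
  have hL0 : 0 < L := by linarith
  have hNr : (3 : ℝ) ≤ N := by exact_mod_cast (by omega : 3 ≤ N)
  have hN0 : (0 : ℝ) < N := by linarith
  obtain ⟨𝒮, h𝒮⟩ : ∃ 𝒮, 𝒮 = (hyp γ c (B * N)).filter (fun a => ¬ HA1 ε K N z 𝒩 a) := ⟨_, rfl⟩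
  rw [← h𝒮]
  have hindic : ∀ (M : Finset ℕ), M ⊆ Ioc 0 (B * N) → ∀ f : ℕ → ℝ,
      ∑ n ∈ Icc 1 (B * N), (if n ∈ M then (1 : ℝ) else 0) * f n = ∑ n ∈ M, f n := by
    intro M hM f
    have hsub : M ⊆ Icc 1 (B * N) := by
      intro n hn
      have := mem_Ioc.1 (hM hn)
      rw [mem_Icc]
      omega
    simp only [ite_mul, one_mul, zero_mul]
    rw [sum_ite_mem, inter_eq_right.2 hsub]
  have hbad : ∀ a ∈ 𝒮, (N : ℝ) / L ^ (K + 1) ≤ ∑ l : τ, |∑ n ∈ Icc 1 (B * N), (if n ∈ 𝒩 l then (1 : ℝ) else 0) *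
      (∏ i, LL (n + a i) - ∏ i, mdl z (n + a i))| := by
    intro a ha
    rw [h𝒮, mem_filter] at ha
    obtain ⟨ha1, ha2⟩ := ha
    by_contra hcon
    push Not at hcon
    apply ha2
    intro l hRl
    have h5 : |∑ n ∈ Icc 1 (B * N), (if n ∈ 𝒩 l then (1 : ℝ) else 0) *
      (∏ i, LL (n + a i) - ∏ i, mdl z (n + a i))| ≤ N / L ^ (K + 1) :=
      (single_le_sum (f := fun l : τ => |∑ n ∈ Icc 1 (B * N), (if n ∈ 𝒩 l then (1 : ℝ) else 0) *
        (∏ i, LL (n + a i) - ∏ i, mdl z (n + a i))|) (fun _ _ => abs_nonneg _) (mem_univ l)).trans hcon.le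
    rw [hindic (𝒩 l) (h𝒩 l), sum_sub_distrib] at h5
    have e2 : ∑ n ∈ 𝒩 l, ∏ i, LL ((n : ℤ) + a i) = WtM (one1 k) a (𝒩 l) := by
      unfold WtM one1
      simp only [one_mul]
    have e3 : ∑ n ∈ 𝒩 l, ∏ i, mdl z ((n : ℤ) + a i) = (Vz z)⁻¹ ^ k * rgM (one1 k) a z (𝒩 l) := by
      rw [← sum_mdl]
      unfold one1
      simp only [one_mul]
    rw [e2, e3] at h5
    have hβ : ∀ i, (a i).natAbs ≤ B * N := by
      intro i
      unfold hyp at ha1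
      rw [mem_filter, Fintype.mem_piFinset] at ha1
      have a1 := mem_Icc.1 (ha1.1 i)
      omega
    rw [← hL] at hRl ⊢
    have hVinv : 1 ≤ (Vz z)⁻¹ ^ k := one_le_pow₀ ((one_le_inv₀ (Vz_pos z)).2 (TH935.TG.Vz_le_one z))
    have hR0 : (0 : ℝ) ≤ rgM (one1 k) a z (𝒩 l) := Nat.cast_nonneg _
    have h6 := b1 (one1 k) a (fun i => by unfold one1; norm_num) (fun i => by unfold one1; simp) hβ (𝒩 l) (h𝒩 l)
      ((Vz z)⁻¹ ^ k * rgM (one1 k) a z (𝒩 l)) (hRl.trans (le_mul_of_one_le_left hR0 hVinv)) h5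
    have e1 : (Vz z)⁻¹ ^ k * (rgM (one1 k) a z (𝒩 l) : ℝ) / L ^ k = rgM (one1 k) a z (𝒩 l) / (Vz z * L) ^ k := by
      have := (Vz_pos z).ne'
      rw [mul_pow, inv_pow]
      field_simp
    rw [e1] at h6
    exact h6
  have hsum : (𝒮.card : ℝ) * (N / L ^ (K + 1)) ≤ L ^ T * (N ^ k / L ^ (U + T + K + 1)) := by
    calc (𝒮.card : ℝ) * (N / L ^ (K + 1)) = ∑ _a ∈ 𝒮, (N : ℝ) / L ^ (K + 1) := by rw [sum_const, nsmul_eq_mul]
      _ ≤ ∑ a ∈ 𝒮, ∑ l : τ, |∑ n ∈ Icc 1 (B * N), (if n ∈ 𝒩 l then (1 : ℝ) else 0) *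
          (∏ i, LL (n + a i) - ∏ i, mdl z (n + a i))| := sum_le_sum hbad
      _ ≤ ∑ a ∈ hyp γ c (B * N), ∑ l : τ, |∑ n ∈ Icc 1 (B * N), (if n ∈ 𝒩 l then (1 : ℝ) else 0) *
          (∏ i, LL (n + a i) - ∏ i, mdl z (n + a i))| := by
          rw [h𝒮]
          exact sum_le_sum_of_subset_of_nonneg (filter_subset _ _) (fun _ _ _ => sum_nonneg fun _ _ => abs_nonneg _)
      _ = ∑ l : τ, ∑ a ∈ hyp γ c (B * N), |∑ n ∈ Icc 1 (B * N), (if n ∈ 𝒩 l then (1 : ℝ) else 0) *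
          (∏ i, LL (n + a i) - ∏ i, mdl z (n + a i))| := sum_comm
      _ ≤ ∑ _l : τ, (N : ℝ) ^ k / L ^ (U + T + K + 1) := by
          refine sum_le_sum fun l _ => b0' (fun n => if n ∈ 𝒩 l then (1 : ℝ) else 0) fun n => ?_
          split_ifs <;> simp
      _ = Fintype.card τ * (N ^ k / L ^ (U + T + K + 1)) := by rw [sum_const, card_univ, nsmul_eq_mul]
      _ ≤ L ^ T * (N ^ k / L ^ (U + T + K + 1)) := mul_le_mul_of_nonneg_right ht (by positivity)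
  have h6 : L ^ T * ((N : ℝ) ^ k / L ^ (U + T + K + 1)) = (N ^ (k - 1) / L ^ U) * (N / L ^ (K + 1)) := by
    have h7 : (N : ℝ) ^ k = N ^ (k - 1) * N := by rw [← pow_succ]; congr 1; omega
    rw [h7, show U + T + K + 1 = U + T + (K + 1) by ring, pow_add L (U + T) (K + 1), pow_add L U T]
    field_simp
  rw [h6] at hsum
  exact le_of_mul_le_mul_right hsum (by positivity)

set_option maxHeartbeats 4000000 in
theorem win_det1 (k B K E : ℕ) (ε : ℝ) (hε : 0 < ε) : ∃ N0 : ℕ, ∀ N : ℕ, N0 ≤ N →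
    ∀ (τ : Type) (𝒩 : τ → Finset ℕ), ∀ z : ℕ, 1 ≤ z → (z : ℝ) ≤ Real.log N ^ E →
    ∃ J s : ℕ, (((J + 1) ^ 2 : ℕ) : ℝ) ≤ Real.log N ^ (2 * (K + k + 4)) ∧ ∀ β : Fin k → ℤ,
      HA1 (ε / 2) (K + 1) N z (fun l : τ × (Fin (J + 1) × Fin (J + 1)) => win (𝒩 l.1) ((l.2.1 : ℕ) * s) ((l.2.2 : ℕ) * s)) β →
      HB1 ε K B N z 𝒩 β := by
  obtain ⟨n1, h1⟩ := ev_L' (16 * B / ε + 2 * B + 10)
  obtain ⟨n2, h2⟩ := ev_log' (K + k + 6) 1
  obtain ⟨n3, h3⟩ := Vz_inv_small E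
  refine ⟨n1 + n2 + n3 + 3, fun N hN τ 𝒩 z hz1 hz2 => ?_⟩
  have b1 := h1 N (by omega)
  have b2 := h2 N (by omega)
  have b3 := h3 N (by omega) z hz1 hz2
  have hL : Real.log (N : ℝ) = Real.log (N : ℝ) := rfl
  obtain ⟨L, hL⟩ : ∃ L, L = Real.log (N : ℝ) := ⟨_, rfl⟩
  rw [← hL] at b1 b2 b3 ⊢
  rw [one_mul] at b2
  have hB0 : (0 : ℝ) ≤ B := Nat.cast_nonneg _
  have q1 : 0 ≤ 16 * B / ε := by positivity
  have hL10 : 10 ≤ L := by linarith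
  have hL1 : 1 ≤ L := by linarith
  have hL0 : 0 < L := by linarith
  have hNr : (3 : ℝ) ≤ N := by exact_mod_cast (by omega : 3 ≤ N)
  have hN0 : (0 : ℝ) < N := by linarith
  have hss : √(N : ℝ) * √(N : ℝ) = N := Real.mul_self_sqrt hN0.le
  have hs0 : 0 < √(N : ℝ) := Real.sqrt_pos.2 hN0
  have hs1 : 1 ≤ √(N : ℝ) := (one_le_pow₀ hL1).trans b2
  obtain ⟨J, hJ⟩ : ∃ J : ℕ, J = ⌈L ^ (K + k + 2)⌉₊ := ⟨_, rfl⟩
  have hJ1 : L ^ (K + k + 2) ≤ J := by rw [hJ]; exact Nat.le_ceil _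
  have hJ2 : (J : ℝ) + 1 ≤ L ^ (K + k + 4) := by
    have h5 : (J : ℝ) < L ^ (K + k + 2) + 1 := by rw [hJ]; exact Nat.ceil_lt_add_one (by positivity)
    have h6 : 1 ≤ L ^ (K + k + 2) := one_le_pow₀ hL1
    have h7 : L ^ (K + k + 4) = L ^ (K + k + 2) * L ^ 2 := by rw [← pow_add]
    rw [h7]
    have h8 : (3 : ℝ) ≤ L ^ 2 := by nlinarith
    nlinarith
  have hJ0 : (1 : ℝ) ≤ J := (one_le_pow₀ hL1).trans hJ1
  have hJn : 1 ≤ J := by exact_mod_cast hJ0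
  obtain ⟨s, hs⟩ : ∃ s, s = B * N / J + 1 := ⟨_, rfl⟩
  have hspos : 1 ≤ s := by rw [hs]; exact Nat.le_add_left 1 _
  have hJs : B * N ≤ J * s := by
    rw [hs]
    have := Nat.div_add_mod (B * N) J
    have h5 := Nat.mod_lt (B * N) (show 0 < J by omega)
    rw [mul_add, mul_one]
    omega
  refine ⟨J, s, ?_, fun β hA => ?_⟩
  · push_cast
    calc ((J : ℝ) + 1) ^ 2 ≤ (L ^ (K + k + 4)) ^ 2 := pow_le_pow_left₀ (by positivity) hJ2 2
      _ = L ^ (2 * (K + k + 4)) := by rw [← pow_mul]; congr 1; ring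
  intro l y₁ y₂ h12 hy2 hR
  obtain ⟨α, hα⟩ : ∃ α, α = one1 k := ⟨_, rfl⟩
  rw [← hα] at hR ⊢
  rw [← hL] at hR ⊢
  have hsr : 4 * (s : ℝ) ≤ (ε / 2) * (N / L ^ (K + k)) := by
    have e1 : (s : ℝ) ≤ B * N / L ^ (K + k + 2) + 1 := by
      rw [hs]
      push_cast
      have e2 : ((B * N / J : ℕ) : ℝ) ≤ (B * N : ℕ) / J := Nat.cast_div_le
      push_cast at e2
      have e3 : (B : ℝ) * N / J ≤ B * N / L ^ (K + k + 2) := div_le_div_of_nonneg_left (by positivity) (by positivity) hJ1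
      linarith
    have e4 : (B : ℝ) * N / L ^ (K + k + 2) = (B / L ^ 2) * (N / L ^ (K + k)) := by rw [pow_add L (K + k) 2]; field_simp
    have e5 : 4 * (B / L ^ 2) ≤ ε / 4 := by
      have e6 : 16 * (B : ℝ) ≤ L * ε := by
        have : 16 * B / ε ≤ L := by linarith
        rwa [div_le_iff₀ hε] at this
      rw [← mul_div_assoc, div_le_iff₀ (by positivity)]
      have : L ≤ L ^ 2 := by nlinarith
      nlinarith
    have e7 : 4 ≤ (ε / 4) * (N / L ^ (K + k)) := by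
      by_cases hB : B = 0
      · -- the windows are empty
        exfalso
        have hy20 : y₂ = 0 := by rw [hB, zero_mul] at hy2; omega
        have hw : win (𝒩 l) y₁ y₂ = ∅ := by
          unfold win
          rw [filter_eq_empty_iff]
          intro n _ hn
          omega
        rw [hw] at hR
        unfold rgM at hR
        rw [filter_empty, card_empty, Nat.cast_zero] at hR
        have : 0 < (N : ℝ) / L ^ K := by positivity
        linarith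
      · have hB1 : (1 : ℝ) ≤ B := by exact_mod_cast Nat.one_le_iff_ne_zero.2 hB
        have e8 : 16 ≤ L * ε := by
          have e6 : 16 * (B : ℝ) ≤ L * ε := by
            have : 16 * B / ε ≤ L := by linarith
            rwa [div_le_iff₀ hε] at this
          linarith
        have e9 : L ≤ N / L ^ (K + k) := by
          rw [le_div_iff₀ (by positivity)]
          calc L * L ^ (K + k) = L ^ (K + k + 1) := by ring
            _ ≤ L ^ (K + k + 6) := pow_le_pow_right₀ hL1 (by omega)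
            _ ≤ √N := b2
            _ ≤ √N * √N := le_mul_of_one_le_left hs0.le hs1
            _ = N := hss
        have e10 : (ε / 4) * L ≤ (ε / 4) * (N / L ^ (K + k)) := mul_le_mul_of_nonneg_left e9 (by positivity)
        linarith
    have e11 : 4 * (B / L ^ 2) * (N / L ^ (K + k)) ≤ (ε / 4) * (N / L ^ (K + k)) := mul_le_mul_of_nonneg_right e5 (by positivity)
    rw [e4] at e1
    linarith
  -- the inner window
  have hVp := Vz_pos z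
  have hVL : 1 ≤ Vz z * L := by
    have : (Vz z)⁻¹ * Vz z ≤ L * Vz z := mul_le_mul_of_nonneg_right b3 hVp.le
    rw [inv_mul_cancel₀ hVp.ne'] at this
    linarith
  obtain ⟨Z, hZ⟩ : ∃ Z, Z = (Vz z * L) ^ k := ⟨_, rfl⟩
  have hZ1 : 1 ≤ Z := by rw [hZ]; exact one_le_pow₀ hVL
  have hZ0 : 0 < Z := by linarith
  have hZ2 : Z ≤ L ^ k := by
    rw [hZ]
    apply pow_le_pow_left₀ (by linarith)
    exact mul_le_of_le_one_left hL0.le (TH935.TG.Vz_le_one z)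
  obtain ⟨i₁, hi₁⟩ : ∃ i, i = y₁ / s + 1 := ⟨_, rfl⟩
  obtain ⟨i₂, hi₂⟩ : ∃ i, i = y₂ / s := ⟨_, rfl⟩
  have a1 : y₁ ≤ i₁ * s := by
    rw [hi₁]
    have := Nat.lt_div_mul_add (show 0 < s by omega) (a := y₁)
    rw [add_mul, one_mul]
    exact this.le
  have a2 : i₁ * s ≤ y₁ + s := by
    rw [hi₁, add_mul, one_mul]
    have := Nat.div_mul_le_self y₁ s
    omega
  have a3 : i₂ * s ≤ y₂ := by rw [hi₂]; exact Nat.div_mul_le_self y₂ s
  have a4 : y₂ ≤ i₂ * s + s := by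
    rw [hi₂]
    exact (Nat.lt_div_mul_add (show 0 < s by omega) (a := y₂)).le
  have r1 := count_sub (fun n : ℕ => ∀ i, ∀ p ∈ pz z, ¬ (p : ℤ) ∣ α i * (n : ℤ) + β i) (𝒩 l) y₁ y₂ i₁ i₂ s a1 a2 a3 a4
  have r2 := count_sub (fun n : ℕ => ∀ i, (α i * (n : ℤ) + β i).natAbs.Prime) (𝒩 l) y₁ y₂ i₁ i₂ s a1 a2 a3 a4
  change rgM α β z (win (𝒩 l) (i₁ * s) (i₂ * s)) ≤ rgM α β z (win (𝒩 l) y₁ y₂) ∧
    rgM α β z (win (𝒩 l) y₁ y₂) ≤ rgM α β z (win (𝒩 l) (i₁ * s) (i₂ * s)) + 2 * s at r1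
  change cnM α β (win (𝒩 l) (i₁ * s) (i₂ * s)) ≤ cnM α β (win (𝒩 l) y₁ y₂) ∧
    cnM α β (win (𝒩 l) y₁ y₂) ≤ cnM α β (win (𝒩 l) (i₁ * s) (i₂ * s)) + 2 * s at r2
  obtain ⟨R, hRd⟩ : ∃ R : ℝ, R = rgM α β z (win (𝒩 l) y₁ y₂) := ⟨_, rfl⟩
  obtain ⟨R', hRd'⟩ : ∃ R' : ℝ, R' = rgM α β z (win (𝒩 l) (i₁ * s) (i₂ * s)) := ⟨_, rfl⟩
  obtain ⟨c, hcd⟩ : ∃ c : ℝ, c = cnM α β (win (𝒩 l) y₁ y₂) := ⟨_, rfl⟩
  obtain ⟨c', hcd'⟩ : ∃ c' : ℝ, c' = cnM α β (win (𝒩 l) (i₁ * s) (i₂ * s)) := ⟨_, rfl⟩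
  have t1 : R' ≤ R := by rw [hRd, hRd']; exact_mod_cast r1.1
  have t2 : R ≤ R' + 2 * s := by rw [hRd, hRd']; exact_mod_cast r1.2
  have t3 : c' ≤ c := by rw [hcd, hcd']; exact_mod_cast r2.1
  have t4 : c ≤ c' + 2 * s := by rw [hcd, hcd']; exact_mod_cast r2.2
  rw [← hRd] at hR
  rw [← hRd, ← hcd, ← hZ]
  have hs0r : (0 : ℝ) < s := by exact_mod_cast hspos
  have hRpos : 0 < R := lt_of_lt_of_le (by positivity) hR
  have hRZ : (N : ℝ) / L ^ (K + k) ≤ R / Z := by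
    rw [le_div_iff₀ hZ0]
    calc (N : ℝ) / L ^ (K + k) * Z ≤ N / L ^ (K + k) * L ^ k := mul_le_mul_of_nonneg_left hZ2 (by positivity)
      _ = N / L ^ K := by rw [pow_add L K k]; field_simp
      _ ≤ R := hR
  have h4s : 4 * (s : ℝ) ≤ (ε / 2) * (R / Z) := hsr.trans (mul_le_mul_of_nonneg_left hRZ (by positivity))
  -- the inner rough count is large
  have hR' : (N : ℝ) / L ^ (K + 1) ≤ R' := by
    have e1 : (N : ℝ) / L ^ (K + 1) = (1 / L) * (N / L ^ K) := by rw [pow_succ]; field_simp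
    have e2 : (1 / L) ≤ 1 / 2 := by
      apply div_le_div_of_nonneg_left zero_le_one (by norm_num)
      linarith
    have e3 : (1 / L) * (N / L ^ K) ≤ (1 / 2) * (N / L ^ K) := mul_le_mul_of_nonneg_right e2 (by positivity)
    have e4 : 2 * (s : ℝ) ≤ (1 / 2) * (N / L ^ K) := by
      have f1 : (s : ℝ) ≤ B * N / L ^ (K + k + 2) + 1 := by
        rw [hs]
        push_cast
        have e2 : ((B * N / J : ℕ) : ℝ) ≤ (B * N : ℕ) / J := Nat.cast_div_le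
        push_cast at e2
        have e3 : (B : ℝ) * N / J ≤ B * N / L ^ (K + k + 2) := div_le_div_of_nonneg_left (by positivity) (by positivity) hJ1
        linarith
      have f2 : (B : ℝ) * N / L ^ (K + k + 2) ≤ B * N / L ^ (K + 2) := by
        apply div_le_div_of_nonneg_left (by positivity) (by positivity)
        exact pow_le_pow_right₀ hL1 (by omega)
      have f3 : (B : ℝ) * N / L ^ (K + 2) = (B / L ^ 2) * (N / L ^ K) := by rw [pow_add L K 2]; field_simp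
      have f4 : (B : ℝ) / L ^ 2 ≤ 1 / 20 := by
        rw [div_le_iff₀ (by positivity)]
        nlinarith
      have f5 : (B / L ^ 2 : ℝ) * (N / L ^ K) ≤ 1 / 20 * (N / L ^ K) := mul_le_mul_of_nonneg_right f4 (by positivity)
      have f6 : 10 ≤ (N : ℝ) / L ^ K := by
        rw [le_div_iff₀ (by positivity)]
        calc 10 * L ^ K ≤ L * L ^ K := mul_le_mul_of_nonneg_right hL10 (by positivity)
          _ = L ^ (K + 1) := by ring
          _ ≤ L ^ (K + k + 6) := pow_le_pow_right₀ hL1 (by omega)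
          _ ≤ √N := b2
          _ ≤ √N * √N := le_mul_of_one_le_left hs0.le hs1
          _ = N := hss
      linarith
    rw [e1]
    linarith
  have hR'pos : 0 < R' := lt_of_lt_of_le (by positivity) hR'
  -- the indices
  have hi₂J : i₂ ≤ J := by
    have h5 : i₂ * s ≤ J * s := a3.trans (hy2.trans hJs)
    exact Nat.le_of_mul_le_mul_right h5 hspos
  have hi12 : i₁ ≤ i₂ := by
    by_contra hcon
    push Not at hcon
    have h5 : win (𝒩 l) (i₁ * s) (i₂ * s) = ∅ := by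
      unfold win
      rw [filter_eq_empty_iff]
      intro n _ hn
      have : i₂ * s ≤ i₁ * s := Nat.mul_le_mul_right _ hcon.le
      omega
    rw [h5] at hRd'
    unfold rgM at hRd'
    rw [filter_empty, card_empty, Nat.cast_zero] at hRd'
    linarith
  have key := hA (l, (⟨i₁, by omega⟩, ⟨i₂, by omega⟩)) (by
    simp only
    rw [← hα, ← hL, ← hRd']
    exact hR')
  simp only at key
  rw [← hα, ← hL, ← hRd', ← hcd', ← hZ] at key
  have k1 : R' / Z ≤ R / Z := div_le_div_of_nonneg_right t1 hZ0.le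
  have k2 : R / Z ≤ R' / Z + 2 * s := by
    calc R / Z ≤ (R' + 2 * s) / Z := div_le_div_of_nonneg_right t2 hZ0.le
      _ = R' / Z + 2 * s / Z := add_div _ _ _
      _ ≤ R' / Z + 2 * s := by
          have : 2 * (s : ℝ) / Z ≤ 2 * s := div_le_self (by positivity) hZ1
          linarith
  have k3 : ε / 2 * (R' / Z) ≤ ε / 2 * (R / Z) := mul_le_mul_of_nonneg_left k1 (by positivity)
  rw [abs_le] at key ⊢
  constructor <;> linarith [key.1, key.2]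


open Classical in
theorem win1 (hU3 : S_U3) (k A B T U K : ℕ) (ε : ℝ) (hε : 0 < ε) : ∃ E0 : ℕ, ∀ E : ℕ, E0 ≤ E →
    ∃ N0 : ℕ, ∀ N : ℕ, N0 ≤ N → ∀ (τ : Type) [Fintype τ], (Fintype.card τ : ℝ) ≤ Real.log N ^ T →
    ∀ 𝒩 : τ → Finset ℕ, (∀ l, 𝒩 l ⊆ Ioc 0 (B * N)) →
    ∀ γ : Fin k → ℤ, (∀ i, ((γ i).natAbs : ℝ) ≤ Real.log N ^ A) → Good γ → ∀ c : ℤ,
    (((hyp γ c (B * N)).filter (fun a => ¬ HB1 ε K B N ⌊Real.log N ^ E⌋₊ 𝒩 a)).card : ℝ) ≤ (N : ℝ) ^ (k - 1) / Real.log N ^ U := by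
  obtain ⟨E0, h0⟩ := arb1 hU3 k A B (T + 2 * (K + k + 4)) U (K + 1) (ε / 2) (half_pos hε)
  refine ⟨E0, fun E hE => ?_⟩
  obtain ⟨n0, h1⟩ := h0 E hE
  obtain ⟨n1, h2⟩ := win_det1 k B K E ε hε
  obtain ⟨n2, h3⟩ := ev_L' 1
  refine ⟨n0 + n1 + n2, fun N hN τ _ ht 𝒩 h𝒩 γ hγA hγ c => ?_⟩
  have hL1 := h3 N (by omega)
  have hz1 : 1 ≤ ⌊Real.log N ^ E⌋₊ := Nat.le_floor (by rw [Nat.cast_one]; exact one_le_pow₀ hL1)
  have hz2 : ((⌊Real.log N ^ E⌋₊ : ℕ) : ℝ) ≤ Real.log N ^ E := Nat.floor_le (by positivity)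
  obtain ⟨J, s', hJ, hdet⟩ := h2 N (by omega) τ 𝒩 ⌊Real.log N ^ E⌋₊ hz1 hz2
  refine le_trans ?_ (h1 N (by omega) (τ × (Fin (J + 1) × Fin (J + 1))) ?_
    (fun l => win (𝒩 l.1) ((l.2.1 : ℕ) * s') ((l.2.2 : ℕ) * s')) ?_ γ hγA hγ c)
  · rw [Nat.cast_le]
    apply card_le_card
    intro a ha
    rw [mem_filter] at ha ⊢
    exact ⟨ha.1, fun hA => ha.2 (hdet _ hA)⟩
  · rw [Fintype.card_prod, Fintype.card_prod, Fintype.card_fin]
    push_cast at hJ ⊢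
    calc (Fintype.card τ : ℝ) * (((J : ℝ) + 1) * ((J : ℝ) + 1)) = Fintype.card τ * ((J : ℝ) + 1) ^ 2 := by ring
      _ ≤ Real.log N ^ T * Real.log N ^ (2 * (K + k + 4)) := mul_le_mul ht hJ (by positivity) (by positivity)
      _ = _ := by rw [← pow_add]
  · intro l
    exact (filter_subset _ _).trans (h𝒩 l.1)

end Pool.Agent.E8helper28.LN
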