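import Pool.Agent.E8helper28.LN.Hp5


set_option autoImplicit false
set_option maxHeartbeats 4000000
set_option linter.unusedSectionVars false

/-!
# Prime tuples on hyperplanes (helper28): the formula of Hardy and Littlewood from the relative statement
-/

namespace Pool.Agent.E8helper28.LN

open Finset
open Pool.Agent.H373R2.T7
open Pool.Agent.TH935.TF
open Pool.Agent.TH935.TG


lemma three_err (t s g Q P : ℝ) (ht0 : 0 ≤ t) (ht : t ≤ 1 / 4) (hs : 0 ≤ s) (h1 : |g - s| ≤ t * s) (h2 : |Q - g| ≤ t * g)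
    (h3 : |P - Q| ≤ t * Q) : |P - s| ≤ 4 * t * s := by
  have a1 := abs_le.1 h1
  have a2 := abs_le.1 h2
  have a3 := abs_le.1 h3
  have g1 : g ≤ (1 + t) * s := by linarith [a1.2]
  have g0 : 0 ≤ g := by nlinarith [a1.1]
  have q1 : Q ≤ (1 + t) * ((1 + t) * s) := by
    have : Q ≤ (1 + t) * g := by linarith [a2.2]
    nlinarith
  have e : |P - s| ≤ t * Q + t * g + t * s := by
    have := abs_add_le (P - Q) ((Q - g) + (g - s))
    have h4 := abs_add_le (Q - g) (g - s)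
    rw [show (P - Q) + ((Q - g) + (g - s)) = P - s by ring] at this
    linarith
  refine e.trans ?_
  have b1 : t * Q ≤ t * ((1 + t) * ((1 + t) * s)) := mul_le_mul_of_nonneg_left q1 ht0
  have b2 : t * g ≤ t * ((1 + t) * s) := mul_le_mul_of_nonneg_left g1 ht0
  have b3 : (1 + t) * (1 + t) + (1 + t) + 1 ≤ 4 := by nlinarith
  have b4 : t * s * ((1 + t) * (1 + t) + (1 + t) + 1) ≤ t * s * 4 := mul_le_mul_of_nonneg_left b3 (by positivity)
  nlinarith

/-- the formula of Hardy and Littlewood in all long windows -/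
def HLw {k : ℕ} (ε : ℝ) (K B N : ℕ) (a : Fin k → ℤ) : Prop :=
  ∃ S : ℝ, 0 < S ∧ Filter.Tendsto (fun z => Gz (om (one1 k) a) k z) Filter.atTop (nhds S) ∧
    ∀ y₁ y₂ : ℕ, y₁ ≤ y₂ → y₂ ≤ B * N → (N : ℝ) / Real.log N ^ K ≤ (y₂ : ℝ) - y₁ →
      |(cnM (one1 k) a (win (Ioc 0 (B * N)) y₁ y₂) : ℝ) - S * ((y₂ : ℝ) - y₁) / Real.log N ^ k| ≤
        ε * (S * ((y₂ : ℝ) - y₁) / Real.log N ^ k)

theorem hl_det (k B K E : ℕ) (hk : 1 ≤ k) (hE : 3 ≤ E) (ε : ℝ) (hε : 0 < ε) : ∃ N0 : ℕ, ∀ N : ℕ, N0 ≤ N →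
    ∀ a : Fin k → ℤ, (∀ i, (a i).natAbs ≤ B * N) → Function.Injective a → Adm (one1 k) a →
    ∀ τ : Type, ∀ 𝒩 : τ → Finset ℕ, ∀ l : τ, 𝒩 l = Ioc 0 (B * N) →
    HB1 (min ε 1 / 4) (K + k + 2) B N ⌊Real.log N ^ E⌋₊ 𝒩 a → HLw ε K B N a := by
  obtain ⟨t, ht⟩ : ∃ t : ℝ, t = min ε 1 / 4 := ⟨_, rfl⟩
  have ht0 : 0 < t := by
    rw [ht]
    have : 0 < min ε 1 := lt_min hε zero_lt_one
    linarith
  have ht4 : t ≤ 1 / 4 := by
    rw [ht]
    have := min_le_right ε 1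
    linarith
  have htε : 4 * t ≤ ε := by
    rw [ht]
    have := min_le_left ε 1
    linarith
  obtain ⟨c, hc, hlow⟩ := Gz_low k hk
  obtain ⟨C, hC⟩ : ∃ C : ℝ, C = (k : ℝ) ^ 2 + 4 * k * ((k + k * k) * 8) := ⟨_, rfl⟩
  have hC0 : 0 ≤ C := by rw [hC]; positivity
  obtain ⟨X0, hmain⟩ := main_one k (E + 1) (K + 2) hk
  obtain ⟨n1, h1⟩ := ev_L' (2 * B / (t * c) + 2 * C / t + 2 * C + 3 * k + 2 / c + Real.log (3 * B + 3) + 10)
  obtain ⟨n3, h3⟩ := Vz_inv_small E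
  refine ⟨X0 + n1 + n3 + 3, fun N hN a ha hinj hadm τ 𝒩 l hl hHB => ?_⟩
  rw [← ht] at hHB
  have b1 := h1 N (by omega)
  obtain ⟨L, hL⟩ : ∃ L, L = Real.log (N : ℝ) := ⟨_, rfl⟩
  obtain ⟨z, hz⟩ : ∃ z : ℕ, z = ⌊Real.log N ^ E⌋₊ := ⟨_, rfl⟩
  rw [← hz] at hHB
  have b3 := h3 N (by omega) z
  rw [← hL] at b1 b3 hz
  have hB0 : (0 : ℝ) ≤ B := Nat.cast_nonneg _
  have q1 : 0 ≤ 2 * B / (t * c) := by positivity
  have q2 : 0 ≤ 2 * C / t := by positivity
  have q3 : 0 ≤ 2 / c := by positivity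
  have q4 : 0 ≤ Real.log (3 * B + 3) := Real.log_nonneg (by linarith)
  have q5 : (0 : ℝ) ≤ 3 * k := by positivity
  have hL10 : 10 ≤ L := by linarith
  have hL1 : 1 ≤ L := by linarith
  have hL0 : 0 < L := by linarith
  have hNr : (3 : ℝ) ≤ N := by exact_mod_cast (by omega : 3 ≤ N)
  have hN0 : (0 : ℝ) < N := by linarith
  -- the size of `z`
  have hzE : (z : ℝ) ≤ L ^ E := by rw [hz]; exact Nat.floor_le (by positivity)
  have hz2 : L ^ 2 ≤ z := by
    have e1 : L ^ E < z + 1 := by rw [hz]; exact Nat.lt_floor_add_one _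
    have e2 : L ^ 3 ≤ L ^ E := pow_le_pow_right₀ hL1 hE
    nlinarith [pow_pos hL0 2]
  have hLz : L ≤ z := by nlinarith
  have hz0 : (0 : ℝ) < z := by linarith
  have hz1 : 1 ≤ z := by exact_mod_cast (by linarith : (1 : ℝ) ≤ z)
  have hV := b3 hz1 hzE
  -- the bad primes
  have hdist : Dist (one1 k) a := by
    intro i j hij
    refine ⟨fun h => hij (hinj h.2), fun h => ?_⟩
    have := h.1
    unfold one1 at this
    norm_num at this
  have hloc : Loc (om (one1 k) a) k (badF (one1 k) a) := loc_of hadm hdist (fun i => by unfold one1; norm_num)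
  obtain ⟨S, hS, hSb, hSc⟩ := limit_full hloc hk
  have hSpos : 0 < S := lt_of_lt_of_le hc (hSc c (fun z => hlow _ _ hloc z))
  have hbad : ((badF (one1 k) a).card : ℝ) ≤ (k + k * k) * (8 * L) := by
    have h5 := card_badF (one1 k) a (2 * B * N + 1) (fun i => by unfold one1; simp) (fun i j => by
      unfold one1
      rw [one_mul, one_mul]
      have h6 := Int.natAbs_sub_le (a j) (a i)
      have h7 := ha i
      have h8 := ha j
      have h9 : 2 * B * N + 1 = B * N + B * N + 1 := by ring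
      omega)
    have h6 : (Nat.log 2 (2 * B * N + 1) : ℝ) ≤ 8 * L := by
      refine (natlog_le _ (by omega)).trans ?_
      have h7 : Real.log ((2 * B * N + 1 : ℕ) : ℝ) ≤ Real.log (3 * B + 3) + L := by
        rw [hL, ← Real.log_mul (by positivity) (by positivity)]
        apply Real.log_le_log (by positivity)
        push_cast
        nlinarith
      linarith
    have h7 : ((badF (one1 k) a).card : ℝ) ≤ (k + k * k) * (Nat.log 2 (2 * B * N + 1) : ℝ) := by exact_mod_cast h5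
    exact h7.trans (mul_le_mul_of_nonneg_left h6 (by positivity))
  have hKK : KK k (badF (one1 k) a) ≤ C * L := by
    unfold KK
    rw [hC]
    have h5 : 4 * (k : ℝ) * (badF (one1 k) a).card ≤ 4 * k * ((k + k * k) * (8 * L)) :=
      mul_le_mul_of_nonneg_left hbad (by positivity)
    have h6 : (k : ℝ) ^ 2 ≤ k ^ 2 * L := le_mul_of_one_le_right (by positivity) hL1
    calc (k : ℝ) ^ 2 + 4 * k * (badF (one1 k) a).card ≤ k ^ 2 * L + 4 * k * ((k + k * k) * (8 * L)) := add_le_add h6 h5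
      _ = _ := by ring
  have hKK2 : 2 * KK k (badF (one1 k) a) ≤ z := by
    refine le_trans ?_ hz2
    nlinarith
  have h3k : 3 * k ≤ z := by
    have : (3 * k : ℝ) ≤ z := by linarith
    exact_mod_cast this
  have hGS : |Gz (om (one1 k) a) k z - S| ≤ t * S := by
    refine (hSb z h3k hKK2).trans ?_
    rw [mul_comm t S]
    apply mul_le_mul_of_nonneg_left _ hSpos.le
    rw [div_le_iff₀ hz0]
    have h5 : 2 * C ≤ t * L := by
      have : 2 * C / t ≤ L := by linarith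
      rw [div_le_iff₀ ht0] at this
      linarith
    calc 2 * KK k (badF (one1 k) a) ≤ 2 * C * L := by linarith
      _ ≤ t * L * L := mul_le_mul_of_nonneg_right h5 hL0.le
      _ = t * L ^ 2 := by ring
      _ ≤ t * z := mul_le_mul_of_nonneg_left hz2 ht0.le
  refine ⟨S, hSpos, hS, fun y₁ y₂ h12 hy2 hW => ?_⟩
  rw [← hL] at hW ⊢
  have hW0 : 0 < (y₂ : ℝ) - y₁ := lt_of_lt_of_le (by positivity) hW
  have hB1 : 1 ≤ B := by
    by_contra hcon
    have : B = 0 := by omega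
    rw [this, zero_mul] at hy2
    have h5 : y₂ = 0 := by omega
    have h6 : y₁ = 0 := by omega
    rw [h5, h6] at hW0
    norm_num at hW0
  have hB1r : (1 : ℝ) ≤ B := by exact_mod_cast hB1
  obtain ⟨X, hX⟩ : ∃ X : ℕ, X = B * N := ⟨_, rfl⟩
  have hNX : N ≤ X := by rw [hX]; exact Nat.le_mul_of_pos_left _ hB1
  have hXr : (X : ℝ) = B * N := by rw [hX]; push_cast; ring
  have hLX : L ≤ Real.log X := by rw [hL]; exact Real.log_le_log hN0 (by exact_mod_cast hNX)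
  have hLX0 : 0 < Real.log X := by linarith
  obtain ⟨G, hG⟩ : ∃ G, G = Gz (om (one1 k) a) k z := ⟨_, rfl⟩
  have hGc : c ≤ G := by rw [hG]; exact hlow _ _ hloc z
  have hG0 : 0 < G := by linarith
  rw [← hG] at hGS
  -- the number of rough values
  obtain ⟨R, hR⟩ : ∃ R : ℝ, R = rgM (one1 k) a z (win (𝒩 l) y₁ y₂) := ⟨_, rfl⟩
  have hwin : win (𝒩 l) y₁ y₂ = Ioc y₁ y₂ := by
    rw [hl]
    unfold win
    ext n
    rw [mem_filter, mem_Ioc, mem_Ioc]
    constructor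
    · exact fun h => h.2
    · exact fun h => ⟨⟨by omega, by omega⟩, h⟩
  have hwin2 : win (Ioc 0 (B * N)) y₁ y₂ = win (𝒩 l) y₁ y₂ := by rw [hl]
  have hzX : (z : ℝ) ≤ Real.log X ^ (E + 1) := by
    refine hzE.trans ((pow_le_pow_left₀ hL0.le hLX E).trans ?_)
    exact pow_le_pow_right₀ (by linarith) (by omega)
  have hm1 := hmain X (by omega) z hz1 hzX (one1 k) a (fun p hp => om_le hadm p hp) y₁ (by rw [hX]; omega)
  have hm2 := hmain X (by omega) z hz1 hzX (one1 k) a (fun p hp => om_le hadm p hp) y₂ (by rw [hX]; omega)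
  rw [← hG] at hm1 hm2
  have hQ : |(Vz z)⁻¹ ^ k * R - G * ((y₂ : ℝ) - y₁)| ≤ t * (G * ((y₂ : ℝ) - y₁)) := by
    have e1 : (Vz z)⁻¹ ^ k * R = ∑ n ∈ Icc 1 y₂, ∏ i, mdl z (one1 k i * (n : ℤ) + a i) -
        ∑ n ∈ Icc 1 y₁, ∏ i, mdl z (one1 k i * (n : ℤ) + a i) := by
      rw [hR, ← sum_mdl, hwin, icc_split (fun n => ∏ i, mdl z (one1 k i * (n : ℤ) + a i)) y₁ y₂ h12]
      ring
    rw [e1]
    have e2 : |∑ n ∈ Icc 1 y₂, ∏ i, mdl z (one1 k i * (n : ℤ) + a i) - ∑ n ∈ Icc 1 y₁, ∏ i, mdl z (one1 k i * (n : ℤ) + a i) -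
        G * ((y₂ : ℝ) - y₁)| ≤ X / Real.log X ^ (K + 2) + X / Real.log X ^ (K + 2) := by
      have := abs_sub (∑ n ∈ Icc 1 y₂, ∏ i, mdl z (one1 k i * (n : ℤ) + a i) - G * y₂)
        (∑ n ∈ Icc 1 y₁, ∏ i, mdl z (one1 k i * (n : ℤ) + a i) - G * y₁)
      rw [show ∑ n ∈ Icc 1 y₂, ∏ i, mdl z (one1 k i * (n : ℤ) + a i) - ∑ n ∈ Icc 1 y₁, ∏ i, mdl z (one1 k i * (n : ℤ) + a i) -
        G * ((y₂ : ℝ) - y₁) = (∑ n ∈ Icc 1 y₂, ∏ i, mdl z (one1 k i * (n : ℤ) + a i) - G * y₂) -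
        (∑ n ∈ Icc 1 y₁, ∏ i, mdl z (one1 k i * (n : ℤ) + a i) - G * y₁) by ring]
      exact this.trans (add_le_add hm2 hm1)
    refine e2.trans ?_
    have e3 : (X : ℝ) / Real.log X ^ (K + 2) ≤ B * N / L ^ (K + 2) := by
      rw [hXr]
      apply div_le_div_of_nonneg_left (by positivity) (by positivity)
      rw [← hXr]
      exact pow_le_pow_left₀ hL0.le hLX _
    have e4 : (B : ℝ) * N / L ^ (K + 2) = (B / L ^ 2) * (N / L ^ K) := by rw [pow_add L K 2]; field_simp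
    have e5 : 2 * (B / L ^ 2) ≤ t * c := by
      have : 2 * (B : ℝ) ≤ L * (t * c) := by
        have h5 : 2 * B / (t * c) ≤ L := by linarith
        rwa [div_le_iff₀ (by positivity)] at h5
      rw [← mul_div_assoc, div_le_iff₀ (by positivity)]
      have h6 : L ≤ L ^ 2 := by nlinarith
      have h7 : 0 < t * c := by positivity
      nlinarith
    have e6 : t * c * ((N : ℝ) / L ^ K) ≤ t * (G * ((y₂ : ℝ) - y₁)) := by
      rw [mul_assoc]
      apply mul_le_mul_of_nonneg_left _ ht0.le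
      exact mul_le_mul hGc hW (by positivity) hG0.le
    calc (X : ℝ) / Real.log X ^ (K + 2) + X / Real.log X ^ (K + 2) ≤ 2 * (B / L ^ 2) * (N / L ^ K) := by
          rw [e4] at e3; linarith
      _ ≤ t * c * (N / L ^ K) := mul_le_mul_of_nonneg_right e5 (by positivity)
      _ ≤ _ := e6
  have hVp := Vz_pos z
  obtain ⟨Q, hQd⟩ : ∃ Q, Q = (Vz z)⁻¹ ^ k * R := ⟨_, rfl⟩
  rw [← hQd] at hQ
  have hQlow : c / 2 * (N / L ^ K) ≤ Q := by
    have h5 := (abs_le.1 hQ).1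
    have h6 : c * ((N : ℝ) / L ^ K) ≤ G * ((y₂ : ℝ) - y₁) := mul_le_mul hGc hW (by positivity) hG0.le
    have h7 : 0 ≤ G * ((y₂ : ℝ) - y₁) := by positivity
    nlinarith
  have hRlow : (N : ℝ) / L ^ (K + k + 2) ≤ R := by
    have e1 : R = Vz z ^ k * Q := by
      rw [hQd, inv_pow]
      field_simp
    have e2 : 1 / L ≤ Vz z := by
      rw [div_le_iff₀ hL0]
      have : (Vz z)⁻¹ * Vz z ≤ L * Vz z := mul_le_mul_of_nonneg_right hV hVp.le
      rw [inv_mul_cancel₀ hVp.ne'] at this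
      linarith
    have e3 : (1 / L) ^ k ≤ Vz z ^ k := pow_le_pow_left₀ (by positivity) e2 k
    have e4 : 1 / L ^ 2 ≤ c / 2 := by
      rw [div_le_iff₀ (by positivity)]
      have h5 : 2 ≤ L * c := by
        have : 2 / c ≤ L := by linarith
        rwa [div_le_iff₀ hc] at this
      have h6 : L ≤ L ^ 2 := by nlinarith
      nlinarith
    rw [e1]
    calc (N : ℝ) / L ^ (K + k + 2) = (1 / L) ^ k * ((1 / L ^ 2) * (N / L ^ K)) := by
          rw [show K + k + 2 = k + 2 + K by ring, pow_add L (k + 2) K, pow_add L k 2, div_pow, one_pow]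
          field_simp
      _ ≤ Vz z ^ k * (c / 2 * (N / L ^ K)) := by
          apply mul_le_mul e3 _ (by positivity) (by positivity)
          exact mul_le_mul_of_nonneg_right e4 (by positivity)
      _ ≤ Vz z ^ k * Q := mul_le_mul_of_nonneg_left hQlow (by positivity)
  have key := hHB l y₁ y₂ h12 hy2 (by rw [← hL, ← hR]; exact hRlow)
  rw [← hR, ← hL] at key
  have e1 : R / (Vz z * L) ^ k = Q / L ^ k := by
    rw [hQd, mul_pow, inv_pow]
    field_simp
  rw [e1] at key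
  rw [hwin2]
  obtain ⟨P, hP⟩ : ∃ P : ℝ, P = cnM (one1 k) a (win (𝒩 l) y₁ y₂) := ⟨_, rfl⟩
  rw [← hP] at key ⊢
  have hLk : 0 < L ^ k := by positivity
  have key2 : |P * L ^ k - Q| ≤ t * Q := by
    have h5 := mul_le_mul_of_nonneg_right key hLk.le
    rw [← abs_of_pos hLk, ← abs_mul, abs_of_pos hLk, sub_mul, div_mul_cancel₀ _ hLk.ne', mul_assoc,
      div_mul_cancel₀ _ hLk.ne'] at h5
    exact h5
  have h6 : |G * ((y₂ : ℝ) - y₁) - S * ((y₂ : ℝ) - y₁)| ≤ t * (S * ((y₂ : ℝ) - y₁)) := by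
    rw [← sub_mul, abs_mul, abs_of_pos hW0, ← mul_assoc]
    exact mul_le_mul_of_nonneg_right hGS hW0.le
  have h7 := three_err t (S * ((y₂ : ℝ) - y₁)) (G * ((y₂ : ℝ) - y₁)) Q (P * L ^ k) ht0.le ht4 (by positivity) h6 hQ key2
  have h8 : |P * L ^ k - S * ((y₂ : ℝ) - y₁)| ≤ ε * (S * ((y₂ : ℝ) - y₁)) :=
    h7.trans (mul_le_mul_of_nonneg_right htε (by positivity))
  have e2 : P - S * ((y₂ : ℝ) - y₁) / L ^ k = (P * L ^ k - S * ((y₂ : ℝ) - y₁)) / L ^ k := by field_simp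
  rw [e2, abs_div, abs_of_pos hLk, div_le_iff₀ hLk, mul_assoc, div_mul_cancel₀ _ hLk.ne']
  exact h8

end Pool.Agent.E8helper28.LN
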