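import Pool.Agent.H373R2.T7.SingLow
import Pool.Agent.H373R2.T7.SingLim

set_option autoImplicit false

/-!
# The singular series of the patterns `0, a h, 6 h`, `a = 2, 4` (helper28)
-/

namespace Pool.Agent.E8helper28.LN

open Finset Pool.Agent.H373R2.T7

/-- the shifts -/
def sh (a h : ℕ) : Fin 2 → ℕ := ![a * h, 6 * h]

/-- the residue of `-x` modulo `p` -/
def ng (p : ℕ) (x : ℤ) : ℕ := ((-x) % (p : ℤ)).toNat

lemma ng_cast (p : ℕ) (hp : 0 < p) (x : ℤ) : ((ng p x : ℕ) : ℤ) = (-x) % (p : ℤ) :=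
  Int.toNat_of_nonneg (Int.emod_nonneg _ (by exact_mod_cast hp.ne'))

lemma ng_lt (p : ℕ) (hp : 0 < p) (x : ℤ) : ng p x < p := by
  have h1 := ng_cast p hp x
  have h2 := Int.emod_lt_of_pos (-x) (show (0 : ℤ) < p by exact_mod_cast hp)
  omega

lemma ng_iff (p : ℕ) (hp : 0 < p) (x : ℤ) (r : ℕ) (hr : r < p) : (p : ℤ) ∣ (r : ℤ) + x ↔ r = ng p x := by
  have h1 := ng_cast p hp x
  have h2 := ng_lt p hp x
  have h3 : (p : ℤ) ∣ ((ng p x : ℕ) : ℤ) + x := by
    rw [h1]
    have h4 := Int.emod_add_mul_ediv (-x) (p : ℤ)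
    refine ⟨-((-x) / p), ?_⟩
    linarith
  constructor
  · intro h
    have h4 : (p : ℤ) ∣ (r : ℤ) - ((ng p x : ℕ) : ℤ) := by
      have := dvd_sub h h3
      rwa [show (r : ℤ) + x - (((ng p x : ℕ) : ℤ) + x) = (r : ℤ) - ((ng p x : ℕ) : ℤ) by ring] at this
    have h5 : |(r : ℤ) - ((ng p x : ℕ) : ℤ)| < p := by
      rw [abs_lt]; constructor <;> omega
    have h6 := Int.eq_zero_of_abs_lt_dvd h4 h5
    omega
  · intro h
    rw [h]; exact h3

lemma ng_eq (p : ℕ) (hp : 0 < p) (x y : ℤ) : ng p x = ng p y ↔ (p : ℤ) ∣ x - y := by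
  have h1 := (ng_iff p hp x (ng p y) (ng_lt p hp y))
  have h3 := (ng_iff p hp y (ng p y) (ng_lt p hp y)).2 rfl
  constructor
  · intro h
    have h2 := h1.2 h.symm
    have := dvd_sub h2 h3
    rwa [show ((ng p y : ℕ) : ℤ) + x - (((ng p y : ℕ) : ℤ) + y) = x - y by ring] at this
  · intro h
    symm
    apply h1.1
    have := dvd_add h h3
    rwa [show x - y + (((ng p y : ℕ) : ℤ) + y) = ((ng p y : ℕ) : ℤ) + x by ring] at this

lemma ng_zero (p : ℕ) : ng p 0 = 0 := by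
  unfold ng
  simp

lemma nuP_two (p : ℕ) (hp : 0 < p) (a : Fin 2 → ℤ) : nuP a p = ({ng p 0, ng p (a 0), ng p (a 1)} : Finset ℕ).card := by
  unfold nuP
  congr 1
  ext r
  rw [mem_filter, mem_range, mem_insert, mem_insert, mem_singleton]
  constructor
  · rintro ⟨h1, h2 | ⟨i, hi⟩⟩
    · left
      rw [ng_zero]
      exact Nat.eq_zero_of_dvd_of_lt h2 h1
    · right
      fin_cases i
      · left; exact (ng_iff p hp (a 0) r h1).1 hi
      · right; exact (ng_iff p hp (a 1) r h1).1 hi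
  · rintro (h | h | h)
    · rw [ng_zero] at h
      rw [h]
      exact ⟨hp, Or.inl (dvd_zero p)⟩
    · have h1 : r < p := by rw [h]; exact ng_lt p hp _
      exact ⟨h1, Or.inr ⟨0, (ng_iff p hp (a 0) r h1).2 h⟩⟩
    · have h1 : r < p := by rw [h]; exact ng_lt p hp _
      exact ⟨h1, Or.inr ⟨1, (ng_iff p hp (a 1) r h1).2 h⟩⟩

/-- the values of `ν(p)` -/
lemma nu_vals (p : ℕ) (hp : p.Prime) (a h : ℕ) (ha : a = 2 ∨ a = 4) :
    nuP (fun i => (sh a h i : ℤ)) p = if p = 2 then 1 else if p = 3 then (if 3 ∣ h then 1 else 2) else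
      (if p ∣ h then 1 else 3) := by
  have hp0 := hp.pos
  rw [nuP_two p hp0]
  have e0 : ((sh a h 0 : ℕ) : ℤ) = a * h := by simp [sh]
  have e1 : ((sh a h 1 : ℕ) : ℤ) = 6 * h := by simp [sh]
  simp only [e0, e1]
  have hpr : Prime (p : ℤ) := Nat.prime_iff_prime_int.1 hp
  -- the three coincidences
  have c1 : ng p 0 = ng p ((a : ℤ) * h) ↔ (p : ℤ) ∣ (a : ℤ) * h := by
    rw [ng_eq p hp0, show (0 : ℤ) - a * h = -(a * h) by ring, dvd_neg]
  have c2 : ng p 0 = ng p (6 * h) ↔ (p : ℤ) ∣ 6 * h := by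
    rw [ng_eq p hp0, show (0 : ℤ) - 6 * h = -(6 * h) by ring, dvd_neg]
  have c3 : ng p ((a : ℤ) * h) = ng p (6 * h) ↔ (p : ℤ) ∣ ((6 - a : ℤ)) * h := by
    rw [ng_eq p hp0, show ((a : ℤ)) * h - 6 * h = -((6 - a) * h) by ring, dvd_neg]
  have hne : ∀ q : ℕ, q.Prime → p ≠ q → ¬ (p : ℤ) ∣ (q : ℤ) := by
    intro q hq hpq h
    exact hpq ((Nat.prime_dvd_prime_iff_eq hp hq).1 (by exact_mod_cast h))
  by_cases h2 : p = 2
  · subst h2
    rw [if_pos rfl]
    have q1 : ng 2 0 = ng 2 ((a : ℤ) * h) := by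
      rw [c1]
      rcases ha with rfl | rfl
      · exact Dvd.intro _ rfl
      · exact ⟨2 * h, by push_cast; ring⟩
    have q2 : ng 2 0 = ng 2 (6 * h) := by
      rw [c2]
      exact ⟨3 * h, by push_cast; ring⟩
    rw [← q1, ← q2]
    simp
  · rw [if_neg h2]
    have n2 : ¬ (p : ℤ) ∣ 2 := by exact_mod_cast hne 2 Nat.prime_two h2
    have n4 : ¬ (p : ℤ) ∣ 4 := by
      intro h
      have : (p : ℤ) ∣ 2 * 2 := by simpa using h
      rcases hpr.dvd_or_dvd this with h | h <;> exact n2 h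
    have na : ¬ (p : ℤ) ∣ (a : ℤ) := by
      rcases ha with rfl | rfl
      · exact_mod_cast n2
      · exact_mod_cast n4
    have na' : ¬ (p : ℤ) ∣ (6 - a : ℤ) := by
      rcases ha with rfl | rfl
      · norm_num; exact n4
      · norm_num; exact n2
    have d1 : (p : ℤ) ∣ (a : ℤ) * h ↔ p ∣ h := by
      constructor
      · intro h
        exact_mod_cast (hpr.dvd_or_dvd h).resolve_left na
      · intro h
        exact Dvd.dvd.mul_left (by exact_mod_cast h) _
    have d3 : (p : ℤ) ∣ ((6 - a : ℤ)) * h ↔ p ∣ h := by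
      constructor
      · intro h
        exact_mod_cast (hpr.dvd_or_dvd h).resolve_left na'
      · intro h
        exact Dvd.dvd.mul_left (by exact_mod_cast h) _
    by_cases hph : p ∣ h
    · have q1 : ng p 0 = ng p ((a : ℤ) * h) := c1.2 (d1.2 hph)
      have q2 : ng p 0 = ng p (6 * h) := c2.2 (Dvd.dvd.mul_left (by exact_mod_cast hph) _)
      rw [← q1, ← q2]
      by_cases h3 : p = 3
      · rw [if_pos h3, if_pos (h3 ▸ hph)]; simp
      · rw [if_neg h3, if_pos hph]; simp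
    · have q1 : ¬ ng p 0 = ng p ((a : ℤ) * h) := fun h => hph (d1.1 (c1.1 h))
      have q3 : ¬ ng p ((a : ℤ) * h) = ng p (6 * h) := fun h => hph (d3.1 (c3.1 h))
      by_cases h3 : p = 3
      · subst h3
        rw [if_pos rfl, if_neg hph]
        have q2 : ng 3 0 = ng 3 (6 * h) := c2.2 ⟨2 * h, by push_cast; ring⟩
        rw [← q2, card_insert_of_mem (by simp), card_pair (fun h => q1 h.symm)]
      · rw [if_neg h3, if_neg hph]
        have n3 : ¬ (p : ℤ) ∣ 3 := by exact_mod_cast hne 3 Nat.prime_three h3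
        have q2 : ¬ ng p 0 = ng p (6 * h) := by
          intro hq
          have h4 := c2.1 hq
          have h5 : (p : ℤ) ∣ 2 * (3 * h) := by
            rw [show (2 : ℤ) * (3 * h) = 6 * h by ring]; exact h4
          rcases hpr.dvd_or_dvd h5 with h6 | h6
          · exact n2 h6
          · rcases hpr.dvd_or_dvd h6 with h7 | h7
            · exact n3 h7
            · exact hph (by exact_mod_cast h7)
        rw [card_insert_of_notMem, card_pair q3]
        rw [mem_insert, mem_singleton, not_or]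
        exact ⟨q1, q2⟩

/-- the partial products of the constant of the problem -/
noncomputable def Dz (z : ℕ) : ℝ := 9 / 2 * ∏ p ∈ (Icc 5 z).filter Nat.Prime, ((p : ℝ) ^ 2 * (p - 3) / (p - 1) ^ 3)

/-- the arithmetical factor -/
noncomputable def gh (h : ℕ) : ℝ := (if 3 ∣ h then 2 else 1) * ∏ p ∈ h.primeFactors.filter (fun p => 3 < p), (((p : ℝ) - 1) / (p - 3))

lemma gh_ge (h : ℕ) : 1 ≤ gh h := by
  unfold gh
  have h1 : (1 : ℝ) ≤ if 3 ∣ h then 2 else 1 := by split_ifs <;> norm_num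
  have h2 : (1 : ℝ) ≤ ∏ p ∈ h.primeFactors.filter (fun p => 3 < p), (((p : ℝ) - 1) / (p - 3)) := by
    have h0 : (1 : ℝ) = ∏ _p ∈ h.primeFactors.filter (fun p => 3 < p), (1 : ℝ) := by simp
    refine h0.le.trans (prod_le_prod (fun _ _ => zero_le_one) fun p hp => ?_)
    have h3 : 3 < p := (mem_filter.1 hp).2
    have h4 : (3 : ℝ) < p := by exact_mod_cast h3
    rw [le_div_iff₀ (by linarith)]
    linarith
  nlinarith

lemma gh_one : gh 1 = 1 := by
  unfold gh
  simp

lemma sing_val (a h z : ℕ) (ha : a = 2 ∨ a = 4) (hh : 1 ≤ h) (hz : 4 ≤ z) (hhz : h ≤ z) :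
    singZ (fun i => (sh a h i : ℤ)) z = Dz z * gh h := by
  unfold singZ
  have e1 : (Icc 1 z).filter Nat.Prime = insert 2 (insert 3 ((Icc 5 z).filter Nat.Prime)) := by
    ext p
    simp only [mem_filter, mem_Icc, mem_insert]
    constructor
    · rintro ⟨⟨h1, h2⟩, h3⟩
      by_cases h4 : p = 2
      · left; exact h4
      · by_cases h5 : p = 3
        · right; left; exact h5
        · right; right
          have h6 : p ≠ 4 := by rintro rfl; norm_num at h3
          have h7 := h3.two_le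
          exact ⟨⟨by omega, h2⟩, h3⟩
    · rintro (h1 | h1 | ⟨⟨h1, h2⟩, h3⟩)
      · subst h1; exact ⟨⟨by omega, by omega⟩, Nat.prime_two⟩
      · subst h1; exact ⟨⟨by omega, by omega⟩, Nat.prime_three⟩
      · exact ⟨⟨by omega, h2⟩, h3⟩
  rw [e1, prod_insert (by simp), prod_insert (by simp), nu_vals 2 Nat.prime_two a h ha, nu_vals 3 Nat.prime_three a h ha]
  rw [if_pos rfl, if_neg (by norm_num), if_pos rfl]
  have e2 : ∏ p ∈ (Icc 5 z).filter Nat.Prime, (1 - (nuP (fun i => (sh a h i : ℤ)) p : ℝ) / p) / (1 - 1 / (p : ℝ)) ^ (2 + 1) =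
      (∏ p ∈ (Icc 5 z).filter Nat.Prime, ((p : ℝ) ^ 2 * (p - 3) / (p - 1) ^ 3)) *
      ∏ p ∈ h.primeFactors.filter (fun p => 3 < p), (((p : ℝ) - 1) / (p - 3)) := by
    have e3 : ∏ p ∈ h.primeFactors.filter (fun p => 3 < p), (((p : ℝ) - 1) / (p - 3)) =
        ∏ p ∈ (Icc 5 z).filter Nat.Prime, (if p ∣ h then (((p : ℝ) - 1) / (p - 3)) else 1) := by
      rw [← prod_filter]
      apply prod_congr _ (fun _ _ => rfl)
      ext p
      simp only [mem_filter, mem_Icc, Nat.mem_primeFactors]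
      constructor
      · rintro ⟨⟨h1, h2, h3⟩, h4⟩
        have h6 : p ≠ 4 := by rintro rfl; norm_num at h1
        exact ⟨⟨⟨by omega, (Nat.le_of_dvd (by omega) h2).trans hhz⟩, h1⟩, h2⟩
      · rintro ⟨⟨⟨h1, h2⟩, h3⟩, h4⟩
        exact ⟨⟨h3, h4, by omega⟩, by omega⟩
    rw [e3, ← prod_mul_distrib]
    refine prod_congr rfl fun p hp => ?_
    rw [mem_filter, mem_Icc] at hp
    obtain ⟨⟨hp1, -⟩, hp2⟩ := hp
    rw [nu_vals p hp2 a h ha, if_neg (by omega), if_neg (by omega)]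
    have hp5 : (5 : ℝ) ≤ p := by exact_mod_cast hp1
    have q1 : (p : ℝ) - 1 ≠ 0 := by linarith
    have q3 : (p : ℝ) - 3 ≠ 0 := by linarith
    have q0 : (p : ℝ) ≠ 0 := by linarith
    split_ifs with hd
    · push_cast
      field_simp
    · push_cast
      field_simp
  rw [e2]
  unfold Dz gh
  split_ifs with h3
  · push_cast
    ring
  · push_cast
    ring

end Pool.Agent.E8helper28.LN
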