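import Pool.Agent.E8helper28.LN.Hl
import Pool.Agent.E8helper28.LN.Sing
import Pool.Agent.E8helper28.LN.Avg2

set_option autoImplicit false
set_option maxHeartbeats 4000000

/-!
# Prime triples `p, p + a h, p + 6 h` for almost all `h` (helper28)
-/

namespace Pool.Agent.E8helper28.LN

open Finset Pool.Agent.H373R2.T7 Pool.Agent.H560R3.GB
open Pool.Agent.E8helper66.GB (S_U3)

lemma sh0 (a h : ℕ) : sh a h 0 = a * h := rfl
lemma sh1 (a h : ℕ) : sh a h 1 = 6 * h := rfl

theorem diff (hU3 : S_U3) (a : ℕ) (ha : a = 2 ∨ a = 4) : DIFF 2 (sh a) := by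
  intro U
  obtain ⟨B, hB⟩ := avg hU3 U
  refine ⟨B, fun E => ?_⟩
  obtain ⟨N0, h0⟩ := hB E
  obtain ⟨n1, h1⟩ := ev_L' 1
  refine ⟨max N0 n1, fun N hN z hz1 hz2 => ?_⟩
  have hL := h1 N ((le_max_right _ _).trans hN)
  have key := h0 N ((le_max_left _ _).trans hN) z hz1 hz2 La (by
    intro n hn
    rw [mem_Icc] at hn
    unfold La
    rw [abs_of_nonneg ArithmeticFunction.vonMangoldt_nonneg]
    have h2 : ArithmeticFunction.vonMangoldt n ≤ Real.log N :=
      ArithmeticFunction.vonMangoldt_le_log.trans (Real.log_le_log (by exact_mod_cast hn.1) (by exact_mod_cast hn.2))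
    nlinarith) a ha
  rw [← sq]
  refine le_trans (le_of_eq ?_) key
  refine sum_congr rfl fun h hh => ?_
  congr 1
  refine sum_congr rfl fun n hn => ?_
  rw [mem_Icc] at hn
  have e : ∀ s : ℕ, lamI ((n : ℤ) + (s : ℤ)) = La (n + s) ∧ lamzI z ((n : ℤ) + (s : ℤ)) = lamz z (n + s) := by
    intro s
    unfold lamI lamzI La
    rw [if_pos (by omega), if_pos (by omega)]
    have : ((n : ℤ) + (s : ℤ)).toNat = n + s := by omega
    rw [this]
    exact ⟨rfl, rfl⟩
  rw [Fin.prod_univ_two, Fin.prod_univ_two, (e _).1, (e _).1, (e _).2, (e _).2, sh0, sh1]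
  rfl

/-- the constant -/
theorem const : ∃ D : ℝ, 0 < D ∧ Filter.Tendsto Dz Filter.atTop (nhds D) := by
  obtain ⟨S, hS, -⟩ := sing_limit (fun i => (sh 2 1 i : ℤ)) (by
    intro i
    fin_cases i <;> simp [sh]) (by
    intro i j hij
    fin_cases i <;> fin_cases j <;> simp_all [sh])
  have h1 : Filter.Tendsto Dz Filter.atTop (nhds S) := by
    refine hS.congr' ?_
    rw [Filter.EventuallyEq, Filter.eventually_atTop]
    refine ⟨4, fun z hz => ?_⟩
    rw [sing_val 2 1 z (Or.inl rfl) le_rfl hz (by omega), gh_one, mul_one]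
  obtain ⟨c, hc, hlow⟩ := singZ_low 2
  have hadm : Admissible (fun i => (sh 2 1 i : ℤ)) := by
    intro p hp
    by_cases h2 : p = 2
    · subst h2
      refine ⟨1, by norm_num, fun i => ?_⟩
      fin_cases i <;> simp [sh]
    · by_cases h3 : p = 5
      · subst h3
        refine ⟨1, by norm_num, fun i => ?_⟩
        fin_cases i <;> simp [sh]
      · refine ⟨-1, ?_, fun i => ?_⟩
        · rw [Int.dvd_neg]
          intro h
          have := Int.eq_one_of_dvd_one (by positivity) h
          have := hp.one_lt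
          omega
        · fin_cases i
          · simp only [sh, Fin.zero_eta, Fin.isValue, Matrix.cons_val_zero]
            norm_num
            intro h
            have := Int.eq_one_of_dvd_one (by positivity) h
            have := hp.one_lt
            omega
          · simp only [sh, Fin.mk_one, Fin.isValue, Matrix.cons_val_one, Matrix.cons_val_fin_one]
            norm_num
            intro h
            have h5 : p ∣ 5 := by exact_mod_cast h
            exact h3 ((Nat.prime_dvd_prime_iff_eq hp Nat.prime_five).1 h5)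
  exact ⟨S, lt_of_lt_of_le hc (ge_of_tendsto' hS (hlow _ hadm)), h1⟩

/-- the formula of Hardy and Littlewood for the shifts `a h, 6 h` and the primes up to `N` -/
def HL (D ε : ℝ) (U N a h : ℕ) : Prop :=
  |tupleCount (fun i => (sh a h i : ℤ)) N - D * gh h * N| ≤ (N : ℝ) / Real.log N ^ U ∧
  |(primeTuples (sh a h) N : ℝ) - D * gh h * (N / Real.log N ^ 3)| ≤ ε * (D * gh h * (N / Real.log N ^ 3))

open Classical in
theorem hl (hU3 : S_U3) (D : ℝ) (hD : 0 < D) (hDz : Filter.Tendsto Dz Filter.atTop (nhds D)) (U : ℕ) (ε : ℝ) (hε : 0 < ε)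
    (a : ℕ) (ha : a = 2 ∨ a = 4) :
    ∃ N₀ : ℕ, ∀ N : ℕ, N₀ ≤ N → (((Icc 1 N).filter (fun h => ¬ HL D ε U N a h)).card : ℝ) ≤ N / Real.log N ^ U := by
  have ha6 : a ≤ 6 := by rcases ha with rfl | rfl <;> norm_num
  have ha0 : a ≠ 0 := by rcases ha with rfl | rfl <;> norm_num
  have haa : a ≠ 6 := by rcases ha with rfl | rfl <;> norm_num
  have hB : ∀ N : ℕ, ∀ h ∈ Icc 1 N, ∀ i, sh a h i ≤ 6 * N := by
    intro N h hh i
    rw [mem_Icc] at hh
    fin_cases i
    · show a * h ≤ 6 * N
      exact Nat.mul_le_mul ha6 hh.2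
    · show 6 * h ≤ 6 * N
      exact Nat.mul_le_mul_left 6 hh.2
  obtain ⟨n0, h0⟩ := lfull 2 6 (by norm_num) (sh a) hB (diff hU3 a ha) (by
    intro h hh i
    fin_cases i
    · show a * h ≠ 0
      exact Nat.mul_ne_zero ha0 (by omega)
    · show 6 * h ≠ 0
      omega) (by
    intro h hh i j hij
    have e1 : a * h ≠ 6 * h := fun h1 => haa (Nat.eq_of_mul_eq_mul_right (by omega) h1)
    fin_cases i <;> fin_cases j
    · exact absurd rfl hij
    · exact e1
    · exact fun h => e1 h.symm
    · exact absurd rfl hij) (U + 1)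
  obtain ⟨n1, h1⟩ := tuple_transfer 2 6 D ε hD hε
  obtain ⟨n2, h2⟩ := ev_L' 1
  refine ⟨max n0 (max n1 n2), fun N hN => ?_⟩
  have b0 := (le_max_left _ _).trans hN
  have b1 := ((le_max_left _ _).trans (le_max_right _ _)).trans hN
  have b2 := ((le_max_right _ _).trans (le_max_right _ _)).trans hN
  have hL := h2 N b2
  have hN0 : (0 : ℝ) ≤ N := Nat.cast_nonneg _
  have hL0 : 0 < Real.log (N : ℝ) := by linarith
  have hsub : (Icc 1 N).filter (fun h => ¬ HL D ε U N a h) ⊆ (Icc 1 N).filter (fun m : ℕ =>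
        ¬ ∃ S : ℝ, Filter.Tendsto (fun z => singZ (fun i => (sh a m i : ℤ)) z) Filter.atTop (nhds S) ∧
        |tupleCount (fun i => (sh a m i : ℤ)) N - S * N| ≤ (N : ℝ) / Real.log N ^ (U + 1)) := by
    intro m hm
    rw [mem_filter] at hm ⊢
    refine ⟨hm.1, fun hcon => hm.2 ?_⟩
    obtain ⟨S, hS, hS2⟩ := hcon
    have hm1 := mem_Icc.1 hm.1
    have hSe : S = D * gh m := by
      refine tendsto_nhds_unique hS ?_
      refine (hDz.mul_const (gh m)).congr' ?_
      rw [Filter.EventuallyEq, Filter.eventually_atTop]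
      refine ⟨max 4 m, fun z hz => ?_⟩
      rw [sing_val a m z ha hm1.1 ((le_max_left _ _).trans hz) ((le_max_right _ _).trans hz)]
    subst hSe
    have hDS : D ≤ D * gh m := le_mul_of_one_le_right hD.le (gh_ge m)
    refine ⟨hS2.trans ?_, ?_⟩
    · apply div_le_div_of_nonneg_left hN0 (by positivity)
      exact pow_le_pow_right₀ hL (by omega)
    · apply h1 N b1 (sh a m) (hB N m hm.1) _ hDS
      refine hS2.trans ?_
      apply div_le_div_of_nonneg_left hN0 hL0
      exact le_self_pow₀ hL (by omega)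
  refine le_trans (by exact_mod_cast card_le_card hsub) ((h0 N b0).trans ?_)
  apply div_le_div_of_nonneg_left hN0 (by positivity)
  exact pow_le_pow_right₀ hL (by omega)

end Pool.Agent.E8helper28.LN
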