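import Pool.Agent.E8helper28.LN.Hl
import Pool.Agent.E8helper28.LN.Avg2

set_option autoImplicit false
set_option maxHeartbeats 4000000

/-!
# Pairs of primes `n + a h, n + 6 h` with `n` in an arbitrary set, for almost all `h` (helper28)
-/

namespace Pool.Agent.E8helper28.LN

open Finset Pool.Agent.H373R2.T7 Pool.Agent.H560R3.GB
open Pool.Agent.E8helper66.GB (S_U3)

open Classical in
/-- the number of `n ∈ M`, `n ≤ N`, for which `n + a h` and `n + b h` are primes -/
noncomputable def pairs (M : Set ℕ) (a b h N : ℕ) : ℕ :=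
  ((Icc 1 N).filter (fun n => n ∈ M ∧ (n + a * h).Prime ∧ (n + b * h).Prime)).card

open Classical in
/-- the number of `n ∈ M`, `n ≤ N`, for which `n + a h` and `n + b h` are free of primes `p ≤ z` -/
noncomputable def rough (z : ℕ) (M : Set ℕ) (a b h N : ℕ) : ℕ :=
  ((Icc 1 N).filter (fun n => n ∈ M ∧ ∀ p : ℕ, p.Prime → p ≤ z → ¬ p ∣ n + a * h ∧ ¬ p ∣ n + b * h)).card

open Classical in
lemma model_eq (z : ℕ) (M : Set ℕ) (a b h N : ℕ) :
    ∑ n ∈ Icc 1 N, (if n ∈ M then (1 : ℝ) else 0) * (lamz z (n + a * h) * lamz z (n + b * h)) =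
      rough z M a b h N / (Vz z) ^ 2 := by
  unfold rough
  rw [card_filter]
  push_cast
  rw [sum_div]
  refine sum_congr rfl fun n _ => ?_
  unfold lamz
  by_cases hM : n ∈ M
  · rw [if_pos hM, one_mul]
    by_cases h1 : ∀ p ∈ pz z, ¬ p ∣ n + a * h
    · by_cases h2 : ∀ p ∈ pz z, ¬ p ∣ n + b * h
      · rw [if_pos h1, if_pos h2, if_pos ⟨hM, fun p hp hpz => ⟨h1 p (mem_pz.2 ⟨hpz, hp⟩), h2 p (mem_pz.2 ⟨hpz, hp⟩)⟩⟩]
        rw [sq, one_div, mul_inv]
      · rw [if_neg h2, mul_zero, if_neg, zero_div]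
        rintro ⟨-, h3⟩
        apply h2
        intro p hp
        rw [mem_pz] at hp
        exact (h3 p hp.2 hp.1).2
    · rw [if_neg h1, zero_mul, if_neg, zero_div]
      rintro ⟨-, h3⟩
      apply h1
      intro p hp
      rw [mem_pz] at hp
      exact (h3 p hp.2 hp.1).1
  · rw [if_neg hM, zero_mul, if_neg (fun h => hM h.1), zero_div]

lemma La_lamI (n s : ℕ) (hn : 1 ≤ n) : La (n + s) = lamI ((n : ℤ) + (s : ℤ)) := by
  unfold lamI La
  rw [if_pos (by omega)]
  have : ((n : ℤ) + (s : ℤ)).toNat = n + s := by omega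
  rw [this]

open Classical in
/-- upper bound for the number of pairs -/
lemma pairs_upper (M : Set ℕ) (a b h N : ℕ) (T l : ℝ) (hT : 1 ≤ T) (hl : 0 ≤ l) (hlT : l ≤ Real.log T) :
    l ^ 2 * pairs M a b h N ≤
      ∑ n ∈ Icc 1 N, (if n ∈ M then (1 : ℝ) else 0) * (La (n + a * h) * La (n + b * h)) + l ^ 2 * T := by
  unfold pairs
  rw [card_filter]
  push_cast
  have hT2 : ∑ n ∈ Icc 1 N, (if (n : ℝ) ≤ T then (1 : ℝ) else 0) ≤ T := by
    rw [← sum_filter, sum_const, nsmul_eq_mul, mul_one]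
    have h3 : ((Icc 1 N).filter (fun p : ℕ => (p : ℝ) ≤ T)).card ≤ ⌊T⌋₊ := by
      calc _ ≤ (Icc 1 ⌊T⌋₊).card := by
            apply card_le_card
            intro p hp
            rw [mem_filter, mem_Icc] at hp
            rw [mem_Icc]
            exact ⟨hp.1.1, Nat.le_floor hp.2⟩
        _ = _ := by simp
    have h4 : (((Icc 1 N).filter (fun p : ℕ => (p : ℝ) ≤ T)).card : ℝ) ≤ ⌊T⌋₊ := by exact_mod_cast h3
    exact h4.trans (Nat.floor_le (by linarith))
  have hpt : ∀ n ∈ Icc 1 N, l ^ 2 * (if n ∈ M ∧ (n + a * h).Prime ∧ (n + b * h).Prime then (1 : ℝ) else 0) ≤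
      (if n ∈ M then (1 : ℝ) else 0) * (La (n + a * h) * La (n + b * h)) + l ^ 2 * (if (n : ℝ) ≤ T then (1 : ℝ) else 0) := by
    intro n hn
    rw [mem_Icc] at hn
    have hn1 : (1 : ℝ) ≤ n := by exact_mod_cast hn.1
    have h0 : 0 ≤ La (n + a * h) * La (n + b * h) := mul_nonneg ArithmeticFunction.vonMangoldt_nonneg ArithmeticFunction.vonMangoldt_nonneg
    by_cases hc : n ∈ M ∧ (n + a * h).Prime ∧ (n + b * h).Prime
    · rw [if_pos hc, if_pos hc.1]
      by_cases hnT : (n : ℝ) ≤ T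
      · rw [if_pos hnT]; linarith
      · rw [if_neg hnT, mul_zero, add_zero, mul_one, one_mul, sq]
        push Not at hnT
        have h4 : l ≤ Real.log n := hlT.trans (Real.log_le_log (by linarith) hnT.le)
        have h5 : ∀ s : ℕ, (n + s).Prime → l ≤ La (n + s) := by
          intro s hs
          unfold La
          rw [ArithmeticFunction.vonMangoldt_apply_prime hs]
          refine h4.trans (Real.log_le_log (by linarith) ?_)
          push_cast
          have : (0 : ℝ) ≤ s := Nat.cast_nonneg _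
          linarith
        exact mul_le_mul (h5 _ hc.2.1) (h5 _ hc.2.2) hl (hl.trans (h5 _ hc.2.1))
    · rw [if_neg hc, mul_zero]
      have h1 : (0 : ℝ) ≤ if n ∈ M then (1 : ℝ) else 0 := by split_ifs <;> norm_num
      have h2 : (0 : ℝ) ≤ if (n : ℝ) ≤ T then (1 : ℝ) else 0 := by split_ifs <;> norm_num
      positivity
  rw [mul_sum]
  refine (sum_le_sum hpt).trans ?_
  rw [sum_add_distrib, ← mul_sum]
  have : 0 ≤ l ^ 2 := by positivity
  nlinarith

open Classical in
/-- lower bound for the number of pairs -/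
lemma pairs_lower (M : Set ℕ) (a b h N X : ℕ) (hX1 : 1 ≤ X) (hXa : N + a * h ≤ X) (hXb : N + b * h ≤ X) (l : ℝ)
    (hl : Real.log X ≤ l) :
    ∑ n ∈ Icc 1 N, (if n ∈ M then (1 : ℝ) else 0) * (La (n + a * h) * La (n + b * h)) ≤
      l ^ 2 * pairs M a b h N + 2 * l * (2 * √(X : ℝ) * Real.log X) := by
  have hlog : 0 ≤ Real.log X := Real.log_natCast_nonneg X
  have hl0 : 0 ≤ l := hlog.trans hl
  have hLa : ∀ s : ℕ, N + s ≤ X → ∀ n ∈ Icc 1 N, La (n + s) ≤ l := by
    intro s hs n hn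
    rw [mem_Icc] at hn
    unfold La
    refine ArithmeticFunction.vonMangoldt_le_log.trans (le_trans ?_ hl)
    apply Real.log_le_log (by exact_mod_cast (show 0 < n + s by omega))
    exact_mod_cast (show n + s ≤ X by omega)
  have hpp : ∀ s : ℕ, N + s ≤ X → ∑ n ∈ Icc 1 N, (lamI ((n : ℤ) + (s : ℤ)) - lamP ((n : ℤ) + (s : ℤ))) ≤
      2 * √(X : ℝ) * Real.log X := by
    intro s hs
    refine pp_sum N X s hX1 ?_
    intro n hn
    rw [mem_Icc] at hn
    omega
  unfold pairs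
  rw [card_filter]
  push_cast
  have hpt : ∀ n ∈ Icc 1 N, (if n ∈ M then (1 : ℝ) else 0) * (La (n + a * h) * La (n + b * h)) ≤
      l ^ 2 * (if n ∈ M ∧ (n + a * h).Prime ∧ (n + b * h).Prime then (1 : ℝ) else 0) +
      (l * (lamI ((n : ℤ) + ((a * h : ℕ) : ℤ)) - lamP ((n : ℤ) + ((a * h : ℕ) : ℤ))) +
       l * (lamI ((n : ℤ) + ((b * h : ℕ) : ℤ)) - lamP ((n : ℤ) + ((b * h : ℕ) : ℤ)))) := by
    intro n hn
    have ea := La_lamI n (a * h) (mem_Icc.1 hn).1
    have eb := La_lamI n (b * h) (mem_Icc.1 hn).1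
    have h0a : 0 ≤ La (n + a * h) := ArithmeticFunction.vonMangoldt_nonneg
    have h0b : 0 ≤ La (n + b * h) := ArithmeticFunction.vonMangoldt_nonneg
    have h1a := hLa (a * h) hXa n hn
    have h1b := hLa (b * h) hXb n hn
    have pa := lamP_le ((n : ℤ) + ((a * h : ℕ) : ℤ))
    have pb := lamP_le ((n : ℤ) + ((b * h : ℕ) : ℤ))
    have pa0 := lamP_nonneg ((n : ℤ) + ((a * h : ℕ) : ℤ))
    have pb0 := lamP_nonneg ((n : ℤ) + ((b * h : ℕ) : ℤ))
    have qa : 0 ≤ l * (lamI ((n : ℤ) + ((a * h : ℕ) : ℤ)) - lamP ((n : ℤ) + ((a * h : ℕ) : ℤ))) :=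
      mul_nonneg hl0 (by linarith)
    have qb : 0 ≤ l * (lamI ((n : ℤ) + ((b * h : ℕ) : ℤ)) - lamP ((n : ℤ) + ((b * h : ℕ) : ℤ))) :=
      mul_nonneg hl0 (by linarith)
    by_cases hM : n ∈ M
    · rw [if_pos hM, one_mul]
      by_cases hc1 : (n + a * h).Prime
      · by_cases hc2 : (n + b * h).Prime
        · rw [if_pos ⟨hM, hc1, hc2⟩]
          have : La (n + a * h) * La (n + b * h) ≤ l * l := mul_le_mul h1a h1b h0b hl0
          nlinarith
        · rw [if_neg (fun h => hc2 h.2.2), mul_zero, zero_add]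
          have h2 : lamP ((n : ℤ) + ((b * h : ℕ) : ℤ)) = 0 := by
            unfold lamP
            rw [if_neg]
            rw [show ((n : ℤ) + ((b * h : ℕ) : ℤ)).toNat = n + b * h by omega]
            exact hc2
          have h3 : La (n + a * h) * La (n + b * h) ≤ l * La (n + b * h) := mul_le_mul_of_nonneg_right h1a h0b
          rw [h2, sub_zero, ← eb]
          linarith
      · rw [if_neg (fun h => hc1 h.2.1), mul_zero, zero_add]
        have h2 : lamP ((n : ℤ) + ((a * h : ℕ) : ℤ)) = 0 := by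
          unfold lamP
          rw [if_neg]
          rw [show ((n : ℤ) + ((a * h : ℕ) : ℤ)).toNat = n + a * h by omega]
          exact hc1
        have h3 : La (n + a * h) * La (n + b * h) ≤ La (n + a * h) * l := mul_le_mul_of_nonneg_left h1b h0a
        rw [h2, sub_zero, ← ea]
        linarith
    · rw [if_neg hM, zero_mul, if_neg (fun h => hM h.1), mul_zero, zero_add]
      linarith
  refine (sum_le_sum hpt).trans ?_
  rw [sum_add_distrib, sum_add_distrib, ← mul_sum, ← mul_sum, ← mul_sum]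
  have g1 := mul_le_mul_of_nonneg_left (hpp (a * h) hXa) hl0
  have g2 := mul_le_mul_of_nonneg_left (hpp (b * h) hXb) hl0
  linarith

open Classical in
/-- arbitrary sets `M` -/
theorem rel (hU3 : S_U3) (U K : ℕ) (ε : ℝ) (hε : 0 < ε) : ∃ E₀ : ℕ, ∀ E : ℕ, E₀ ≤ E → ∃ N₀ : ℕ, ∀ N : ℕ, N₀ ≤ N →
    ∀ (M : Set ℕ) (a : ℕ), a = 2 ∨ a = 4 →
    (((Icc 1 N).filter (fun h => ¬ |(pairs M a 6 h N : ℝ) -
        rough ⌈Real.log N ^ E⌉₊ M a 6 h N / (Vz ⌈Real.log N ^ E⌉₊ * Real.log N) ^ 2| ≤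
        ε * (rough ⌈Real.log N ^ E⌉₊ M a 6 h N / (Vz ⌈Real.log N ^ E⌉₊ * Real.log N) ^ 2) + N / Real.log N ^ K)).card : ℝ) ≤
      N / Real.log N ^ U := by
  obtain ⟨δ, hδ0, hδ1, hδa, hδb⟩ := choose_delta 1 ε hε
  obtain ⟨B, hB⟩ := avg hU3 (U + K + 1)
  refine ⟨B, fun E hE => ?_⟩
  obtain ⟨n0, h0⟩ := hB (E + 1)
  have hlim : Filter.Tendsto (fun n : ℕ => (n : ℝ)) Filter.atTop Filter.atTop := tendsto_natCast_atTop_atTop
  have h1 : ∀ᶠ n : ℕ in Filter.atTop, Real.log n ^ (K + 3) ≤ (n : ℝ) ^ δ := by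
    have h := (isLittleO_log_rpow_rpow_atTop ((K + 3 : ℕ) : ℝ) (show (0 : ℝ) < δ by positivity)).bound (show (0 : ℝ) < 1 by norm_num)
    filter_upwards [hlim.eventually h, hlim.eventually_ge_atTop 1] with n hn hn1
    have h0 : 0 ≤ Real.log (n : ℝ) := Real.log_nonneg hn1
    rw [Real.norm_of_nonneg (by positivity), Real.norm_of_nonneg (by positivity), Real.rpow_natCast, one_mul] at hn
    exact hn
  obtain ⟨n1, hn1⟩ := Filter.eventually_atTop.1 h1
  set c : ℝ := (1 - δ) ^ 2 with hc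
  have hc0 : 0 < c := by
    have : 0 < 1 - δ := by linarith
    positivity
  obtain ⟨n2, hn2⟩ := ev_L' (Real.log 7 / δ + 2 / c + 64)
  obtain ⟨n3, hn3⟩ := ev_log' (K + 4) 1
  refine ⟨max (max n0 n1) (max n2 (max n3 3)), fun N hN M a ha => ?_⟩
  have b0 : n0 ≤ N := ((le_max_left _ _).trans (le_max_left _ _)).trans hN
  have b1 := hn1 N (((le_max_right _ _).trans (le_max_left _ _)).trans hN)
  have b2 := hn2 N (((le_max_left _ _).trans (le_max_right _ _)).trans hN)
  have b3 := hn3 N ((((le_max_left _ _).trans (le_max_right _ _)).trans (le_max_right _ _)).trans hN)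
  have hN3 : 3 ≤ N := (((le_max_right _ _).trans (le_max_right _ _)).trans (le_max_right _ _)).trans hN
  rw [one_mul] at b3
  have hNr : (3 : ℝ) ≤ N := by exact_mod_cast hN3
  have hN0 : (0 : ℝ) < N := by linarith
  set L := Real.log (N : ℝ) with hLd
  have hl7 : 0 < Real.log 7 := Real.log_pos (by norm_num)
  have q1 : 0 < Real.log 7 / δ := by positivity
  have q2 : 0 < 2 / c := by positivity
  have hL64 : 64 ≤ L := by linarith
  have hL0 : 0 < L := by linarith
  have hL1 : 1 ≤ L := by linarith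
  have hL7 : Real.log 7 ≤ δ * L := by
    have h : Real.log 7 / δ ≤ L := by linarith
    rw [div_le_iff₀ hδ0] at h
    linarith
  have hLc : 2 ≤ c * L := by
    have h : 2 / c ≤ L := by linarith
    rw [div_le_iff₀ hc0] at h
    linarith
  set z : ℕ := ⌈L ^ E⌉₊ with hz
  have hz1 : L ^ E ≤ z := Nat.le_ceil _
  have hz2 : (z : ℝ) ≤ L ^ (E + 1) := by
    have h6 := (Nat.ceil_lt_add_one (show 0 ≤ L ^ E by positivity)).le
    have h7 : 1 ≤ L ^ E := one_le_pow₀ hL1
    rw [pow_succ]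
    nlinarith
  have key := h0 N b0 z ((pow_le_pow_right₀ hL1 hE).trans hz1) hz2 (fun n => if n ∈ M then (1 : ℝ) else 0) (by
    intro n _
    have : (1 : ℝ) ≤ L ^ 2 := one_le_pow₀ hL1
    split_ifs
    · simpa using this
    · simp; positivity) a ha
  set J : ℕ → ℝ := fun h => |∑ n ∈ Icc 1 N, (if n ∈ M then (1 : ℝ) else 0) * (La (n + a * h) * La (n + 6 * h) -
      lamz z (n + a * h) * lamz z (n + 6 * h))| with hJ
  set bad := (Icc 1 N).filter (fun h => ¬ |(pairs M a 6 h N : ℝ) -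
        rough z M a 6 h N / (Vz z * L) ^ 2| ≤
        ε * (rough z M a 6 h N / (Vz z * L) ^ 2) + N / L ^ K) with hbad
  have hNL : 0 < (N : ℝ) / L ^ (K + 1) := by positivity
  -- good `h`
  have hgood : ∀ h ∈ bad, (N : ℝ) / L ^ (K + 1) ≤ J h := by
    intro h hh
    rw [hbad, mem_filter, mem_Icc] at hh
    by_contra hcon
    apply hh.2
    push Not at hcon
    set T := ∑ n ∈ Icc 1 N, (if n ∈ M then (1 : ℝ) else 0) * (La (n + a * h) * La (n + 6 * h)) with hT
    set Q : ℝ := rough z M a 6 h N / (Vz z * L) ^ 2 with hQ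
    have hVp := Vz_pos z
    have hQ0 : 0 ≤ Q := by positivity
    have hQL : (rough z M a 6 h N : ℝ) / (Vz z) ^ 2 = Q * L ^ 2 := by
      rw [hQ, mul_pow]
      field_simp
    have hJT : J h = |T - Q * L ^ 2| := by
      rw [hJ, ← hQL, ← model_eq, hT, ← sum_sub_distrib]
      simp only
      congr 1
      refine sum_congr rfl fun n _ => ?_
      rw [mul_sub]
    rw [hJT] at hcon
    obtain ⟨t1, t2⟩ := abs_lt.1 hcon
    have hP0 : (0 : ℝ) ≤ pairs M a 6 h N := Nat.cast_nonneg _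
    set P : ℝ := (pairs M a 6 h N : ℝ) with hP
    -- upper bound
    have up := pairs_upper M a 6 h N ((N : ℝ) ^ (1 - δ)) ((1 - δ) * L)
      (Real.one_le_rpow (by linarith) (by linarith)) (mul_nonneg (by linarith) hL0.le) (by rw [Real.log_rpow hN0])
    rw [← hT, ← hP, mul_pow, ← hc] at up
    have hsm : (N : ℝ) ^ (1 - δ) ≤ N / L ^ (K + 3) := by
      rw [le_div_iff₀ (by positivity)]
      have e : (N : ℝ) ^ (1 - δ) * (N : ℝ) ^ δ = N := by
        rw [← Real.rpow_add hN0]; norm_num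
      calc (N : ℝ) ^ (1 - δ) * L ^ (K + 3) ≤ (N : ℝ) ^ (1 - δ) * (N : ℝ) ^ δ := by
            apply mul_le_mul_of_nonneg_left b1 (by positivity)
        _ = N := e
    have hc1 : c ≤ 1 := by
      rw [hc]
      apply pow_le_one₀ (by linarith) (by linarith)
    have u1 : c * L ^ 2 * (N : ℝ) ^ (1 - δ) ≤ N / L ^ (K + 1) := by
      calc c * L ^ 2 * (N : ℝ) ^ (1 - δ) ≤ 1 * L ^ 2 * (N / L ^ (K + 3)) := by gcongr
        _ = N / L ^ (K + 1) := by
          rw [pow_add L K 3, pow_add L K 1]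
          field_simp
    have hK1 : (N : ℝ) / L ^ K = L * (N / L ^ (K + 1)) := by
      rw [pow_add L K 1]
      field_simp
    set w : ℝ := N / L ^ (K + 1) with hw
    have upper : P ≤ Q + (ε * Q + N / L ^ K) := by
      have e1 : c * L ^ 2 * P ≤ c * L ^ 2 * (Q + (ε * Q + N / L ^ K)) := by
        have e2 : c * L ^ 2 * (Q + (ε * Q + N / L ^ K)) = ((1 + ε) * c) * Q * L ^ 2 + c * L * (L ^ 2 * w) := by
          rw [hK1]; ring
        rw [e2]
        have e3 : 1 ≤ (1 + ε) * c := by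
          have h9 : 1 + 2 * δ ≤ (1 + ε) * c := hδb
          linarith
        have e4 : Q * L ^ 2 ≤ ((1 + ε) * c) * Q * L ^ 2 := by
          have : 0 ≤ Q * L ^ 2 := by positivity
          nlinarith
        have e5 : 2 * w ≤ c * L * (L ^ 2 * w) := by
          have e6 : w ≤ L ^ 2 * w := le_mul_of_one_le_left hNL.le (one_le_pow₀ hL1)
          exact mul_le_mul hLc e6 hNL.le (by positivity)
        linarith
      exact le_of_mul_le_mul_left e1 (by positivity)
    -- lower bound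
    have ha6 : a ≤ 6 := by rcases ha with rfl | rfl <;> norm_num
    have lo := pairs_lower M a 6 h N (7 * N) (by omega) (by nlinarith [hh.1.2]) (by omega) ((1 + δ) * L) (by
      push_cast
      rw [Real.log_mul (by norm_num) hN0.ne', ← hLd]
      linarith)
    rw [← hT, ← hP] at lo
    have hlog7 : Real.log ((7 * N : ℕ) : ℝ) ≤ 2 * L := by
      push_cast
      rw [Real.log_mul (by norm_num) hN0.ne', ← hLd]
      nlinarith
    have hlog70 : 0 ≤ Real.log ((7 * N : ℕ) : ℝ) := Real.log_natCast_nonneg _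
    have hsq7 : √((7 * N : ℕ) : ℝ) ≤ 3 * √(N : ℝ) := by
      push_cast
      rw [Real.sqrt_mul (by norm_num)]
      apply mul_le_mul_of_nonneg_right _ (Real.sqrt_nonneg _)
      rw [Real.sqrt_le_left (by norm_num)]
      norm_num
    have l1 : 2 * ((1 + δ) * L) * (2 * √((7 * N : ℕ) : ℝ) * Real.log ((7 * N : ℕ) : ℝ)) ≤ w := by
      calc 2 * ((1 + δ) * L) * (2 * √((7 * N : ℕ) : ℝ) * Real.log ((7 * N : ℕ) : ℝ))
          ≤ 2 * (2 * L) * (2 * (3 * √(N : ℝ)) * (2 * L)) := by gcongr; linarith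
        _ = 48 * L ^ 2 * √(N : ℝ) := by ring
        _ ≤ L ^ 3 * √(N : ℝ) := by
          apply mul_le_mul_of_nonneg_right _ (Real.sqrt_nonneg _)
          have : 0 < L ^ 2 := by positivity
          nlinarith
        _ ≤ w := by
          rw [hw, le_div_iff₀ (by positivity)]
          calc L ^ 3 * √(N : ℝ) * L ^ (K + 1) = L ^ (K + 4) * √(N : ℝ) := by ring
            _ ≤ √(N : ℝ) * √(N : ℝ) := mul_le_mul_of_nonneg_right b3 (Real.sqrt_nonneg _)
            _ = N := Real.mul_self_sqrt hN0.le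
    have lower : Q - (ε * Q + N / L ^ K) ≤ P := by
      have e1 : ((1 + δ) * L) ^ 2 * (Q - (ε * Q + N / L ^ K)) ≤ ((1 + δ) * L) ^ 2 * P := by
        have e2 : ((1 + δ) * L) ^ 2 * (Q - (ε * Q + N / L ^ K)) = ((1 - ε) * (1 + δ) ^ 2) * (Q * L ^ 2) - (1 + δ) ^ 2 * L * (L ^ 2 * w) := by
          rw [hK1]; ring
        rw [e2]
        have e3 : (1 - ε) * (1 + δ) ^ 2 ≤ 1 := by
          have h9 : (1 - ε) * (1 + δ) ^ 2 ≤ 1 - δ := hδa
          linarith
        have e4 : ((1 - ε) * (1 + δ) ^ 2) * (Q * L ^ 2) ≤ Q * L ^ 2 := by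
          have : 0 ≤ Q * L ^ 2 := by positivity
          nlinarith
        have e5 : 2 * w ≤ (1 + δ) ^ 2 * L * (L ^ 2 * w) := by
          have e6 : w ≤ L ^ 2 * w := le_mul_of_one_le_left hNL.le (one_le_pow₀ hL1)
          have e7 : 2 ≤ (1 + δ) ^ 2 * L := by
            have : 1 ≤ (1 + δ) ^ 2 := one_le_pow₀ (by linarith)
            nlinarith
          exact mul_le_mul e7 e6 hNL.le (by positivity)
        linarith
      exact le_of_mul_le_mul_left e1 (by positivity)
    rw [abs_le]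
    constructor <;> linarith
  have hcard : (bad.card : ℝ) * ((N : ℝ) / L ^ (K + 1)) ≤ (N : ℝ) ^ 2 / L ^ (U + K + 1) := by
    refine le_trans ?_ key
    calc (bad.card : ℝ) * ((N : ℝ) / L ^ (K + 1)) = ∑ _h ∈ bad, (N : ℝ) / L ^ (K + 1) := by rw [sum_const, nsmul_eq_mul]
      _ ≤ ∑ h ∈ bad, J h := sum_le_sum hgood
      _ ≤ ∑ h ∈ Icc 1 N, J h := sum_le_sum_of_subset_of_nonneg (filter_subset _ _) (fun _ _ _ => abs_nonneg _)
  have e : (N : ℝ) ^ 2 / L ^ (U + K + 1) = (N / L ^ U) * (N / L ^ (K + 1)) := by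
    rw [show U + K + 1 = U + (K + 1) by ring, pow_add L U (K + 1)]
    field_simp
  rw [e] at hcard
  exact le_of_mul_le_mul_right hcard hNL

end Pool.Agent.E8helper28.LN
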