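import Pool.Agent.E8helper81.GB.Est

set_option autoImplicit false

/-!
# Linear patterns of complexity two with arbitrary weights (helper28): Fourier analysis

Four linear forms `x`, `y`, `u x + v y + c`, `r x + s y` in two variables.
-/

namespace Pool.Agent.E8helper28.LN

open Finset
open Pool.Agent.H807R2.Dav (ee norm_ee ee_add ee_int ee_zero ee_pow ee_eq)
open Pool.Agent.E8helper81.GB (orth pars xt xt_out xt_in xt_abs max_h)
open Pool.Agent.E8helper66.GB (FF)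

/-- the trilinear form -/
noncomputable def TT (M : ℕ) (u v c : ℤ) (f g k : ℤ → ℂ) : ℂ :=
  ∑ x ∈ Icc (-(M : ℤ)) M, ∑ y ∈ Icc (-(M : ℤ)) M, f x * g y * k (u * x + v * y + c)

lemma TT_four (M R : ℕ) (u v c : ℤ) (hR : (|u| + |v| + 1) * M + |c| < R) (f g k : ℤ → ℂ)
    (hk : ∀ w : ℤ, ¬ (-(M : ℤ) ≤ w ∧ w ≤ M) → k w = 0) :
    (R : ℂ) * TT M u v c f g k = ∑ j ∈ range R,
      (∑ x ∈ Icc (-(M : ℤ)) M, f x * ee ((j : ℝ) * (((u * x : ℤ) : ℝ) / R))) *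
      (∑ y ∈ Icc (-(M : ℤ)) M, g y * ee ((j : ℝ) * (((v * y : ℤ) : ℝ) / R))) *
      (∑ w ∈ Icc (-(M : ℤ)) M, k w * ee ((j : ℝ) * (((c - w : ℤ) : ℝ) / R))) := by
  have hR0 : 0 < R := by
    have h1 : 0 ≤ (|u| + |v| + 1) * (M : ℤ) := by positivity
    have h2 := abs_nonneg c
    have h3 : (0 : ℤ) < R := by linarith
    exact_mod_cast h3
  have h1 : ∀ j ∈ range R, (∑ x ∈ Icc (-(M : ℤ)) M, f x * ee ((j : ℝ) * (((u * x : ℤ) : ℝ) / R))) *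
      (∑ y ∈ Icc (-(M : ℤ)) M, g y * ee ((j : ℝ) * (((v * y : ℤ) : ℝ) / R))) *
      (∑ w ∈ Icc (-(M : ℤ)) M, k w * ee ((j : ℝ) * (((c - w : ℤ) : ℝ) / R))) =
      ∑ x ∈ Icc (-(M : ℤ)) M, ∑ y ∈ Icc (-(M : ℤ)) M, ∑ w ∈ Icc (-(M : ℤ)) M,
        (f x * g y * k w) * ee ((j : ℝ) * (((u * x + v * y + c - w : ℤ) : ℝ) / R)) := by
    intro j _
    rw [sum_mul_sum, sum_mul]
    refine sum_congr rfl fun x _ => ?_
    rw [sum_mul]
    refine sum_congr rfl fun y _ => ?_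
    rw [mul_sum]
    refine sum_congr rfl fun w _ => ?_
    have : ee ((j : ℝ) * (((u * x + v * y + c - w : ℤ) : ℝ) / R)) =
        ee ((j : ℝ) * (((u * x : ℤ) : ℝ) / R)) * ee ((j : ℝ) * (((v * y : ℤ) : ℝ) / R)) *
        ee ((j : ℝ) * (((c - w : ℤ) : ℝ) / R)) := by
      rw [← ee_add, ← ee_add]; congr 1; push_cast; ring
    rw [this]; ring
  rw [sum_congr rfl h1, sum_comm, TT, mul_sum]
  refine sum_congr rfl fun x hx => ?_
  conv_rhs => rw [sum_comm]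
  rw [mul_sum]
  refine sum_congr rfl fun y hy => ?_
  conv_rhs => rw [sum_comm]
  rw [mem_Icc] at hx hy
  have h2 : ∀ w ∈ Icc (-(M : ℤ)) M, ∑ j ∈ range R, (f x * g y * k w) * ee ((j : ℝ) * (((u * x + v * y + c - w : ℤ) : ℝ) / R)) =
      if w = u * x + v * y + c then (R : ℂ) * (f x * g y * k w) else 0 := by
    intro w hw
    rw [mem_Icc] at hw
    have hb : |u * x + v * y + c - w| < R := by
      have e1 : |u * x| ≤ |u| * M := by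
        rw [abs_mul]
        exact mul_le_mul_of_nonneg_left (abs_le.2 hx) (abs_nonneg _)
      have e2 : |v * y| ≤ |v| * M := by
        rw [abs_mul]
        exact mul_le_mul_of_nonneg_left (abs_le.2 hy) (abs_nonneg _)
      have e3 : |w| ≤ M := abs_le.2 hw
      have e4 : |u * x + v * y + c - w| ≤ |u * x| + |v * y| + |c| + |w| := by
        have q1 := abs_sub (u * x + v * y + c) w
        have q2 := abs_add_le (u * x + v * y) c
        have q3 := abs_add_le (u * x) (v * y)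
        linarith
      nlinarith
    rw [← mul_sum, orth R hR0 _ hb]
    by_cases h : w = u * x + v * y + c
    · rw [if_pos h, if_pos (by omega)]; ring
    · rw [if_neg h, if_neg (by omega)]; ring
  rw [sum_congr rfl h2, sum_ite_eq']
  by_cases h3 : u * x + v * y + c ∈ Icc (-(M : ℤ)) M
  · rw [if_pos h3]
  · rw [if_neg h3]
    rw [mem_Icc] at h3
    rw [hk _ h3]
    ring

/-- the mean value of a product of two of the transforms -/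
lemma two_le (R : ℕ) (hR : 0 < R) (A B C : ℕ → ℂ) (T : ℂ) (S K : ℝ) (hT : (R : ℂ) * T = ∑ j ∈ range R, A j * B j * C j)
    (hA : ∑ j ∈ range R, ‖A j‖ ^ 2 ≤ R * S) (hB : ∑ j ∈ range R, ‖B j‖ ^ 2 ≤ R * S)
    (hC : ∀ j ∈ range R, ‖C j‖ ≤ K) : ‖T‖ ≤ K * S := by
  have hR' : (0 : ℝ) < R := by exact_mod_cast hR
  have hK0 : 0 ≤ K := (norm_nonneg _).trans (hC 0 (mem_range.2 hR))
  have h1 : (R : ℝ) * ‖T‖ ≤ ∑ j ∈ range R, K * ((‖A j‖ ^ 2 + ‖B j‖ ^ 2) / 2) := by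
    calc (R : ℝ) * ‖T‖ = ‖(R : ℂ) * T‖ := by rw [norm_mul]; simp
      _ = ‖∑ j ∈ range R, A j * B j * C j‖ := by rw [hT]
      _ ≤ ∑ j ∈ range R, ‖A j * B j * C j‖ := norm_sum_le _ _
      _ ≤ _ := by
        refine sum_le_sum fun j hj => ?_
        rw [norm_mul, norm_mul]
        have e1 := hC j hj
        have e2 : ‖A j‖ * ‖B j‖ ≤ (‖A j‖ ^ 2 + ‖B j‖ ^ 2) / 2 := by nlinarith [sq_nonneg (‖A j‖ - ‖B j‖)]
        calc ‖A j‖ * ‖B j‖ * ‖C j‖ ≤ ((‖A j‖ ^ 2 + ‖B j‖ ^ 2) / 2) * K :=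
              mul_le_mul e2 e1 (norm_nonneg _) (by positivity)
          _ = _ := by ring
  have h2 : ∑ j ∈ range R, K * ((‖A j‖ ^ 2 + ‖B j‖ ^ 2) / 2) ≤ R * (K * S) := by
    rw [← mul_sum, ← sum_div, sum_add_distrib]
    have : (∑ j ∈ range R, ‖A j‖ ^ 2 + ∑ j ∈ range R, ‖B j‖ ^ 2) / 2 ≤ R * S := by linarith
    calc K * _ ≤ K * (R * S) := mul_le_mul_of_nonneg_left this hK0
      _ = _ := by ring
  exact le_of_mul_le_mul_left (h1.trans h2) hR'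

lemma l2_le (M : ℕ) (f : ℤ → ℂ) (Q : ℝ) (hf : ∀ x, ‖f x‖ ≤ Q) :
    ∑ x ∈ Icc (-(M : ℤ)) M, ‖f x‖ ^ 2 ≤ (2 * M + 1) * Q ^ 2 := by
  calc ∑ x ∈ Icc (-(M : ℤ)) M, ‖f x‖ ^ 2 ≤ ∑ x ∈ Icc (-(M : ℤ)) M, Q ^ 2 :=
        sum_le_sum fun x _ => pow_le_pow_left₀ (norm_nonneg _) (hf x) 2
    _ = (2 * M + 1) * Q ^ 2 := by
      rw [sum_const, nsmul_eq_mul, Int.card_Icc]
      congr 1
      have : ((M : ℤ) + 1 - -(M : ℤ)).toNat = 2 * M + 1 := by omega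
      rw [this]
      push_cast
      ring

/-- Parseval for the frequencies `a x + b` -/
lemma pars_lin (M R : ℕ) (a b : ℤ) (ha : a ≠ 0) (hR : 2 * |a| * M < R) (f : ℤ → ℂ) (Q : ℝ) (hf : ∀ x, ‖f x‖ ≤ Q) :
    ∑ j ∈ range R, ‖∑ x ∈ Icc (-(M : ℤ)) M, f x * ee ((j : ℝ) * (((a * x + b : ℤ) : ℝ) / R))‖ ^ 2 ≤
      R * ((2 * M + 1) * Q ^ 2) := by
  have hR0 : 0 < R := by
    have h1 : 0 ≤ 2 * |a| * (M : ℤ) := by positivity
    have h3 : (0 : ℤ) < R := by linarith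
    exact_mod_cast h3
  rw [pars R hR0 (Icc (-(M : ℤ)) M) (fun x => a * x + b) f ?_ ?_]
  · exact mul_le_mul_of_nonneg_left (l2_le M f Q hf) (Nat.cast_nonneg _)
  · intro s _ t _ h
    have : a * s = a * t := by linarith
    exact mul_left_cancel₀ ha this
  · intro s hs t ht
    rw [mem_Icc] at hs ht
    have e : a * s + b - (a * t + b) = a * (s - t) := by ring
    rw [e, abs_mul]
    have h2 : |s - t| ≤ 2 * M := by rw [abs_le]; constructor <;> omega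
    calc |a| * |s - t| ≤ |a| * (2 * M) := mul_le_mul_of_nonneg_left h2 (abs_nonneg _)
      _ = 2 * |a| * M := by ring
      _ < R := hR

/-- the values of the transform at the multiples of the frequencies -/
lemma freq_mod (R : ℕ) (hR : 0 < R) (I : Finset ℤ) (f : ℤ → ℂ) (a : ℤ) (j : ℕ) :
    ∃ j' ∈ range R, ∑ x ∈ I, f x * ee ((j : ℝ) * (((a * x : ℤ) : ℝ) / R)) =
      ∑ x ∈ I, f x * ee ((j' : ℝ) * ((x : ℝ) / R)) := by
  have hR' : (R : ℝ) ≠ 0 := by exact_mod_cast hR.ne'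
  refine ⟨((j * a) % (R : ℤ)).toNat, ?_, ?_⟩
  · rw [mem_range]
    have h1 := Int.emod_lt_of_pos ((j : ℤ) * a) (show (0 : ℤ) < R by exact_mod_cast hR)
    have h2 := Int.emod_nonneg ((j : ℤ) * a) (show (R : ℤ) ≠ 0 by exact_mod_cast hR.ne')
    omega
  · refine sum_congr rfl fun x _ => ?_
    congr 1
    have h2 := Int.emod_nonneg ((j : ℤ) * a) (show (R : ℤ) ≠ 0 by exact_mod_cast hR.ne')
    have h3 : ((((j : ℤ) * a) % (R : ℤ)).toNat : ℤ) = ((j : ℤ) * a) % (R : ℤ) := Int.toNat_of_nonneg h2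
    have h4 : ((((j * a) % (R : ℤ)).toNat : ℕ) : ℝ) = (((((j : ℤ) * a) % (R : ℤ)) : ℤ) : ℝ) := by exact_mod_cast h3
    rw [h4]
    have h5 : (j : ℤ) * a = ((j : ℤ) * a) % (R : ℤ) + R * (((j : ℤ) * a) / (R : ℤ)) := (Int.emod_add_mul_ediv _ _).symm
    have h6 : (j : ℝ) * (((a * x : ℤ) : ℝ) / R) = (((((j : ℤ) * a) % (R : ℤ)) : ℤ) : ℝ) * ((x : ℝ) / R) +
        (((((j : ℤ) * a) / (R : ℤ)) * x : ℤ) : ℝ) := by
      have h7 : ((j : ℝ) * (a : ℝ)) = ((((j : ℤ) * a) % (R : ℤ) : ℤ) : ℝ) + R * ((((j : ℤ) * a) / (R : ℤ) : ℤ) : ℝ) := by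
        exact_mod_cast h5
      push_cast
      rw [show (j : ℝ) * ((a : ℝ) * x / R) = ((j : ℝ) * a) * (x / R) by ring, h7]
      field_simp
    rw [h6, ee_add, ee_int, mul_one]

/-- the difference function of `f`, extended by zero -/
noncomputable def Df (N : ℕ) (f : ℕ → ℝ) (h : ℤ) (x : ℤ) : ℂ := ((xt N f x * xt N f (x + h) : ℝ) : ℂ)

lemma Df_out (N : ℕ) (f : ℕ → ℝ) (h : ℤ) (x : ℤ) (hx : ¬ (1 ≤ x ∧ x ≤ N)) : Df N f h x = 0 := by
  unfold Df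
  rw [xt_out N f x hx]
  simp

lemma Df_sum (M N : ℕ) (hN : N ≤ M) (f : ℕ → ℝ) (h : ℤ) (E : ℤ → ℂ) :
    ∑ x ∈ Icc (-(M : ℤ)) M, Df N f h x * E x = ∑ x ∈ Icc (1 : ℤ) N, Df N f h x * E x := by
  symm
  refine sum_subset ?_ ?_
  · intro x hx
    rw [mem_Icc] at hx ⊢
    omega
  · intro x _ hx
    rw [mem_Icc] at hx
    rw [Df_out N f h x hx, zero_mul]

/-- the transform of the difference function at a multiple of the frequencies -/
lemma Df_freq (M N R : ℕ) (hR : 0 < R) (hN : N ≤ M) (f : ℕ → ℝ) (h : ℤ) (Mh : ℝ)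
    (hM : ∀ j ∈ range R, ‖∑ s ∈ Icc (1 : ℤ) N, ((xt N f s * xt N f (s + h) : ℝ) : ℂ) * ee ((j : ℝ) * ((s : ℝ) / R))‖ ≤ Mh)
    (a b : ℤ) (j : ℕ) :
    ‖∑ x ∈ Icc (-(M : ℤ)) M, Df N f h x * ee ((j : ℝ) * (((a * x + b : ℤ) : ℝ) / R))‖ ≤ Mh := by
  have e1 : ∑ x ∈ Icc (-(M : ℤ)) M, Df N f h x * ee ((j : ℝ) * (((a * x + b : ℤ) : ℝ) / R)) =
      ee ((j : ℝ) * ((b : ℝ) / R)) * ∑ x ∈ Icc (1 : ℤ) N, Df N f h x * ee ((j : ℝ) * (((a * x : ℤ) : ℝ) / R)) := by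
    rw [Df_sum M N hN f h, mul_sum]
    refine sum_congr rfl fun x _ => ?_
    have : ee ((j : ℝ) * (((a * x + b : ℤ) : ℝ) / R)) = ee ((j : ℝ) * ((b : ℝ) / R)) * ee ((j : ℝ) * (((a * x : ℤ) : ℝ) / R)) := by
      rw [← ee_add]; congr 1; push_cast; ring
    rw [this]; ring
  rw [e1, norm_mul, norm_ee, one_mul]
  obtain ⟨j', hj', h2⟩ := freq_mod R hR (Icc (1 : ℤ) N) (Df N f h) a j
  rw [h2]
  exact hM j' hj'

/-- the trilinear form with the difference function at one of the three places -/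
lemma TT_bounds (M N R : ℕ) (u v c : ℤ) (hu : u ≠ 0) (hv : v ≠ 0) (hR : 2 * ((|u| + |v| + 1) * M + |c|) < R) (hN : N ≤ M)
    (f : ℕ → ℝ) (h : ℤ) (Mh Q : ℝ)
    (hM : ∀ j ∈ range R, ‖∑ s ∈ Icc (1 : ℤ) N, ((xt N f s * xt N f (s + h) : ℝ) : ℂ) * ee ((j : ℝ) * ((s : ℝ) / R))‖ ≤ Mh)
    (g k : ℤ → ℂ) (hg : ∀ x, ‖g x‖ ≤ Q) (hk : ∀ x, ‖k x‖ ≤ Q)
    (hk0 : ∀ w : ℤ, ¬ (-(M : ℤ) ≤ w ∧ w ≤ M) → k w = 0) :
    ‖TT M u v c (Df N f h) g k‖ ≤ Mh * ((2 * M + 1) * Q ^ 2) ∧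
    ‖TT M u v c g (Df N f h) k‖ ≤ Mh * ((2 * M + 1) * Q ^ 2) ∧
    ‖TT M u v c g k (Df N f h)‖ ≤ Mh * ((2 * M + 1) * Q ^ 2) := by
  have hu1 := abs_nonneg u
  have hv1 := abs_nonneg v
  have hc1 := abs_nonneg c
  have hM0 : (0 : ℤ) ≤ M := Nat.cast_nonneg _
  have huM : 0 ≤ |u| * (M : ℤ) := by positivity
  have hvM : 0 ≤ |v| * (M : ℤ) := by positivity
  have hR1 : (|u| + |v| + 1) * M + |c| < R := by nlinarith
  have hR0 : 0 < R := by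
    have h3 : (0 : ℤ) < R := by nlinarith
    exact_mod_cast h3
  have hD0 : ∀ w : ℤ, ¬ (-(M : ℤ) ≤ w ∧ w ≤ M) → Df N f h w = 0 := by
    intro w hw
    exact Df_out N f h w (by omega)
  -- Parseval at the three places
  have P1 : ∀ g : ℤ → ℂ, (∀ x, ‖g x‖ ≤ Q) → ∑ j ∈ range R, ‖∑ x ∈ Icc (-(M : ℤ)) M, g x * ee ((j : ℝ) * (((u * x : ℤ) : ℝ) / R))‖ ^ 2 ≤
      R * ((2 * M + 1) * Q ^ 2) := by
    intro g hg
    have := pars_lin M R u 0 hu (by nlinarith) g Q hg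
    simpa using this
  have P2 : ∀ g : ℤ → ℂ, (∀ x, ‖g x‖ ≤ Q) → ∑ j ∈ range R, ‖∑ x ∈ Icc (-(M : ℤ)) M, g x * ee ((j : ℝ) * (((v * x : ℤ) : ℝ) / R))‖ ^ 2 ≤
      R * ((2 * M + 1) * Q ^ 2) := by
    intro g hg
    have := pars_lin M R v 0 hv (by nlinarith) g Q hg
    simpa using this
  have P3 : ∀ g : ℤ → ℂ, (∀ x, ‖g x‖ ≤ Q) → ∑ j ∈ range R, ‖∑ x ∈ Icc (-(M : ℤ)) M, g x * ee ((j : ℝ) * (((c - x : ℤ) : ℝ) / R))‖ ^ 2 ≤
      R * ((2 * M + 1) * Q ^ 2) := by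
    intro g hg
    have := pars_lin M R (-1) c (by norm_num) (by rw [abs_neg, abs_one]; nlinarith) g Q hg
    have e : ∀ x : ℤ, (-1) * x + c = c - x := fun x => by ring
    simp only [e] at this
    exact this
  refine ⟨?_, ?_, ?_⟩
  · have h1 := TT_four M R u v c hR1 (Df N f h) g k hk0
    refine two_le R hR0 _ _ _ _ _ _ (h1.trans ?_) (P2 g hg) (P3 k hk)
      (fun j _ => Df_freq M N R hR0 hN f h Mh hM u 0 j)
    refine sum_congr rfl fun j _ => ?_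
    simp only [add_zero]
    ring
  · have h1 := TT_four M R u v c hR1 g (Df N f h) k hk0
    refine two_le R hR0 _ _ _ _ _ _ (h1.trans ?_) (P1 g hg) (P3 k hk)
      (fun j _ => Df_freq M N R hR0 hN f h Mh hM v 0 j)
    refine sum_congr rfl fun j _ => ?_
    simp only [add_zero]
    ring
  · have h1 := TT_four M R u v c hR1 g k (Df N f h) hD0
    refine two_le R hR0 _ _ _ _ _ _ (h1.trans ?_) (P1 g hg) (P2 k hk)
      (fun j _ => Df_freq M N R hR0 hN f h Mh hM (-1) c j)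
    refine sum_congr rfl fun j _ => ?_
    have e : ∀ x : ℤ, (-1) * x + c = c - x := fun x => by ring
    simp only [e]

end Pool.Agent.E8helper28.LN
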